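import Pool.Agent.LibDev91.Defs

/-!
Row S1: the rough numbers in a residue class in a window.

PROOF. Let `P = primorial z`, `H = h / m ≥ 1`. For `N = gcd (n + j) P`:
`1_{N = 1} = ∑_{d ∣ N} μ d = ∑_{d ∣ N, d ≤ H} μ d + R(j)` with `|R(j)| ≤ #{d ∣ N : H / z < d ≤ H}`
(for `N > 1` with smallest prime factor `p ≤ z` pair `d` with `p d`, `p ∤ d`: the pairs with
`p d ≤ H` cancel, the pairs with `d > H` are absent, there remain the `d ≤ H < p d`; the whole sum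
over `d ∣ N` is `0`.) For `d` coprime to `m`: `#{j ∈ Icc 1 h : j ≡ b (m), d ∣ n + j} = H / d + θ`,
`|θ| ≤ 1` (one class modulo `m d`; cf. `Int.Ioc_filter_modEq_card`, `Nat.count_modEq_card`).
Hence the error is at most `∑_{d ∣ P, d ≤ H} 1 + (z + 1) #{d ∣ P : d ≤ H} + H ∑_{d ∣ P, d > H} 1/d`,
and `#{d ∣ P : d ≤ H} ≤ H^σ ∏ (1 + p^(-σ))`, `∑_{d ∣ P, d > H} 1/d ≤ H^(σ-1) ∏ (1 + p^(-σ))`
(Rankin; `∑_{d ∣ P} d^(-σ) = ∏_{p ≤ z} (1 + p^(-σ))`), `vee z = ∑_{d ∣ P} μ d / d`.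
-/

namespace Pool.Agent.LibDev91

open Finset

/-- The arithmetic function `n ↦ n^(-s)`. -/
noncomputable def powAF (s : ℝ) : ArithmeticFunction ℝ :=
  ⟨fun n => if n = 0 then 0 else (n : ℝ) ^ (-s), by simp⟩

lemma powAF_apply (s : ℝ) {n : ℕ} (hn : n ≠ 0) : powAF s n = (n : ℝ) ^ (-s) := by
  simp [powAF, hn]

lemma powAF_mult (s : ℝ) : (powAF s).IsMultiplicative := by
  rw [ArithmeticFunction.IsMultiplicative.iff_ne_zero]
  refine ⟨by rw [powAF_apply s one_ne_zero]; simp, ?_⟩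
  intro m n hm hn _
  rw [powAF_apply s hm, powAF_apply s hn, powAF_apply s (mul_ne_zero hm hn), Nat.cast_mul,
    Real.mul_rpow (Nat.cast_nonneg _) (Nat.cast_nonneg _)]

lemma sum_divisors_pow (z : ℕ) (s : ℝ) : ∑ d ∈ (primorial z).divisors, (d : ℝ) ^ (-s) =
    ∏ p ∈ (range (z + 1)).filter Nat.Prime, (1 + (p : ℝ) ^ (-s)) := by
  have h := (powAF_mult s).prodPrimeFactors_one_add_of_squarefree (squarefree_primorial z)
  rw [primeFactors_primorial, Nat.primesLE_eq_filter_range] at h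
  have h2 : ∑ d ∈ (primorial z).divisors, (d : ℝ) ^ (-s) =
      ∑ d ∈ (primorial z).divisors, powAF s d :=
    sum_congr rfl fun d hd => (powAF_apply s (Nat.pos_of_mem_divisors hd).ne').symm
  rw [h2, ← h]
  refine prod_congr rfl fun p hp => ?_
  rw [powAF_apply s (mem_filter.1 hp).2.ne_zero]

lemma vee_eq_sum (z : ℕ) : vee z = ∑ d ∈ (primorial z).divisors,
    (ArithmeticFunction.moebius d : ℝ) * (1 / (d : ℝ)) := by
  have h := ArithmeticFunction.IsMultiplicative.prodPrimeFactors_one_sub_of_squarefree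
    (powAF 1) (powAF_mult 1) (squarefree_primorial z)
  rw [primeFactors_primorial, Nat.primesLE_eq_filter_range] at h
  have h2 : ∑ d ∈ (primorial z).divisors, (ArithmeticFunction.moebius d : ℝ) * (1 / (d : ℝ)) =
      ∑ d ∈ (primorial z).divisors, (ArithmeticFunction.moebius d : ℝ) * powAF 1 d := by
    refine sum_congr rfl fun d hd => ?_
    rw [powAF_apply 1 (Nat.pos_of_mem_divisors hd).ne', Real.rpow_neg_one, one_div]
  rw [h2, ← h, vee]
  refine prod_congr rfl fun p hp => ?_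
  rw [powAF_apply 1 (mem_filter.1 hp).2.ne_zero, Real.rpow_neg_one, one_div]

lemma sum_div_prime_mul {p M : ℕ} (hp : p.Prime) (hM : M ≠ 0) (hc : p.Coprime M) (F : ℕ → ℝ) :
    ∑ d ∈ (p * M).divisors, F d = ∑ d ∈ M.divisors, (F d + F (p * d)) := by
  have h1 : (p * M).divisors = M.divisors ∪ M.divisors.image (fun d => p * d) := by
    ext d
    simp only [Nat.mem_divisors, mem_union, mem_image]
    constructor
    · rintro ⟨h, -⟩
      by_cases hd : p ∣ d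
      · obtain ⟨e, rfl⟩ := hd
        exact Or.inr ⟨e, ⟨(Nat.mul_dvd_mul_iff_left hp.pos).1 h, hM⟩, rfl⟩
      · refine Or.inl ⟨?_, hM⟩
        have : Nat.Coprime d p := ((Nat.Prime.coprime_iff_not_dvd hp).2 hd).symm
        exact this.dvd_of_dvd_mul_left h
    · rintro (⟨h, -⟩ | ⟨e, ⟨h, -⟩, rfl⟩)
      · exact ⟨h.mul_left p, mul_ne_zero hp.ne_zero hM⟩
      · exact ⟨Nat.mul_dvd_mul_left p h, mul_ne_zero hp.ne_zero hM⟩
  have h2 : Disjoint M.divisors (M.divisors.image (fun d => p * d)) := by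
    rw [disjoint_left]
    intro d hd hd2
    obtain ⟨e, -, rfl⟩ := mem_image.1 hd2
    have h3 : p ∣ M := (Dvd.intro _ rfl).trans (Nat.dvd_of_mem_divisors hd)
    have h4 := Nat.dvd_gcd (dvd_refl p) h3
    rw [hc] at h4
    exact hp.one_lt.ne' (Nat.dvd_one.1 h4)
  rw [h1, sum_union h2, sum_image, sum_add_distrib]
  intro a _ b _ hab
  exact Nat.eq_of_mul_eq_mul_left hp.pos hab

/-- The truncated Möbius sum. -/
lemma trunc (N z : ℕ) (hN : Squarefree N) (hz : ∀ p, p.Prime → p ∣ N → p ≤ z) (H : ℝ)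
    (hH : 1 ≤ H) :
    |(if N = 1 then (1 : ℝ) else 0) -
      ∑ d ∈ N.divisors with ((d : ℕ) : ℝ) ≤ H, (ArithmeticFunction.moebius d : ℝ)| ≤
      ((#{d ∈ N.divisors | ((d : ℕ) : ℝ) ≤ H ∧ H < z * d} : ℕ) : ℝ) := by
  by_cases h1 : N = 1
  · subst h1
    have : ({d ∈ Nat.divisors 1 | ((d : ℕ) : ℝ) ≤ H} : Finset ℕ) = {1} := by
      ext d
      simp only [Nat.divisors_one, mem_filter, mem_singleton]
      constructor
      · exact fun h => h.1
      · rintro rfl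
        exact ⟨rfl, by simpa using hH⟩
    rw [this]
    simp
  · have hp := Nat.minFac_prime h1
    obtain ⟨M, hM⟩ := Nat.minFac_dvd N
    set p := N.minFac with hpdef
    have hpz : p ≤ z := hz p hp ⟨M, hM⟩
    have hN0 : N ≠ 0 := hN.ne_zero
    have hM0 : M ≠ 0 := by
      rintro rfl
      exact hN0 (by rw [hM, mul_zero])
    have hc : p.Coprime M := by
      rw [hM] at hN
      exact Nat.coprime_of_squarefree_mul hN
    have h2 : ∑ d ∈ N.divisors with ((d : ℕ) : ℝ) ≤ H, (ArithmeticFunction.moebius d : ℝ) =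
        ∑ d ∈ M.divisors, (ArithmeticFunction.moebius d : ℝ) *
          ((if ((d : ℕ) : ℝ) ≤ H then (1 : ℝ) else 0) -
            (if (p : ℝ) * d ≤ H then (1 : ℝ) else 0)) := by
      rw [sum_filter, hM, sum_div_prime_mul hp hM0 hc]
      refine sum_congr rfl fun d hd => ?_
      have hcd : p.Coprime d := hc.coprime_dvd_right (Nat.dvd_of_mem_divisors hd)
      have hmu : (ArithmeticFunction.moebius (p * d) : ℤ) = -ArithmeticFunction.moebius d := by
        rw [ArithmeticFunction.isMultiplicative_moebius.map_mul_of_coprime hcd,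
          ArithmeticFunction.moebius_apply_prime hp]
        ring
      rw [hmu]
      push_cast
      split_ifs <;> ring
    rw [if_neg h1, zero_sub, abs_neg, h2]
    calc |∑ d ∈ M.divisors, (ArithmeticFunction.moebius d : ℝ) *
          ((if ((d : ℕ) : ℝ) ≤ H then (1 : ℝ) else 0) -
            (if (p : ℝ) * d ≤ H then (1 : ℝ) else 0))|
        ≤ ∑ d ∈ M.divisors, |(ArithmeticFunction.moebius d : ℝ) *
          ((if ((d : ℕ) : ℝ) ≤ H then (1 : ℝ) else 0) -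
            (if (p : ℝ) * d ≤ H then (1 : ℝ) else 0))| := abs_sum_le_sum_abs _ _
      _ ≤ ∑ d ∈ M.divisors, (if ((d : ℕ) : ℝ) ≤ H ∧ H < z * d then (1 : ℝ) else 0) := by
        refine sum_le_sum fun d hd => ?_
        have hmu1 : |(ArithmeticFunction.moebius d : ℝ)| ≤ 1 := by
          have := ArithmeticFunction.abs_moebius_le_one (n := d)
          exact_mod_cast this
        have hd0 : (0 : ℝ) ≤ d := Nat.cast_nonneg _
        have hp1 : (1 : ℝ) ≤ p := by exact_mod_cast hp.one_lt.le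
        have hpz' : (p : ℝ) ≤ z := by exact_mod_cast hpz
        rw [abs_mul]
        by_cases ha : ((d : ℕ) : ℝ) ≤ H
        · by_cases hb : (p : ℝ) * d ≤ H
          · rw [if_pos ha, if_pos hb, sub_self, abs_zero, mul_zero]
            split_ifs <;> norm_num
          · rw [if_pos ha, if_neg hb, sub_zero, abs_one, mul_one]
            have : H < z * d := lt_of_lt_of_le (not_le.1 hb)
              (mul_le_mul_of_nonneg_right hpz' hd0)
            rw [if_pos ⟨ha, this⟩]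
            exact hmu1
        · have hb : ¬ (p : ℝ) * d ≤ H := by
            intro hb
            apply ha
            nlinarith
          rw [if_neg ha, if_neg hb, sub_self, abs_zero, mul_zero]
          split_ifs <;> norm_num
      _ ≤ ∑ d ∈ N.divisors, (if ((d : ℕ) : ℝ) ≤ H ∧ H < z * d then (1 : ℝ) else 0) := by
        apply sum_le_sum_of_subset_of_nonneg
        · exact Nat.divisors_subset_of_dvd hN0 ⟨p, by rw [mul_comm]; exact hM⟩
        · intro i _ _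
          split_ifs <;> norm_num
      _ = _ := by
        rw [sum_boole]

/-- One residue class modulo `m d`. -/
lemma count_class (m d b n h : ℕ) (hm : 1 ≤ m) (hd : 1 ≤ d) (hc : m.Coprime d) :
    |((#{j ∈ Icc 1 h | j ≡ b [MOD m] ∧ d ∣ n + j} : ℕ) : ℝ) - (h : ℝ) / (m * d)| ≤ 1 := by
  obtain ⟨v, hv1, hv2⟩ := Nat.chineseRemainder hc b (d - n % d)
  have hv3 : d ∣ n + v := by
    have h1 : n + v ≡ n + (d - n % d) [MOD d] := Nat.ModEq.add_left n hv2
    have h2 : n + (d - n % d) ≡ 0 [MOD d] := by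
      have h3 : n % d < d := Nat.mod_lt _ hd
      have h4 : n + (d - n % d) = d * (n / d) + d := by
        have := Nat.div_add_mod n d
        omega
      rw [h4]
      exact (Nat.modEq_zero_iff_dvd.2 ((Dvd.intro _ rfl).add (dvd_refl d)))
    exact (Nat.modEq_zero_iff_dvd.1 (h1.trans h2))
  have hset : ({j ∈ Icc 1 h | j ≡ b [MOD m] ∧ d ∣ n + j} : Finset ℕ) =
      {j ∈ Ioc 0 h | j ≡ v [MOD (m * d)]} := by
    ext j
    simp only [mem_filter, mem_Icc, mem_Ioc]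
    have h5 : (j ≡ b [MOD m] ∧ d ∣ n + j) ↔ j ≡ v [MOD (m * d)] := by
      rw [← Nat.modEq_and_modEq_iff_modEq_mul hc]
      constructor
      · rintro ⟨h1, h2⟩
        refine ⟨h1.trans hv1.symm, ?_⟩
        have h6 : n + j ≡ n + v [MOD d] :=
          (Nat.modEq_zero_iff_dvd.2 h2).trans (Nat.modEq_zero_iff_dvd.2 hv3).symm
        exact Nat.ModEq.add_left_cancel' n h6
      · rintro ⟨h1, h2⟩
        refine ⟨h1.trans hv1, ?_⟩
        have h6 : n + j ≡ n + v [MOD d] := Nat.ModEq.add_left n h2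
        exact Nat.modEq_zero_iff_dvd.1 (h6.trans (Nat.modEq_zero_iff_dvd.2 hv3))
    rw [h5]
    constructor
    · rintro ⟨⟨h1, h2⟩, h3⟩
      exact ⟨⟨by omega, h2⟩, h3⟩
    · rintro ⟨⟨h1, h2⟩, h3⟩
      exact ⟨⟨by omega, h2⟩, h3⟩
  have hr : 0 < m * d := Nat.mul_pos hm hd
  have hcard := Nat.Ioc_filter_modEq_card 0 h hr v
  rw [hset]
  set K : ℕ := #{j ∈ Ioc 0 h | j ≡ v [MOD (m * d)]} with hK
  have hrq : (0 : ℚ) < ((m * d : ℕ) : ℚ) := by exact_mod_cast hr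
  have hle : (((0 : ℕ) : ℚ) - (v : ℚ)) / ((m * d : ℕ) : ℚ) ≤
      (((h : ℕ) : ℚ) - (v : ℚ)) / ((m * d : ℕ) : ℚ) := by
    apply div_le_div_of_nonneg_right _ hrq.le
    have : (0 : ℚ) ≤ (h : ℚ) := Nat.cast_nonneg _
    push_cast
    linarith
  have hfl : ⌊(((0 : ℕ) : ℚ) - (v : ℚ)) / ((m * d : ℕ) : ℚ)⌋ ≤
      ⌊(((h : ℕ) : ℚ) - (v : ℚ)) / ((m * d : ℕ) : ℚ)⌋ := Int.floor_le_floor hle
  rw [max_eq_left (by linarith)] at hcard
  have e1 := Int.floor_le ((((h : ℕ) : ℚ) - (v : ℚ)) / ((m * d : ℕ) : ℚ))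
  have e2 := Int.lt_floor_add_one ((((h : ℕ) : ℚ) - (v : ℚ)) / ((m * d : ℕ) : ℚ))
  have e3 := Int.floor_le ((((0 : ℕ) : ℚ) - (v : ℚ)) / ((m * d : ℕ) : ℚ))
  have e4 := Int.lt_floor_add_one ((((0 : ℕ) : ℚ) - (v : ℚ)) / ((m * d : ℕ) : ℚ))
  have e5 : (((h : ℕ) : ℚ) - (v : ℚ)) / ((m * d : ℕ) : ℚ) -
      (((0 : ℕ) : ℚ) - (v : ℚ)) / ((m * d : ℕ) : ℚ) = (h : ℚ) / ((m * d : ℕ) : ℚ) := by
    rw [← sub_div]
    congr 1
    push_cast
    ring
  have e6 : ((K : ℕ) : ℚ) = ((⌊(((h : ℕ) : ℚ) - (v : ℚ)) / ((m * d : ℕ) : ℚ)⌋ : ℤ) : ℚ) -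
      ((⌊(((0 : ℕ) : ℚ) - (v : ℚ)) / ((m * d : ℕ) : ℚ)⌋ : ℤ) : ℚ) := by
    have : ((K : ℤ) : ℚ) = (((⌊(((h : ℕ) : ℚ) - (v : ℚ)) / ((m * d : ℕ) : ℚ)⌋ -
      ⌊(((0 : ℕ) : ℚ) - (v : ℚ)) / ((m * d : ℕ) : ℚ)⌋ : ℤ)) : ℚ) := by
      rw [← hcard]
    push_cast at this ⊢
    exact this
  have e7 : |((K : ℕ) : ℚ) - (h : ℚ) / ((m * d : ℕ) : ℚ)| ≤ 1 := by
    rw [abs_le]
    constructor <;> linarith
  have e8 : |(((K : ℕ) : ℚ) : ℝ) - (((h : ℚ) / ((m * d : ℕ) : ℚ) : ℚ) : ℝ)| ≤ ((1 : ℚ) : ℝ) := by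
    exact_mod_cast e7
  push_cast at e8
  exact e8

theorem roughAP (z h m b n : ℕ) (hm : 1 ≤ m) (hmh : m ≤ h) (hc : m.Coprime (primorial z))
    (σ : ℝ) (h0 : 0 < σ) (h1 : σ < 1) :
    |((#{j ∈ Icc 1 h | j ≡ b [MOD m] ∧ (n + j).Coprime (primorial z)} : ℕ) : ℝ) -
      vee z * h / m| ≤ (z + 4) * ((h : ℝ) / m) ^ σ *
        ∏ p ∈ (range (z + 1)).filter Nat.Prime, (1 + (p : ℝ) ^ (-σ)) := by
  classical
  set P := primorial z with hP
  have hP0 : P ≠ 0 := primorial_ne_zero z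
  have hPsq : Squarefree P := squarefree_primorial z
  set H : ℝ := (h : ℝ) / m with hH
  have hm0 : (0 : ℝ) < m := by exact_mod_cast hm
  have hH1 : 1 ≤ H := by
    rw [hH, le_div_iff₀ hm0, one_mul]
    exact_mod_cast hmh
  have hH0 : 0 < H := by linarith
  set J : Finset ℕ := {j ∈ Icc 1 h | j ≡ b [MOD m]} with hJ
  set μ : ℕ → ℝ := fun d => (ArithmeticFunction.moebius d : ℝ) with hμ
  have hmu1 : ∀ d, |μ d| ≤ 1 := by
    intro d
    have := ArithmeticFunction.abs_moebius_le_one (n := d)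
    simp only [hμ]
    exact_mod_cast this
  -- the divisors
  set D := P.divisors with hD
  set D1 := D.filter (fun d => ((d : ℕ) : ℝ) ≤ H) with hD1
  set D2 := D.filter (fun d => ((d : ℕ) : ℝ) ≤ H ∧ H < z * d) with hD2
  have hdiv : ∀ j, (Nat.gcd (n + j) P).divisors = D.filter (fun d => d ∣ n + j) := by
    intro j
    ext d
    simp only [hD, mem_filter, Nat.mem_divisors]
    constructor
    · rintro ⟨h2, h3⟩
      exact ⟨⟨h2.trans (Nat.gcd_dvd_right _ _), hP0⟩, h2.trans (Nat.gcd_dvd_left _ _)⟩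
    · rintro ⟨⟨h2, h3⟩, h4⟩
      exact ⟨Nat.dvd_gcd h4 h2, Nat.gcd_ne_zero_right hP0⟩
  have hcnt : ∀ d ∈ D, |((#{j ∈ J | d ∣ n + j} : ℕ) : ℝ) - H / d| ≤ 1 := by
    intro d hd
    have hd1 : 1 ≤ d := Nat.pos_of_mem_divisors hd
    have hcd : m.Coprime d := hc.coprime_dvd_right (Nat.dvd_of_mem_divisors hd)
    have h2 := count_class m d b n h hm hd1 hcd
    rw [hJ, filter_filter]
    have h3 : H / d = (h : ℝ) / (m * d) := by
      rw [hH, div_div]
    rw [h3]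
    exact h2
  -- the sum over the window
  have hS : ((#{j ∈ Icc 1 h | j ≡ b [MOD m] ∧ (n + j).Coprime P} : ℕ) : ℝ) =
      ∑ j ∈ J, (if Nat.gcd (n + j) P = 1 then (1 : ℝ) else 0) := by
    rw [sum_boole, hJ, filter_filter]
  have hT : ∑ j ∈ J, ∑ d ∈ (Nat.gcd (n + j) P).divisors with ((d : ℕ) : ℝ) ≤ H, μ d =
      ∑ d ∈ D1, μ d * ((#{j ∈ J | d ∣ n + j} : ℕ) : ℝ) := by
    have h2 : ∀ j ∈ J, ∑ d ∈ (Nat.gcd (n + j) P).divisors with ((d : ℕ) : ℝ) ≤ H, μ d =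
        ∑ d ∈ D1, (if d ∣ n + j then μ d else 0) := by
      intro j _
      rw [hdiv j, filter_filter, hD1, ← sum_filter, filter_filter]
      refine sum_congr ?_ fun _ _ => rfl
      ext d
      simp only [mem_filter]
      tauto
    rw [sum_congr rfl h2, sum_comm]
    refine sum_congr rfl fun d _ => ?_
    rw [← sum_filter, sum_const, nsmul_eq_mul, mul_comm]
  have hE1 : |(∑ j ∈ J, (if Nat.gcd (n + j) P = 1 then (1 : ℝ) else 0)) -
      ∑ j ∈ J, ∑ d ∈ (Nat.gcd (n + j) P).divisors with ((d : ℕ) : ℝ) ≤ H, μ d| ≤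
      ∑ d ∈ D2, ((#{j ∈ J | d ∣ n + j} : ℕ) : ℝ) := by
    rw [← sum_sub_distrib]
    refine (abs_sum_le_sum_abs _ _).trans ?_
    have h2 : ∀ j ∈ J, |(if Nat.gcd (n + j) P = 1 then (1 : ℝ) else 0) -
        ∑ d ∈ (Nat.gcd (n + j) P).divisors with ((d : ℕ) : ℝ) ≤ H, μ d| ≤
        ∑ d ∈ D2, (if d ∣ n + j then (1 : ℝ) else 0) := by
      intro j _
      have h3 := trunc (Nat.gcd (n + j) P) z
        (hPsq.squarefree_of_dvd (Nat.gcd_dvd_right _ _))
        (fun p hp hpd => (hp.dvd_primorial_iff).1 (hpd.trans (Nat.gcd_dvd_right _ _))) H hH1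
      refine h3.trans (le_of_eq ?_)
      rw [hdiv j, filter_filter, sum_boole, hD2, filter_filter]
      congr 2
      ext d
      simp only [mem_filter]
      tauto
    refine (sum_le_sum h2).trans (le_of_eq ?_)
    rw [sum_comm]
    refine sum_congr rfl fun d _ => ?_
    rw [sum_boole]
  have hE2 : ∑ d ∈ D2, ((#{j ∈ J | d ∣ n + j} : ℕ) : ℝ) ≤ (z + 1) * (#D1 : ℝ) := by
    have h2 : ∀ d ∈ D2, ((#{j ∈ J | d ∣ n + j} : ℕ) : ℝ) ≤ z + 1 := by
      intro d hd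
      have hd2 := mem_filter.1 hd
      have h3 := (abs_le.1 (hcnt d hd2.1)).2
      have hd0 : (0 : ℝ) < d := by exact_mod_cast Nat.pos_of_mem_divisors hd2.1
      have h4 : H / d ≤ z := by
        rw [div_le_iff₀ hd0]
        exact hd2.2.2.le
      linarith
    calc ∑ d ∈ D2, ((#{j ∈ J | d ∣ n + j} : ℕ) : ℝ) ≤ ∑ _d ∈ D2, ((z : ℝ) + 1) := sum_le_sum h2
      _ = (#D2 : ℝ) * (z + 1) := by rw [sum_const, nsmul_eq_mul]
      _ ≤ (#D1 : ℝ) * (z + 1) := by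
        apply mul_le_mul_of_nonneg_right _ (by positivity)
        have : D2 ⊆ D1 := by
          intro d hd
          have := mem_filter.1 hd
          exact mem_filter.2 ⟨this.1, this.2.1⟩
        exact_mod_cast card_le_card this
      _ = _ := by ring
  have hE3 : |∑ d ∈ D1, μ d * ((#{j ∈ J | d ∣ n + j} : ℕ) : ℝ) - ∑ d ∈ D1, μ d * (H / d)| ≤
      (#D1 : ℝ) := by
    rw [← sum_sub_distrib]
    refine (abs_sum_le_sum_abs _ _).trans ?_
    calc ∑ d ∈ D1, |μ d * ((#{j ∈ J | d ∣ n + j} : ℕ) : ℝ) - μ d * (H / d)|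
        ≤ ∑ _d ∈ D1, (1 : ℝ) := by
          refine sum_le_sum fun d hd => ?_
          rw [← mul_sub, abs_mul]
          calc |μ d| * |((#{j ∈ J | d ∣ n + j} : ℕ) : ℝ) - H / d| ≤ 1 * 1 :=
                mul_le_mul (hmu1 d) (hcnt d (mem_filter.1 hd).1) (abs_nonneg _) zero_le_one
            _ = 1 := one_mul _
      _ = (#D1 : ℝ) := by simp
  have hV : vee z * h / m = ∑ d ∈ D, μ d * (H / d) := by
    rw [vee_eq_sum, mul_div_assoc, ← hH, sum_mul]
    refine sum_congr rfl fun d _ => ?_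
    simp only [hμ]
    ring
  have hsplit : ∑ d ∈ D, μ d * (H / d) = ∑ d ∈ D1, μ d * (H / d) +
      ∑ d ∈ D with ¬ ((d : ℕ) : ℝ) ≤ H, μ d * (H / d) :=
    (sum_filter_add_sum_filter_not D _ _).symm
  have hE4 : |∑ d ∈ D with ¬ ((d : ℕ) : ℝ) ≤ H, μ d * (H / d)| ≤
      ∑ d ∈ D with ¬ ((d : ℕ) : ℝ) ≤ H, (H / d) ^ σ := by
    refine (abs_sum_le_sum_abs _ _).trans ?_
    refine sum_le_sum fun d hd => ?_
    have hd2 := mem_filter.1 hd
    have hd0 : (0 : ℝ) < d := by exact_mod_cast Nat.pos_of_mem_divisors hd2.1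
    have h3 : H / d ≤ 1 := by
      rw [div_le_one hd0]
      exact (not_le.1 hd2.2).le
    have h4 : 0 < H / d := by positivity
    rw [abs_mul, abs_of_pos h4]
    calc |μ d| * (H / d) ≤ 1 * (H / d) := mul_le_mul_of_nonneg_right (hmu1 d) h4.le
      _ = (H / d) ^ (1 : ℝ) := by rw [one_mul, Real.rpow_one]
      _ ≤ (H / d) ^ σ := Real.rpow_le_rpow_of_exponent_ge h4 h3 h1.le
  have hE5 : (#D1 : ℝ) ≤ ∑ d ∈ D1, (H / d) ^ σ := by
    have : (#D1 : ℝ) = ∑ _d ∈ D1, (1 : ℝ) := by simp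
    rw [this]
    refine sum_le_sum fun d hd => ?_
    have hd2 := mem_filter.1 hd
    have hd0 : (0 : ℝ) < d := by exact_mod_cast Nat.pos_of_mem_divisors hd2.1
    apply Real.one_le_rpow _ h0.le
    rw [one_le_div hd0]
    exact hd2.2
  set S1 := ∑ d ∈ D1, (H / d) ^ σ with hS1
  set S2 := ∑ d ∈ D with ¬ ((d : ℕ) : ℝ) ≤ H, (H / d) ^ σ with hS2
  have hsum : S1 + S2 = H ^ σ * ∏ p ∈ (range (z + 1)).filter Nat.Prime, (1 + (p : ℝ) ^ (-σ)) := by
    rw [hS1, hS2, hD1, sum_filter_add_sum_filter_not D, ← sum_divisors_pow, mul_sum]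
    refine sum_congr rfl fun d hd => ?_
    have hd0 : (0 : ℝ) ≤ d := Nat.cast_nonneg _
    rw [Real.div_rpow hH0.le hd0, Real.rpow_neg hd0, div_eq_mul_inv]
  have hpos : ∀ d : ℕ, 0 ≤ (H / (d : ℝ)) ^ σ := fun d =>
    Real.rpow_nonneg (div_nonneg hH0.le (Nat.cast_nonneg _)) _
  have hS2' : 0 ≤ S2 := by
    rw [hS2]
    exact sum_nonneg fun d _ => hpos d
  have hz0 : (0 : ℝ) ≤ z := Nat.cast_nonneg _
  rw [hS, hV, hsplit]
  rw [hT] at hE1
  have hfin : |(∑ j ∈ J, (if Nat.gcd (n + j) P = 1 then (1 : ℝ) else 0)) -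
      (∑ d ∈ D1, μ d * (H / d) + ∑ d ∈ D with ¬ ((d : ℕ) : ℝ) ≤ H, μ d * (H / d))| ≤
      (z + 1) * (#D1 : ℝ) + (#D1 : ℝ) + S2 := by
    have a1 := abs_le.1 (hE1.trans hE2)
    have a2 := abs_le.1 hE3
    have a3 := abs_le.1 hE4
    rw [abs_le]
    constructor <;> linarith [a1.1, a1.2, a2.1, a2.2, a3.1, a3.2]
  refine hfin.trans ?_
  rw [mul_assoc, ← hsum]
  have hS1' : 0 ≤ S1 := (Nat.cast_nonneg _).trans hE5
  have h7 := mul_le_mul_of_nonneg_left hE5 (by positivity : (0 : ℝ) ≤ (z : ℝ) + 2)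
  nlinarith [mul_nonneg hz0 hS2', mul_nonneg hz0 hS1']

end Pool.Agent.LibDev91
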