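import Pool.Agent.LibDev91.Recur
import Pool.Agent.LibDev91.RoughAP

/-!
The moment bound for the rough numbers in a window, in terms of the parameters.
-/

namespace Pool.Agent.LibDev91

open Finset

/-- `∏_{q ∈ Q} (1 - 1/q)⁻¹` -/
noncomputable def gq (Q : Finset ℕ) : ℝ := ∏ q ∈ Q, (1 - 1 / (q : ℝ))⁻¹

lemma fac_bound (q : ℕ) (hq : q.Prime) : 1 ≤ (1 - 1 / (q : ℝ))⁻¹ := by
  have hq2 : (2 : ℝ) ≤ q := by exact_mod_cast hq.two_le
  have h1 : 1 / (q : ℝ) ≤ 1 / 2 := by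
    apply one_div_le_one_div_of_le <;> linarith
  have h2 : 0 < 1 / (q : ℝ) := by positivity
  rw [one_le_inv₀ (by linarith)]
  linarith

lemma gq_ge_one (Q : Finset ℕ) (hQ : ∀ p ∈ Q, p.Prime) : 1 ≤ gq Q := by
  unfold gq
  calc (1:ℝ) = ∏ q ∈ Q, 1 := by simp
    _ ≤ ∏ q ∈ Q, (1 - 1 / (q : ℝ))⁻¹ := Finset.prod_le_prod (fun _ _ => zero_le_one)
        (fun q hq => fac_bound q (hQ q hq))

lemma gq_mono {Q R : Finset ℕ} (hR : ∀ p ∈ R, p.Prime) (h : Q ⊆ R) : gq Q ≤ gq R := by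
  have h1 : gq (R \ Q) * gq Q = gq R := by
    unfold gq; exact Finset.prod_sdiff h
  have h2 : 1 ≤ gq (R \ Q) := gq_ge_one _ (fun p hp => hR p (Finset.mem_sdiff.mp hp).1)
  have h3 : 1 ≤ gq Q := gq_ge_one _ (fun p hp => hR p (h hp))
  rw [← h1]
  nlinarith

lemma prod_bounds (Q : Finset ℕ) (hQ : ∀ p ∈ Q, p.Prime) (n j : ℕ) :
    0 ≤ ∏ q ∈ Q, (if q ∣ n + j then 0 else (1 - 1 / (q : ℝ))⁻¹) ∧
    ∏ q ∈ Q, (if q ∣ n + j then 0 else (1 - 1 / (q : ℝ))⁻¹) ≤ gq Q := by
  have h0 : ∀ q ∈ Q, 0 ≤ (if q ∣ n + j then 0 else (1 - 1 / (q : ℝ))⁻¹) := by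
    intro q hq
    split_ifs
    · exact le_refl _
    · exact le_trans zero_le_one (fac_bound q (hQ q hq))
  refine ⟨Finset.prod_nonneg h0, Finset.prod_le_prod h0 ?_⟩
  intro q hq
  split_ifs
  · exact le_trans zero_le_one (fac_bound q (hQ q hq))
  · exact le_refl _

/-- Moduli `m ≥ h`: at most one element. -/
lemma MB_large (Q : Finset ℕ) (hQ : ∀ p ∈ Q, p.Prime) (k h m b : ℕ) (f : ℕ → ℝ)
    (hf : ∀ j, 0 ≤ f j ∧ f j ≤ 1) (v : ℝ) (hv0 : 0 ≤ v) (hv : v ≤ h) (hh : 1 ≤ h) (hm : h ≤ m) :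
    MB Q k h (fm m b f) (v / m) (gq Q ^ 2) := by
  have hG := gq_ge_one Q hQ
  have hm0 : (0:ℝ) < m := by exact_mod_cast (by omega : 0 < m)
  have hvm0 : 0 ≤ v / m := by positivity
  have hvm1 : v / m ≤ 1 := by
    rw [div_le_one hm0]
    have : (h:ℝ) ≤ m := by exact_mod_cast hm
    linarith
  have key : ∀ n, (sv Q n (fm m b f) h - v / m) ^ (2 * k) ≤ (gq Q ^ 2) ^ k := by
    intro n
    have h1 : 0 ≤ sv Q n (fm m b f) h := by
      unfold sv
      apply Finset.sum_nonneg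
      intro j _
      apply mul_nonneg
      · unfold fm; split_ifs
        · exact (hf j).1
        · exact le_refl _
      · exact (prod_bounds Q hQ n j).1
    have h2 : sv Q n (fm m b f) h ≤ gq Q := by
      have h3 : sv Q n (fm m b f) h ≤ ∑ j ∈ (Icc 1 h).filter (fun j => j ≡ b [MOD m]), gq Q := by
        unfold sv
        rw [Finset.sum_filter]
        apply Finset.sum_le_sum
        intro j _
        unfold fm
        split_ifs with h4
        · have := prod_bounds Q hQ n j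
          have := hf j
          nlinarith
        · simp
      refine le_trans h3 ?_
      rw [Finset.sum_const, nsmul_eq_mul]
      have h4 : #((Icc 1 h).filter (fun j => j ≡ b [MOD m])) ≤ 1 := by
        rw [Finset.card_le_one]
        intro i hi j hj
        rw [mem_filter, mem_Icc] at hi hj
        have h5 : i ≡ j [MOD m] := hi.2.trans hj.2.symm
        -- both in `[1, h]`
        rcases le_total i j with h6 | h6
        · have h7 := (Nat.modEq_iff_dvd' h6).mp h5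
          rcases Nat.eq_zero_or_pos (j - i) with h8 | h8
          · omega
          · have := Nat.le_of_dvd h8 h7; omega
        · have h7 := (Nat.modEq_iff_dvd' h6).mp h5.symm
          rcases Nat.eq_zero_or_pos (i - j) with h8 | h8
          · omega
          · have := Nat.le_of_dvd h8 h7; omega
      have h5 : ((#((Icc 1 h).filter (fun j => j ≡ b [MOD m])) : ℕ) : ℝ) ≤ 1 := by
        exact_mod_cast h4
      nlinarith
    rw [pow_mul]
    apply pow_le_pow_left₀ (sq_nonneg _)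
    nlinarith
  unfold MB
  calc ∑ n ∈ range (∏ q ∈ Q, q), (sv Q n (fm m b f) h - v / m) ^ (2 * k)
      ≤ ∑ n ∈ range (∏ q ∈ Q, q), (gq Q ^ 2) ^ k := Finset.sum_le_sum (fun n _ => key n)
    _ = _ := by
        rw [Finset.sum_const, card_range, nsmul_eq_mul]; push_cast; rfl

/-- The indicator of `n0 + j` having no prime factor `≤ z`. -/
noncomputable def fr (z n0 : ℕ) : ℕ → ℝ :=
  fun j => if (n0 + j).Coprime (primorial z) then 1 else 0

lemma vee_pos (z : ℕ) : 0 < vee z := by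
  unfold vee
  apply Finset.prod_pos
  intro q hq
  rw [mem_filter] at hq
  have := fac_bound q hq.2
  have h2 : (2 : ℝ) ≤ q := by exact_mod_cast hq.2.two_le
  have h1 : 1 / (q : ℝ) ≤ 1 / 2 := by
    apply one_div_le_one_div_of_le <;> linarith
  linarith

lemma vee_le_one (z : ℕ) : vee z ≤ 1 := by
  unfold vee
  apply Finset.prod_le_one
  · intro q hq
    rw [mem_filter] at hq
    have h2 : (2 : ℝ) ≤ q := by exact_mod_cast hq.2.two_le
    have h1 : 1 / (q : ℝ) ≤ 1 / 2 := by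
      apply one_div_le_one_div_of_le <;> linarith
    linarith
  · intro q _
    have : (0:ℝ) ≤ 1 / (q:ℝ) := by positivity
    linarith

/-- The product in `roughAP`. -/
noncomputable def rp (z : ℕ) (σ : ℝ) : ℝ :=
  ∏ p ∈ (range (z + 1)).filter Nat.Prime, (1 + (p : ℝ) ^ (-σ))

lemma inv_base (z n0 k h : ℕ) (σ s s1 : ℝ) (h0 : 0 < σ) (h1 : σ < 1)
    (hs : 2 * σ ≤ s) :
    Inv z ∅ k h (fr z n0) (vee z * h) s s1 (((z + 4) * rp z σ) ^ 2) 0 := by
  intro m hm hmh hmz _ b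
  have hm0 : (0:ℝ) < m := by exact_mod_cast hm
  have hh0 : (0:ℝ) < h := by exact_mod_cast (by omega : 0 < h)
  have hHm : (1:ℝ) ≤ (h:ℝ) / m := by
    rw [le_div_iff₀ hm0, one_mul]; exact_mod_cast hmh.le
  have h2 := roughAP z h m b n0 hm hmh.le hmz σ h0 h1
  have hrp : 0 ≤ rp z σ := by
    unfold rp
    exact Finset.prod_nonneg (fun p _ => by positivity)
  have e1 : sv ∅ 0 (fm m b (fr z n0)) h =
      ((#{j ∈ Icc 1 h | j ≡ b [MOD m] ∧ (n0 + j).Coprime (primorial z)} : ℕ) : ℝ) := by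
    unfold sv fm fr
    simp only [Finset.prod_empty, mul_one]
    rw [Finset.card_filter]
    push_cast
    apply Finset.sum_congr rfl
    intro j _
    by_cases h3 : j ≡ b [MOD m]
    · by_cases h4 : (n0 + j).Coprime (primorial z)
      · rw [if_pos h3, if_pos h4, if_pos ⟨h3, h4⟩]
      · rw [if_pos h3, if_neg h4, if_neg (fun h5 => h4 h5.2)]
    · rw [if_neg h3, if_neg (fun h5 => h3 h5.1)]
  unfold MB
  rw [Finset.prod_empty, Finset.prod_empty, one_mul, Finset.sum_range_one, e1, zero_mul, add_zero,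
    pow_mul]
  apply pow_le_pow_left₀ (sq_nonneg _)
  rw [← sq_abs]
  calc |((#{j ∈ Icc 1 h | j ≡ b [MOD m] ∧ (n0 + j).Coprime (primorial z)} : ℕ) : ℝ) -
          vee z * h / m| ^ 2
      ≤ ((z + 4) * ((h : ℝ) / m) ^ σ * rp z σ) ^ 2 :=
        pow_le_pow_left₀ (abs_nonneg _) h2 2
    _ = ((z + 4) * rp z σ) ^ 2 * ((h : ℝ) / m) ^ (2 * σ) := by
        rw [two_mul σ, Real.rpow_add (by positivity)]; ring
    _ ≤ _ := by
        apply mul_le_mul_of_nonneg_left _ (by positivity)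
        exact Real.rpow_le_rpow_of_exponent_le hHm hs

/-- The primes in `(z, T]`. -/
def prs (z T : ℕ) : Finset ℕ := (Ioc z T).filter Nat.Prime

lemma mem_prs {z T p : ℕ} : p ∈ prs z T ↔ (z < p ∧ p ≤ T) ∧ p.Prime := by
  unfold prs; rw [mem_filter, mem_Ioc]

/-- The moments of the normalised number of rough numbers, for a fixed class modulo
`primorial z`. -/
theorem moment_bound (z z1 T n0 k h : ℕ) (hk : 1 ≤ k) (hh : 2 ≤ h) (hz1 : z ≤ z1) (hT : z1 ≤ T)
    (σ s s1 : ℝ) (h0 : 0 < σ) (h1 : σ < 1) (hs : 2 * σ ≤ s) (hs1 : 0 ≤ s1)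
    (Γ : ℝ) (hΓ : gq (prs z T) ^ 2 ≤ Γ) :
    MB (prs z T) k h (fr z n0) (vee z * h)
      ((∏ q ∈ prs z z1, cf k s q) * (((z + 4) * rp z σ) ^ 2 + z1 * (40 * k * Γ)) *
          (∏ q ∈ prs z1 T, cf k s q) * (h : ℝ) ^ s +
        (∏ q ∈ prs z1 T, cf k s1 q) * (T * (40 * k * Γ)) * (h : ℝ) ^ s1) := by
  have hz1' := vee_pos z
  have hΓ0 : 0 ≤ Γ := le_trans (sq_nonneg _) hΓ
  have hs0 : 0 ≤ s := by linarith
  have hf : ∀ j, 0 ≤ fr z n0 j ∧ fr z n0 j ≤ 1 := by
    intro j; unfold fr; split_ifs <;> norm_num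
  have hv0 : 0 ≤ vee z * h := by positivity
  have hv1 : vee z * h ≤ h := by
    have := vee_le_one z
    have : (0:ℝ) ≤ h := Nat.cast_nonneg h
    nlinarith
  have hprs : ∀ p ∈ prs z T, p.Prime := fun p hp => (mem_prs.mp hp).2
  have hlarge : ∀ R ⊆ prs z T, ∀ m : ℕ, h ≤ m → ∀ b,
      MB R k h (fm m b (fr z n0)) (vee z * h / m) Γ := by
    intro R hR m hm b
    have hR' : ∀ p ∈ R, p.Prime := fun p hp => hprs p (hR hp)
    have h2 := MB_large R hR' k h m b (fr z n0) hf (vee z * h) hv0 hv1 (by omega) hm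
    refine MB_mono (sq_nonneg _) ?_ h2
    have h3 := gq_mono hprs hR
    have h4 := gq_ge_one R hR'
    nlinarith
  have hsub1 : prs z z1 ⊆ prs z T := by
    intro p hp
    rw [mem_prs] at hp ⊢
    exact ⟨⟨hp.1.1, hp.1.2.trans hT⟩, hp.2⟩
  have hun : prs z z1 ∪ prs z1 T = prs z T := by
    ext p
    simp only [mem_union, mem_prs]
    constructor
    · rintro (h2 | h2)
      · exact ⟨⟨h2.1.1, h2.1.2.trans hT⟩, h2.2⟩
      · exact ⟨⟨lt_of_le_of_lt hz1 h2.1.1, h2.1.2⟩, h2.2⟩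
    · rintro h2
      rcases le_or_gt p z1 with h3 | h3
      · exact Or.inl ⟨⟨h2.1.1, h3⟩, h2.2⟩
      · exact Or.inr ⟨⟨h3, h2.1.2⟩, h2.2⟩
  -- first phase
  have b0 := inv_base z n0 k h σ s s h0 h1 hs
  have p1 := inv_union z ∅ (by simp) k hk h (fr z n0) (vee z * h) s s _ 0 Γ hs0
    (sq_nonneg ((z + 4) * rp z σ)) (le_refl _) hΓ0 (prs z z1)
    (fun p hp => ⟨(mem_prs.mp hp).2, (mem_prs.mp hp).1.1, notMem_empty p⟩)
    (by
      intro R hR
      rw [Finset.empty_union] at hR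
      exact hlarge R (hR.trans hsub1)) b0
  rw [Finset.empty_union] at p1
  set W1 := ∏ q ∈ prs z z1, cf k s q with hW1
  set W2 := ∏ q ∈ prs z1 T, cf k s q with hW2
  set W3 := ∏ q ∈ prs z1 T, cf k s1 q with hW3
  have hW1' : 1 ≤ W1 := one_le_prod_cf k s _
  have hW2' : 1 ≤ W2 := one_le_prod_cf k s _
  have hW3' : 1 ≤ W3 := one_le_prod_cf k s1 _
  set K : ℝ := ((z + 4) * rp z σ) ^ 2 with hK
  have hK0 : 0 ≤ K := sq_nonneg _
  -- merge the two terms
  have p2 : Inv z (prs z z1) k h (fr z n0) (vee z * h) s s1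
      (W1 * (K + z1 * (40 * k * Γ))) 0 := by
    intro m hm hmh hmz hmQ b
    have h2 := p1 m hm hmh hmz hmQ b
    have hm0 : (0:ℝ) < m := by exact_mod_cast hm
    have hg : (0:ℝ) ≤ 40 * k * Γ := by positivity
    have h5 : (0:ℝ) ≤ ((h:ℝ) / m) ^ s := by positivity
    refine MB_mono ?_ ?_ h2
    · positivity
    · have hcard : ((#(prs z z1) : ℕ) : ℝ) ≤ z1 := by
        have : #(prs z z1) ≤ z1 := by
          calc #(prs z z1) ≤ #(Ioc z z1) := Finset.card_filter_le _ _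
            _ ≤ z1 := by rw [Nat.card_Ioc]; omega
        exact_mod_cast this
      have h6 : K * W1 + W1 * (0 + #(prs z z1) * (40 * k * Γ)) ≤
          W1 * (K + z1 * (40 * k * Γ)) := by
        have := mul_le_mul_of_nonneg_right hcard hg
        have h7 := mul_le_mul_of_nonneg_left this (by linarith : (0:ℝ) ≤ W1)
        nlinarith
      have := mul_le_mul_of_nonneg_right h6 h5
      nlinarith
  -- second phase
  have p3 := inv_union z (prs z z1) (fun p hp => (mem_prs.mp hp).2) k hk h (fr z n0) (vee z * h)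
    s s1 _ 0 Γ hs1 (by positivity) (le_refl _) hΓ0 (prs z1 T)
    (fun p hp => ⟨(mem_prs.mp hp).2, lt_of_le_of_lt hz1 (mem_prs.mp hp).1.1, by
      rw [mem_prs]; rintro ⟨⟨_, h3⟩, _⟩; have := (mem_prs.mp hp).1.1; omega⟩)
    (by
      intro R hR
      rw [hun] at hR
      exact hlarge R hR) p2
  rw [hun] at p3
  have p4 := p3 1 le_rfl (by omega) (Nat.coprime_one_left _) (by
    intro p hp hp1
    have := Nat.le_of_dvd one_pos hp1
    have := (mem_prs.mp hp).2.two_le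
    omega) 0
  have e1 : fm 1 0 (fr z n0) = fr z n0 := by
    funext j; unfold fm; rw [if_pos (Nat.modEq_one)]
  rw [e1] at p4
  simp only [Nat.cast_one, div_one] at p4
  refine MB_mono ?_ ?_ p4
  · positivity
  · have hcard : ((#(prs z1 T) : ℕ) : ℝ) ≤ T := by
      have : #(prs z1 T) ≤ T := by
        calc #(prs z1 T) ≤ #(Ioc z1 T) := Finset.card_filter_le _ _
          _ ≤ T := by rw [Nat.card_Ioc]; omega
      exact_mod_cast this
    have hg : (0:ℝ) ≤ 40 * k * Γ := by positivity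
    have h5 : (0:ℝ) ≤ (h:ℝ) ^ s1 := by positivity
    have h6 : W3 * (0 + #(prs z1 T) * (40 * k * Γ)) ≤ W3 * (T * (40 * k * Γ)) := by
      apply mul_le_mul_of_nonneg_left _ (by linarith)
      rw [zero_add]
      exact mul_le_mul_of_nonneg_right hcard hg
    have := mul_le_mul_of_nonneg_right h6 h5
    linarith

end Pool.Agent.LibDev91
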