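import Pool.Agent.LibDev91.Prod

/-!
The choice of the parameters.
-/

namespace Pool.Agent.LibDev91

open Finset Filter Topology

lemma ev_pow (M α η : ℝ) (hη : 0 < η) :
    ∀ᶠ L : ℝ in atTop, M * (Real.log L) ^ α ≤ L ^ η := by
  have h1 : (fun L : ℝ => (Real.log L) ^ α) =o[atTop] fun L => L ^ η :=
    isLittleO_log_rpow_rpow_atTop α hη
  have h2 := h1.const_mul_left M
  have h3 := h2.bound (by norm_num : (0:ℝ) < 1)
  filter_upwards [h3, eventually_gt_atTop 0] with L hL hL0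
  rw [one_mul, Real.norm_eq_abs, Real.norm_eq_abs, abs_of_nonneg (by positivity : 0 ≤ L ^ η)] at hL
  exact le_trans (le_abs_self _) hL

lemma ev_exp (M α η : ℝ) (hα : α < 1) (hη : 0 < η) :
    ∀ᶠ L : ℝ in atTop, Real.exp (M * (Real.log L) ^ α) ≤ L ^ η := by
  have hM : 0 < η / (|M| + 1) := by positivity
  have h1 : ∀ᶠ x : ℝ in atTop, x ^ (-(1 - α)) < η / (|M| + 1) :=
    (tendsto_rpow_neg_atTop (by linarith : 0 < 1 - α)).eventually (gt_mem_nhds hM)
  have h3 := Real.tendsto_log_atTop.eventually h1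
  have h4 : ∀ᶠ L : ℝ in atTop, 0 < Real.log L :=
    Real.tendsto_log_atTop.eventually (eventually_gt_atTop 0)
  filter_upwards [h3, h4, eventually_gt_atTop 0] with L hL hl hL0
  rw [Real.rpow_def_of_pos hL0]
  apply Real.exp_le_exp.mpr
  have h5 : (Real.log L) ^ α = (Real.log L) ^ (-(1 - α)) * Real.log L := by
    rw [← Real.rpow_add_one hl.ne']; congr 1; ring
  rw [lt_div_iff₀ (by positivity)] at hL
  have h6 : M * (Real.log L) ^ (-(1 - α)) ≤ η := by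
    have h7 : 0 ≤ (Real.log L) ^ (-(1 - α)) := by positivity
    nlinarith [le_abs_self M, abs_nonneg M]
  calc M * (Real.log L) ^ α = M * (Real.log L) ^ (-(1 - α)) * Real.log L := by rw [h5]; ring
    _ ≤ η * Real.log L := by gcongr
    _ = Real.log L * η := by ring

lemma prod_cf_sub (k : ℕ) (s : ℝ) {S R : Finset ℕ} (h : S ⊆ R) :
    ∏ q ∈ S, cf k s q ≤ ∏ q ∈ R, cf k s q := by
  have h1 : (∏ q ∈ R \ S, cf k s q) * ∏ q ∈ S, cf k s q = ∏ q ∈ R, cf k s q :=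
    Finset.prod_sdiff h
  have h2 := one_le_prod_cf k s (R \ S)
  have h3 := one_le_prod_cf k s S
  rw [← h1]
  nlinarith

/-- The bound for the product over `q > z0`, `z0 ≈ (log L)^B`, `k ≤ (log L)^κ`. -/
lemma ev_prod (B κ s η : ℝ) (hB : 0 < B) (hs : 1 < s) (hs2 : s ≤ 2) (hκ : κ - B * (s - 1) < 1)
    (hη : 0 < η) :
    ∀ᶠ L : ℝ in atTop, ∀ T : ℕ,
      ∏ q ∈ prs ⌊(Real.log L) ^ B⌋₊ T, cf ⌊(Real.log L) ^ κ⌋₊ s q ≤ L ^ η := by
  have hr : 0 < s - 1 := by linarith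
  have h1 := ev_exp (80 * (2 ^ (s - 1)) / (s - 1)) (κ - B * (s - 1)) η hκ hη
  have h2 : ∀ᶠ L : ℝ in atTop, 1 ≤ Real.log L :=
    Real.tendsto_log_atTop.eventually (eventually_ge_atTop 1)
  have h3 : ∀ᶠ L : ℝ in atTop, 2 ≤ (Real.log L) ^ B :=
    ((tendsto_rpow_atTop hB).comp Real.tendsto_log_atTop).eventually (eventually_ge_atTop 2)
  filter_upwards [h1, h2, h3] with L h1 h2 h3 T
  have hl : 0 < Real.log L := by linarith
  have hz1 : 1 ≤ ⌊(Real.log L) ^ B⌋₊ := Nat.le_floor (by push_cast; linarith)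
  refine le_trans (prod_cf_le _ _ T hz1 s hs hs2) (le_trans (Real.exp_le_exp.mpr ?_) h1)
  have hk : ((⌊(Real.log L) ^ κ⌋₊ : ℕ) : ℝ) ≤ (Real.log L) ^ κ := Nat.floor_le (by positivity)
  have hz : (Real.log L) ^ B / 2 ≤ ((⌊(Real.log L) ^ B⌋₊ : ℕ) : ℝ) := by
    have := Nat.lt_floor_add_one ((Real.log L) ^ B)
    linarith
  have hzz : ((⌊(Real.log L) ^ B⌋₊ : ℕ) : ℝ) ^ (1 - s) ≤
      2 ^ (s - 1) * (Real.log L) ^ (-(B * (s - 1))) := by
    calc ((⌊(Real.log L) ^ B⌋₊ : ℕ) : ℝ) ^ (1 - s) ≤ ((Real.log L) ^ B / 2) ^ (1 - s) :=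
          Real.rpow_le_rpow_of_nonpos (by positivity) hz (by linarith)
      _ = 2 ^ (s - 1) * (Real.log L) ^ (-(B * (s - 1))) := by
          rw [Real.div_rpow (by positivity) (by norm_num), ← Real.rpow_mul hl.le,
            div_eq_mul_inv, ← Real.rpow_neg (by norm_num), mul_comm]
          congr 1
          · congr 1; ring
          · congr 1; ring
  calc 80 * ((⌊(Real.log L) ^ κ⌋₊ : ℕ) : ℝ) *
        (((⌊(Real.log L) ^ B⌋₊ : ℕ) : ℝ) ^ (1 - s) / (s - 1))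
      ≤ 80 * (Real.log L) ^ κ * ((2 ^ (s - 1) * (Real.log L) ^ (-(B * (s - 1)))) / (s - 1)) := by
        gcongr
    _ = 80 * 2 ^ (s - 1) / (s - 1) * (Real.log L) ^ (κ - B * (s - 1)) := by
        rw [sub_eq_add_neg κ, Real.rpow_add hl]
        ring

/-- The parameters. -/
lemma exists_params (a E : ℝ) (ha : 0 < a) (ha2 : a < 1 / 2) (hE : E < 1 / a) :
    ∃ δ κ : ℝ, 0 < δ ∧ a + δ < 1 / 2 ∧ 0 < κ ∧ E < κ + 1 ∧ κ < (1 - a) / (a + 2 * δ) := by
  -- enlarge `E`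
  have hE1 : (3:ℝ) / 2 < 1 / a := by
    rw [lt_div_iff₀ ha]; linarith
  set E' := max E (3 / 2) with hE'
  have h1 : E' < 1 / a := max_lt hE hE1
  have h2 : E' * a < 1 := by
    rwa [lt_div_iff₀ ha] at h1
  have h3 : 3 / 2 ≤ E' := le_max_right _ _
  have h4 : 0 < (1 - E' * a) / (4 * E') := by
    apply div_pos <;> linarith
  set δ := min ((1 - E' * a) / (4 * E')) ((1 / 2 - a) / 2) with hδ
  have hδ0 : 0 < δ := lt_min h4 (by linarith)
  have hδ1 : δ ≤ (1 - E' * a) / (4 * E') := min_le_left _ _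
  have hδ2 : δ ≤ (1 / 2 - a) / 2 := min_le_right _ _
  have h5 : 4 * E' * δ ≤ 1 - E' * a := by
    rw [le_div_iff₀ (by linarith)] at hδ1
    linarith
  have h6 : E' - 1 < (1 - a) / (a + 2 * δ) := by
    rw [lt_div_iff₀ (by linarith)]
    nlinarith
  refine ⟨δ, (E' - 1 + (1 - a) / (a + 2 * δ)) / 2, hδ0, by linarith, by linarith, ?_, by linarith⟩
  have : E ≤ E' := le_max_left _ _
  linarith

lemma x_bound_aux (L η lam s s1 θ P1 P2 P3 K Z T' H1 H2 : ℝ) (hL : 0 < L)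
    (hη : L ^ η ≤ L ^ (2 * η)) (_ : 0 ≤ P1) (p2 : 0 ≤ P2) (k0 : 0 ≤ K)
    (z0 : 0 ≤ Z) (t0 : 0 ≤ T') (h10 : 0 ≤ H1) (h20 : 0 ≤ H2) (q1 : P1 ≤ L ^ η) (q2 : P2 ≤ L ^ η)
    (q3 : P3 ≤ L ^ η) (qK : K ≤ L ^ η) (qZ : Z ≤ L ^ (2 * η)) (qT : T' ≤ L ^ (θ + 2 * η))
    (qH1 : H1 ≤ L ^ (η + lam * s)) (qH2 : H2 ≤ L ^ (η + lam * s1)) :
    P1 * (K + Z) * P2 * H1 + P3 * T' * H2 ≤
      2 * L ^ (5 * η + lam * s) + L ^ (θ + 4 * η + lam * s1) := by
  have h1 : P1 * (K + Z) * P2 * H1 ≤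
      L ^ η * (L ^ (2 * η) + L ^ (2 * η)) * L ^ η * L ^ (η + lam * s) := by
    have h2 : K + Z ≤ L ^ (2 * η) + L ^ (2 * η) := add_le_add (qK.trans hη) qZ
    gcongr
  have h6 : L ^ η * (L ^ (2 * η) + L ^ (2 * η)) * L ^ η * L ^ (η + lam * s) =
      2 * L ^ (5 * η + lam * s) := by
    have : L ^ (5 * η + lam * s) = L ^ η * L ^ (2 * η) * L ^ η * L ^ (η + lam * s) := by
      rw [← Real.rpow_add hL, ← Real.rpow_add hL, ← Real.rpow_add hL]; congr 1; ring
    rw [this]; ring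
  have h7 : P3 * T' * H2 ≤ L ^ η * L ^ (θ + 2 * η) * L ^ (η + lam * s1) := by
    gcongr
  have h9 : L ^ η * L ^ (θ + 2 * η) * L ^ (η + lam * s1) = L ^ (θ + 4 * η + lam * s1) := by
    rw [← Real.rpow_add hL, ← Real.rpow_add hL]; congr 1; ring
  linarith only [h1, h6, h7, h9]

lemma ratio_aux (L η w e1 e2 x V : ℝ) (hL1 : 1 ≤ L)
    (hx : x ≤ 2 * L ^ e1 + L ^ e2) (hV : L ^ (-η) ≤ V)
    (h1 : e1 - (2 * w - 2 * η) ≤ -(2 * η)) (h2 : e2 - (2 * w - 2 * η) ≤ -(2 * η))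
    (h3 : 3 ≤ L ^ η) : x / (V * L ^ w) ^ 2 ≤ L ^ (-η) := by
  have hL0 : 0 < L := by linarith
  have hden : L ^ (2 * w - 2 * η) ≤ (V * L ^ w) ^ 2 := by
    calc L ^ (2 * w - 2 * η) = (L ^ (-η) * L ^ w) ^ 2 := by
          rw [← Real.rpow_add hL0, ← Real.rpow_natCast, ← Real.rpow_mul hL0.le]
          congr 1; push_cast; ring
      _ ≤ _ := by
          apply pow_le_pow_left₀ (by positivity)
          gcongr
  have hd0 : 0 < L ^ (2 * w - 2 * η) := by positivity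
  calc x / (V * L ^ w) ^ 2
      ≤ (2 * L ^ e1 + L ^ e2) / (V * L ^ w) ^ 2 :=
        div_le_div_of_nonneg_right hx (sq_nonneg _)
    _ ≤ (2 * L ^ e1 + L ^ e2) / L ^ (2 * w - 2 * η) :=
        div_le_div_of_nonneg_left (by positivity) hd0 hden
    _ = 2 * L ^ (e1 - (2 * w - 2 * η)) + L ^ (e2 - (2 * w - 2 * η)) := by
        rw [Real.rpow_sub hL0 e1, Real.rpow_sub hL0 e2]
        ring
    _ ≤ 2 * L ^ (-(2 * η)) + L ^ (-(2 * η)) := by
        have h3 := Real.rpow_le_rpow_of_exponent_le hL1 h1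
        have h4 := Real.rpow_le_rpow_of_exponent_le hL1 h2
        linarith only [h3, h4]
    _ = 3 * L ^ (-(2 * η)) := by ring
    _ ≤ L ^ η * L ^ (-(2 * η)) := mul_le_mul_of_nonneg_right h3 (by positivity)
    _ = L ^ (-η) := by rw [← Real.rpow_add hL0]; congr 1; ring

lemma final_aux (L η κ E r : ℝ) (k : ℕ) (hL0 : 0 < L) (hl0 : 0 < Real.log L) (hη : 0 < η)
    (hr0 : 0 ≤ r) (hr : r ≤ L ^ (-η)) (hk : (Real.log L) ^ κ / 2 ≤ k)
    (h12 : 2 / η ≤ (Real.log L) ^ (κ + 1 - E)) : r ^ k ≤ Real.exp (-(Real.log L) ^ E) := by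
  calc r ^ k ≤ (L ^ (-η)) ^ k := pow_le_pow_left₀ hr0 hr k
    _ = Real.exp (-(η * Real.log L * k)) := by
        rw [← Real.rpow_natCast, ← Real.rpow_mul hL0.le, Real.rpow_def_of_pos hL0]
        congr 1; ring
    _ ≤ Real.exp (-(Real.log L) ^ E) := by
        apply Real.exp_le_exp.mpr
        rw [neg_le_neg_iff]
        have h1 : (Real.log L) ^ E * (2 / η) ≤ (Real.log L) ^ (κ + 1) := by
          calc (Real.log L) ^ E * (2 / η) ≤ (Real.log L) ^ E * (Real.log L) ^ (κ + 1 - E) := by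
                gcongr
            _ = _ := by rw [← Real.rpow_add hl0]; congr 1; ring
        have h2 : (Real.log L) ^ (κ + 1) = (Real.log L) ^ κ * Real.log L := by
          rw [Real.rpow_add hl0, Real.rpow_one]
        have h3 : (Real.log L) ^ E ≤ (Real.log L) ^ (κ + 1) * (η / 2) := by
          have h4 : (Real.log L) ^ E * (2 / η) * (η / 2) = (Real.log L) ^ E := by
            field_simp
          rw [← h4]
          exact mul_le_mul_of_nonneg_right h1 (by positivity)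
        calc (Real.log L) ^ E ≤ (Real.log L) ^ (κ + 1) * (η / 2) := h3
          _ = η * Real.log L * ((Real.log L) ^ κ / 2) := by rw [h2]; ring
          _ ≤ η * Real.log L * k := by gcongr

lemma rp_aux (L η B σ : ℝ) (z : ℕ) (hL0 : 0 < L) (hl1 : 1 ≤ Real.log L) (hB : 0 < B)
    (hσ0 : 0 < σ) (hσ1 : σ < 1) (hz : (z : ℝ) ≤ (Real.log L) ^ B)
    (e3 : Real.exp (1 / (1 - σ) * (Real.log L) ^ (B * (1 - σ))) ≤ L ^ (η / 4))
    (e4 : 5 * (Real.log L) ^ B ≤ L ^ (η / 4)) : ((z + 4) * rp z σ) ^ 2 ≤ L ^ η := by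
  have hl0 : 0 < Real.log L := by linarith
  have h1 : rp z σ ≤ L ^ (η / 4) := by
    refine le_trans (rp_le z σ hσ0 hσ1) (le_trans (Real.exp_le_exp.mpr ?_) e3)
    rw [div_eq_inv_mul, ← one_div]
    apply mul_le_mul_of_nonneg_left _ (by
      have : 0 < 1 - σ := by linarith
      positivity)
    rw [Real.rpow_mul hl0.le]
    apply Real.rpow_le_rpow (Nat.cast_nonneg _) hz (by linarith)
  have h2 : (z : ℝ) + 4 ≤ L ^ (η / 4) := by
    refine le_trans ?_ e4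
    have : 1 ≤ (Real.log L) ^ B := Real.one_le_rpow hl1 hB.le
    linarith
  have h3 : 0 ≤ rp z σ := by
    unfold rp
    exact Finset.prod_nonneg (fun p _ => by positivity)
  calc ((z + 4) * rp z σ) ^ 2 ≤ (L ^ (η / 4) * L ^ (η / 4)) ^ 2 := by
        apply pow_le_pow_left₀ (by positivity)
        exact mul_le_mul h2 h1 h3 (by positivity)
    _ = L ^ η := by
        rw [← Real.rpow_add hL0, ← Real.rpow_natCast, ← Real.rpow_mul hL0.le]
        congr 1; push_cast; ring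

lemma gq_aux (L η θ C1 : ℝ) (z T : ℕ) (hzT : z ≤ T) (hL1 : 1 ≤ L) (hl1 : 1 ≤ Real.log L)
    (hθ : 0 ≤ θ) (hC1 : 1 ≤ C1) (hvee : (vee T)⁻¹ ≤ C1 * (1 + Real.log (T + 1)))
    (hT : (T : ℝ) ≤ L ^ θ)
    (e5 : C1 * (2 + Real.log 2 + θ) * (Real.log L) ^ (1:ℝ) ≤ L ^ (η / 2)) :
    gq (prs z T) ^ 2 ≤ L ^ η := by
  have hL0 : 0 < L := by linarith
  have hvT := vee_pos T
  have hg := gq_ge_one (prs z T) (fun p hp => (mem_prs.mp hp).2)
  have h1 : gq (prs z T) ≤ L ^ (η / 2) := by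
    have h2 := vee_split z T hzT
    have h3 : gq (prs z T) ≤ (vee T)⁻¹ := by
      rw [le_inv_comm₀ (lt_of_lt_of_le one_pos hg) hvT]
      rw [← one_div, le_div_iff₀ (lt_of_lt_of_le one_pos hg), h2]
      exact vee_le_one z
    refine le_trans h3 (le_trans hvee (le_trans ?_ e5))
    rw [Real.rpow_one, mul_assoc]
    apply mul_le_mul_of_nonneg_left _ (by linarith)
    have h4 : Real.log ((T:ℝ) + 1) ≤ Real.log 2 + θ * Real.log L := by
      have h5 : (T:ℝ) + 1 ≤ 2 * L ^ θ := by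
        have : 1 ≤ L ^ θ := Real.one_le_rpow hL1 hθ
        linarith
      calc Real.log ((T:ℝ) + 1) ≤ Real.log (2 * L ^ θ) :=
            Real.log_le_log (by positivity) h5
        _ = Real.log 2 + θ * Real.log L := by
            rw [Real.log_mul (by norm_num) (by positivity), Real.log_rpow hL0]
    have h6 : 0 ≤ Real.log 2 := Real.log_nonneg (by norm_num)
    have h7 : Real.log 2 ≤ Real.log 2 * Real.log L := le_mul_of_one_le_right h6 hl1
    linarith only [h4, h7, hl1]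
  calc gq (prs z T) ^ 2 ≤ (L ^ (η / 2)) ^ 2 := by
        apply pow_le_pow_left₀ _ h1
        exact le_trans zero_le_one hg
    _ = L ^ η := by
        rw [← Real.rpow_natCast, ← Real.rpow_mul hL0.le]
        congr 1; push_cast; ring

lemma hpow_aux (L η lam s C Cs : ℝ) (h : ℕ) (hL0 : 0 < L) (hC : 0 < C)
    (hs : 0 ≤ s) (hh : (h : ℝ) ≤ C * L ^ lam) (hC2 : C ^ s ≤ Cs) (e7 : Cs ≤ L ^ η) :
    (h:ℝ) ^ s ≤ L ^ (η + lam * s) := by
  calc (h:ℝ) ^ s ≤ (C * L ^ lam) ^ s := Real.rpow_le_rpow (Nat.cast_nonneg _) hh hs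
    _ = C ^ s * L ^ (lam * s) := by
        rw [Real.mul_rpow hC.le (by positivity), ← Real.rpow_mul hL0.le]
    _ ≤ L ^ η * L ^ (lam * s) := by
        apply mul_le_mul_of_nonneg_right _ (by positivity)
        exact hC2.trans e7
    _ = _ := by rw [← Real.rpow_add hL0]

lemma small_h_aux (L w θ : ℝ) (T h n : ℕ) (hL1 : 1 ≤ L) (hθ : 0 ≤ θ) (hT : (T : ℝ) ≤ L ^ θ)
    (hh : h < 2) (e13 : 3 ≤ L ^ (w - θ)) :
    |(rough T h n : ℝ) - vee T * h| < vee T * L ^ w := by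
  have hL0 : 0 < L := by linarith
  have hvT := vee_pos T
  have h1 : |(rough T h n : ℝ) - vee T * h| ≤ 1 := by
    have h2 : rough T h n ≤ h := by
      unfold rough
      calc _ ≤ #(Icc 1 h) := Finset.card_filter_le _ _
        _ = h := by simp
    have h3 : (rough T h n : ℝ) ≤ h := by exact_mod_cast h2
    have h4 : (h:ℝ) ≤ 1 := by exact_mod_cast (by omega : h ≤ 1)
    have h5 : (0:ℝ) ≤ rough T h n := Nat.cast_nonneg _
    have h6 : (0:ℝ) ≤ h := Nat.cast_nonneg _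
    have h7 := vee_le_one T
    have h8 : vee T * h ≤ 1 * h := mul_le_mul_of_nonneg_right h7 h6
    have h9 : 0 ≤ vee T * h := mul_nonneg hvT.le h6
    rw [abs_le]; constructor
    · linarith only [h8, h4, h5]
    · linarith only [h9, h3, h4]
  have h2 : 1 < vee T * L ^ w := by
    have h3 := vee_ge T
    have h4 : (T:ℝ) + 1 ≤ 2 * L ^ θ := by
      have : 1 ≤ L ^ θ := Real.one_le_rpow hL1 hθ
      linarith
    have h5 : L ^ w = L ^ θ * L ^ (w - θ) := by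
      rw [← Real.rpow_add hL0]; congr 1; ring
    have hT1 : (0:ℝ) < (T:ℝ) + 1 := by positivity
    have hLθ : 0 < L ^ θ := by positivity
    have h6 : 1 / (2 * L ^ θ) ≤ vee T :=
      le_trans (one_div_le_one_div_of_le hT1 h4) h3
    rw [h5]
    calc (1:ℝ) < 1 / (2 * L ^ θ) * (L ^ θ * 3) := by field_simp; norm_num
      _ ≤ vee T * (L ^ θ * L ^ (w - θ)) := by gcongr
  linarith

/-- All but very few residues modulo `primorial T` have the right number of rough numbers in the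
window. -/
theorem rough_dev (lam t θ E C : ℝ) (hlam : 1 < lam) (ht : 0 < t) (hθ : 0 ≤ θ)
    (hθ2 : θ < lam - 2 * (lam - 1) * t) (hE : E < lam / ((lam - 1) * t)) (hC : 0 < C) :
    ∀ᶠ L : ℝ in atTop, ∀ h T : ℕ, (h : ℝ) ≤ C * L ^ lam → (T : ℝ) ≤ L ^ θ →
      ((#{n ∈ range (primorial T) | vee T * L ^ (lam - (lam - 1) * t) ≤
        |(rough T h n : ℝ) - vee T * h|} : ℕ) : ℝ) ≤
        primorial T * Real.exp (-(Real.log L) ^ E) := by
  have hlam0 : 0 < lam := by linarith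
  have hlt : 0 < (lam - 1) * t := mul_pos (by linarith) ht
  set a : ℝ := (lam - 1) * t / lam with ha
  have ha0 : 0 < a := div_pos hlt hlam0
  have hla : lam * a = (lam - 1) * t := by rw [ha]; field_simp
  have ha2 : a < 1 / 2 := by
    rw [ha, div_lt_iff₀ hlam0]; linarith
  have hEa : E < 1 / a := by rw [ha, one_div_div]; exact hE
  obtain ⟨δ, κ, hδ, haδ, hκ, hEκ, hκ2⟩ := exists_params a E ha0 ha2 hEa
  set γ : ℝ := lam - 2 * (lam - 1) * t - θ with hγ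
  have hγ0 : 0 < γ := by linarith
  set σ : ℝ := 1 - a - δ with hσ
  set s : ℝ := 2 * σ with hs
  set ε1 : ℝ := min (γ / (2 * lam)) 1 with hε1
  have hε10 : 0 < ε1 := lt_min (by positivity) one_pos
  have hε11 : ε1 ≤ 1 := min_le_right _ _
  have hε12 : lam * ε1 ≤ γ / 2 := by
    have : ε1 ≤ γ / (2 * lam) := min_le_left _ _
    calc lam * ε1 ≤ lam * (γ / (2 * lam)) := by gcongr
      _ = γ / 2 := by field_simp
  set s1 : ℝ := 1 + ε1 with hs1
  set B1 : ℝ := 1 / (a + 2 * δ) with hB1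
  have hB10 : 0 < B1 := by positivity
  set B2 : ℝ := max B1 (κ / ε1) with hB2
  have hB20 : 0 < B2 := lt_of_lt_of_le hB10 (le_max_left _ _)
  set η : ℝ := min (lam * δ / 9) (γ / 40) with hη
  have hη0 : 0 < η := lt_min (by positivity) (by positivity)
  have hη1 : 9 * η ≤ lam * δ := by
    have : η ≤ lam * δ / 9 := min_le_left _ _
    linarith
  have hη2 : 40 * η ≤ γ := by
    have : η ≤ γ / 40 := min_le_right _ _
    linarith
  have hσ0 : 0 < σ := by linarith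
  have hσ1 : σ < 1 := by linarith
  have hs_1 : 1 < s := by linarith
  have hs_2 : s ≤ 2 := by linarith
  -- exponents
  have hα1 : κ - B1 * (s - 1) < 1 := by
    have h1 : B1 * (s - 1) = (1 - 2 * a - 2 * δ) / (a + 2 * δ) := by
      rw [hB1, hs, hσ]; ring
    have h2 : (1 - a) / (a + 2 * δ) - (1 - 2 * a - 2 * δ) / (a + 2 * δ) = 1 := by
      field_simp; ring
    rw [h1]; linarith
  have hα3 : κ - B2 * (s1 - 1) < 1 := by
    have h1 : κ / ε1 ≤ B2 := le_max_right _ _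
    have h2 : κ ≤ B2 * ε1 := by rwa [div_le_iff₀ hε10] at h1
    have h3 : s1 - 1 = ε1 := by rw [hs1]; ring
    rw [h3]; linarith
  have hα2 : B1 * (1 - σ) < 1 := by
    rw [hB1, hσ, one_div, inv_mul_lt_iff₀ (by linarith)]
    linarith
  obtain ⟨C1, hC1, hvee⟩ := vee_inv_le
  -- the eventual inequalities
  have e1 := ev_prod B1 κ s η hB10 hs_1 hs_2 hα1 hη0
  have e2 := ev_prod B2 κ s1 η hB20 (by linarith) (by linarith) hα3 hη0
  have e3 := ev_exp (1 / (1 - σ)) (B1 * (1 - σ)) (η / 4) hα2 (by positivity)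
  have e4 := ev_pow 5 B1 (η / 4) (by positivity)
  have e5 := ev_pow (C1 * (2 + Real.log 2 + θ)) 1 (η / 2) (by positivity)
  have e6 := ev_pow 40 (B2 + κ) η hη0
  have e7 := ev_pow (C ^ s + C ^ s1 + 4) 0 η hη0
  have e8 := ev_pow 2 B1 η hη0
  have e9 := ev_pow 4 0 η hη0
  have e10 : ∀ᶠ L : ℝ in atTop, 1 ≤ Real.log L :=
    Real.tendsto_log_atTop.eventually (eventually_ge_atTop 1)
  have e11 : ∀ᶠ L : ℝ in atTop, 2 ≤ (Real.log L) ^ κ :=
    ((tendsto_rpow_atTop hκ).comp Real.tendsto_log_atTop).eventually (eventually_ge_atTop 2)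
  have e12 : ∀ᶠ L : ℝ in atTop, 2 / η ≤ (Real.log L) ^ (κ + 1 - E) :=
    ((tendsto_rpow_atTop (by linarith)).comp Real.tendsto_log_atTop).eventually
      (eventually_ge_atTop _)
  have e13 : ∀ᶠ L : ℝ in atTop, 3 ≤ L ^ (lam - (lam - 1) * t - θ) :=
    (tendsto_rpow_atTop (by linarith)).eventually (eventually_ge_atTop 3)
  filter_upwards [e1, e2, e3, e4, e5, e6, e7, e8, e9, e10, e11, e12, e13, eventually_ge_atTop 1]
    with L e1 e2 e3 e4 e5 e6 e7 e8 e9 e10 e11 e12 e13 hL1 h T hh hT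
  have hL0 : 0 < L := by linarith
  have hl0 : 0 < Real.log L := by linarith
  have hvT := vee_pos T
  -- trivial case `h ≤ 1`
  rcases Nat.lt_or_ge h 2 with hh2 | hh2
  · have hempty : (range (primorial T)).filter (fun n => vee T * L ^ (lam - (lam - 1) * t) ≤
        |(rough T h n : ℝ) - vee T * h|) = ∅ := by
      apply Finset.filter_eq_empty_iff.mpr
      intro n _
      rw [not_le]
      exact small_h_aux L _ θ T h n hL1 hθ hT hh2 e13
    rw [hempty, Finset.card_empty]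
    have := primorial_pos' T
    push_cast
    positivity
  -- main case
  obtain ⟨z0, hz0⟩ : ∃ z0 : ℕ, z0 = ⌊(Real.log L) ^ B1⌋₊ := ⟨_, rfl⟩
  obtain ⟨z10, hz10⟩ : ∃ z10 : ℕ, z10 = ⌊(Real.log L) ^ B2⌋₊ := ⟨_, rfl⟩
  obtain ⟨k, hk⟩ : ∃ k : ℕ, k = ⌊(Real.log L) ^ κ⌋₊ := ⟨_, rfl⟩
  rw [← hz0, ← hk] at e1
  rw [← hz10, ← hk] at e2
  have hz0_le : (z0 : ℝ) ≤ (Real.log L) ^ B1 := by rw [hz0]; exact Nat.floor_le (by positivity)
  have hz10_le : (z10 : ℝ) ≤ (Real.log L) ^ B2 := by rw [hz10]; exact Nat.floor_le (by positivity)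
  have hk_le : (k : ℝ) ≤ (Real.log L) ^ κ := by rw [hk]; exact Nat.floor_le (by positivity)
  have hk_ge : (Real.log L) ^ κ / 2 ≤ k := by
    have := Nat.lt_floor_add_one ((Real.log L) ^ κ)
    rw [← hk] at this
    linarith only [this, e11]
  have hk1 : 1 ≤ k := by rw [hk]; exact Nat.le_floor (by push_cast; linarith only [e11])
  have hz010 : z0 ≤ z10 := by
    rw [hz0, hz10]
    apply Nat.floor_le_floor
    exact Real.rpow_le_rpow_of_exponent_le e10 (le_max_left _ _)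
  obtain ⟨z, hz⟩ : ∃ z : ℕ, z = min z0 T := ⟨_, rfl⟩
  obtain ⟨z1, hz1⟩ : ∃ z1 : ℕ, z1 = min z10 T := ⟨_, rfl⟩
  have hzz1 : z ≤ z1 := by omega
  have hz1T : z1 ≤ T := by omega
  have hzT : z ≤ T := by omega
  have hz_le : (z : ℝ) ≤ (Real.log L) ^ B1 := by
    have : (z : ℝ) ≤ z0 := by exact_mod_cast (by omega : z ≤ z0)
    linarith only [this, hz0_le]
  have hz1_le : (z1 : ℝ) ≤ (Real.log L) ^ B2 := by
    have : (z1 : ℝ) ≤ z10 := by exact_mod_cast (by omega : z1 ≤ z10)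
    linarith only [this, hz10_le]
  have hMB := fun n0 => moment_bound z z1 T n0 k h hk1 hh2 hzz1 hz1T σ s s1 hσ0 hσ1 le_rfl
    (by linarith only [hs1, hε10]) (gq (prs z T) ^ 2) le_rfl
  have hP1 := one_le_prod_cf k s (prs z z1)
  have hP2 := one_le_prod_cf k s (prs z1 T)
  have hP3 := one_le_prod_cf k s1 (prs z1 T)
  have b1 : ∏ q ∈ prs z z1, cf k s q ≤ L ^ η := by
    refine le_trans (prod_cf_sub k s ?_) (e1 z1)
    intro p hp
    rw [mem_prs] at hp ⊢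
    refine ⟨⟨?_, hp.1.2⟩, hp.2⟩
    have := hp.1.1; have := hp.1.2; omega
  have b2 : ∏ q ∈ prs z1 T, cf k s q ≤ L ^ η := by
    refine le_trans (prod_cf_sub k s ?_) (e1 T)
    intro p hp
    rw [mem_prs] at hp ⊢
    refine ⟨⟨?_, hp.1.2⟩, hp.2⟩
    have := hp.1.1; have := hp.1.2; omega
  have b3 : ∏ q ∈ prs z1 T, cf k s1 q ≤ L ^ η := by
    refine le_trans (prod_cf_sub k s1 ?_) (e2 T)
    intro p hp
    rw [mem_prs] at hp ⊢
    refine ⟨⟨?_, hp.1.2⟩, hp.2⟩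
    have := hp.1.1; have := hp.1.2; omega
  have b4 : ((z + 4) * rp z σ) ^ 2 ≤ L ^ η :=
    rp_aux L η B1 σ z hL0 e10 hB10 hσ0 hσ1 hz_le e3 e4
  have b5 : gq (prs z T) ^ 2 ≤ L ^ η :=
    gq_aux L η θ C1 z T hzT hL1 e10 hθ hC1 (hvee T) hT e5
  have hη2 : 40 * η ≤ γ := hη2
  have b6 : (z1 : ℝ) * (40 * k * gq (prs z T) ^ 2) ≤ L ^ (2 * η) := by
    calc (z1 : ℝ) * (40 * k * gq (prs z T) ^ 2)
        ≤ (Real.log L) ^ B2 * (40 * (Real.log L) ^ κ * L ^ η) := by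
          gcongr
      _ = (40 * (Real.log L) ^ (B2 + κ)) * L ^ η := by
          rw [Real.rpow_add hl0]; ring
      _ ≤ L ^ η * L ^ η := by gcongr
      _ = L ^ (2 * η) := by rw [← Real.rpow_add hL0]; congr 1; ring
  have b7 : (T : ℝ) * (40 * k * gq (prs z T) ^ 2) ≤ L ^ (θ + 2 * η) := by
    calc (T : ℝ) * (40 * k * gq (prs z T) ^ 2)
        ≤ L ^ θ * (40 * (Real.log L) ^ (B2 + κ) * L ^ η) := by
          have h1 : (Real.log L) ^ κ ≤ (Real.log L) ^ (B2 + κ) :=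
            Real.rpow_le_rpow_of_exponent_le e10 (by linarith only [hB20])
          have h2 : (k:ℝ) ≤ (Real.log L) ^ (B2 + κ) := le_trans hk_le h1
          gcongr
      _ ≤ L ^ θ * (L ^ η * L ^ η) := by gcongr
      _ = L ^ (θ + 2 * η) := by
          rw [← Real.rpow_add hL0, ← Real.rpow_add hL0]; congr 1; ring
  rw [Real.rpow_zero, mul_one] at e7 e9
  have hCs : 0 < C ^ s := by positivity
  have hCs1 : 0 < C ^ s1 := by positivity
  have b8 : (h:ℝ) ^ s ≤ L ^ (η + lam * s) :=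
    hpow_aux L η lam s C _ h hL0 hC (by linarith only [hs_1]) hh
      (by linarith only [hCs1]) e7
  have b9 : (h:ℝ) ^ s1 ≤ L ^ (η + lam * s1) :=
    hpow_aux L η lam s1 C _ h hL0 hC (by linarith only [hs1, hε10]) hh
      (by linarith only [hCs]) e7
  have hη_le : L ^ η ≤ L ^ (2 * η) :=
    Real.rpow_le_rpow_of_exponent_le hL1 (by linarith only [hη0])
  have bx := x_bound_aux L η lam s s1 θ (∏ q ∈ prs z z1, cf k s q) (∏ q ∈ prs z1 T, cf k s q)
    (∏ q ∈ prs z1 T, cf k s1 q) (((z + 4) * rp z σ) ^ 2) (z1 * (40 * k * gq (prs z T) ^ 2))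
    (T * (40 * k * gq (prs z T) ^ 2)) ((h:ℝ) ^ s) ((h:ℝ) ^ s1) hL0 hη_le
    (by linarith only [hP1]) (by linarith only [hP2]) (sq_nonneg _) (by positivity)
    (by positivity) (by positivity) (by positivity) b1 b2 b3 b4 b6 b7 b8 b9
  have hvz : L ^ (-η) ≤ vee z := by
    have h1 := vee_ge z
    refine le_trans ?_ h1
    rw [Real.rpow_neg hL0.le, ← one_div]
    apply one_div_le_one_div_of_le (by positivity)
    refine le_trans ?_ e8
    have : 1 ≤ (Real.log L) ^ B1 := Real.one_le_rpow e10 hB10.le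
    linarith only [this, hz_le]
  have hx0 : 0 ≤ (∏ q ∈ prs z z1, cf k s q) *
      (((z + 4) * rp z σ) ^ 2 + z1 * (40 * k * gq (prs z T) ^ 2)) *
          (∏ q ∈ prs z1 T, cf k s q) * (h : ℝ) ^ s +
        (∏ q ∈ prs z1 T, cf k s1 q) * (T * (40 * k * gq (prs z T) ^ 2)) * (h : ℝ) ^ s1 := by
    have i1 : 0 ≤ ∏ q ∈ prs z z1, cf k s q := by linarith only [hP1]
    have i2 : 0 ≤ ∏ q ∈ prs z1 T, cf k s q := by linarith only [hP2]
    have i3 : 0 ≤ ∏ q ∈ prs z1 T, cf k s1 q := by linarith only [hP3]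
    positivity
  have hW0 : 0 < L ^ (lam - (lam - 1) * t) := by positivity
  have hcount := count_bound z T k h hzT _ (L ^ (lam - (lam - 1) * t)) hW0 hMB
  refine le_trans hcount ?_
  apply mul_le_mul_of_nonneg_left _ (Nat.cast_nonneg _)
  have i1 : 5 * η + lam * s - (2 * (lam - (lam - 1) * t) - 2 * η) ≤ -(2 * η) := by
    have : lam * s = 2 * lam - 2 * ((lam - 1) * t) - 2 * (lam * δ) := by
      rw [hs, hσ, ← hla]; ring
    rw [this]
    linarith only [hη1, mul_pos hlam0 hδ]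
  have i2 : θ + 4 * η + lam * s1 - (2 * (lam - (lam - 1) * t) - 2 * η) ≤ -(2 * η) := by
    have : lam * s1 = lam + lam * ε1 := by rw [hs1]; ring
    rw [this]
    linarith only [hε12, hη2, hγ, hγ0, hη0]
  have hratio := ratio_aux L η (lam - (lam - 1) * t) _ _ _ (vee z) hL1 bx hvz i1 i2
    (by linarith only [e9])
  have hratio0 : 0 ≤ ((∏ q ∈ prs z z1, cf k s q) *
      (((z + 4) * rp z σ) ^ 2 + z1 * (40 * k * gq (prs z T) ^ 2)) *
          (∏ q ∈ prs z1 T, cf k s q) * (h : ℝ) ^ s +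
        (∏ q ∈ prs z1 T, cf k s1 q) * (T * (40 * k * gq (prs z T) ^ 2)) * (h : ℝ) ^ s1) /
      (vee z * L ^ (lam - (lam - 1) * t)) ^ 2 := div_nonneg hx0 (sq_nonneg _)
  exact final_aux L η κ E _ k hL0 hl0 hη0 hratio0 hratio hk_ge e12

end Pool.Agent.LibDev91
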