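import Pool.Agent.LibDev91.CountC
import Pool.Agent.LibDev91.Final

/-!
The exceptional windows of Granville's model.
-/

namespace Pool.Agent.LibDev91

open Finset Filter

/-- All but very few windows `(m, m + c (log m)^lam]` have the right mean in Granville's model. -/
theorem exc_count (lam c t θ E : ℝ) (hlam : 1 < lam) (hc : 0 < c) (ht : 0 < t) (hθ : 0 ≤ θ)
    (hθ1 : θ < 1) (hθ2 : θ < lam - 2 * (lam - 1) * t) (hE : E < lam / ((lam - 1) * t)) :
    ∀ᶠ X : ℕ in atTop,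
      ((#{m ∈ Icc 3 X | (LibH.mean lam c m) ^ (1 - t) <
        |(∑ n ∈ Ioc m (m + LibH.hl lam c m), gran θ n) - LibH.mean lam c m|} : ℕ) : ℝ) ≤
        X * Real.exp (-(Real.log (Real.log X)) ^ E) :=
  exc_count_of (fun lam t θ E C h1 h2 h3 h4 h5 h6 => rough_dev lam t θ E C h1 h2 h3 h4 h5 h6)
    lam c t θ E hlam hc ht hθ hθ1 hθ2 hE

end Pool.Agent.LibDev91
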