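import Pool.Agent.LibDev91.Defs
import Pool.Agent.LibH.Dev

/-!
The sum of Granville's densities over a window inside a dyadic block.
-/

namespace Pool.Agent.LibDev91

open Finset Filter Topology

lemma vee_posA (z : ℕ) : 0 < vee z := by
  unfold vee
  apply Finset.prod_pos
  intro q hq
  have hq2 := (Finset.mem_filter.mp hq).2.two_le
  have h2 : (2:ℝ) ≤ q := by exact_mod_cast hq2
  have : 1 / (q:ℝ) ≤ 1 / 2 := one_div_le_one_div_of_le (by norm_num) h2
  linarith

lemma vee_geA (z : ℕ) (hz : 1 ≤ z) : 1 / (z : ℝ) ≤ vee z := by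
  induction z, hz using Nat.le_induction with
  | base =>
    have : vee 1 = 1 := by
      unfold vee
      rw [Finset.filter_eq_empty_iff.mpr]
      · simp
      · intro q hq hp
        rw [mem_range] at hq
        have := hp.two_le
        omega
    rw [this]; norm_num
  | succ n hn ih =>
    have hn0 : (1 : ℝ) ≤ n := by exact_mod_cast hn
    have h1 : vee (n + 1) ≥ (1 - 1 / ((n + 1 : ℕ) : ℝ)) * vee n := by
      unfold vee
      rw [Finset.range_add_one (n := n + 1), Finset.filter_insert]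
      have hpos : 0 < ∏ q ∈ (range (n + 1)).filter Nat.Prime, (1 - 1 / (q : ℝ)) := vee_posA n
      split_ifs with hp
      · rw [Finset.prod_insert (by simp)]
      · have : 0 ≤ 1 / ((n + 1 : ℕ) : ℝ) := by positivity
        nlinarith
    have h2 : (0:ℝ) ≤ 1 - 1 / ((n + 1 : ℕ) : ℝ) := by
      have : 1 / ((n + 1 : ℕ) : ℝ) ≤ 1 := by
        rw [div_le_one (by positivity)]
        push_cast; linarith
      linarith
    have h3 : (1 - 1 / ((n + 1 : ℕ) : ℝ)) * (1 / (n : ℝ)) ≤
        (1 - 1 / ((n + 1 : ℕ) : ℝ)) * vee n := mul_le_mul_of_nonneg_left ih h2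
    have h4 : (1 - 1 / ((n + 1 : ℕ) : ℝ)) * (1 / (n : ℝ)) = 1 / ((n + 1 : ℕ) : ℝ) := by
      push_cast
      field_simp
      ring
    linarith

lemma inv_vee_le (z : ℕ) : 1 / vee z ≤ (z : ℝ) + 1 := by
  rcases Nat.eq_zero_or_pos z with h | h
  · subst h
    have : vee 0 = 1 := by
      unfold vee
      rw [Finset.filter_eq_empty_iff.mpr]
      · simp
      · intro q hq hp
        rw [mem_range] at hq
        have := hp.two_le
        omega
    rw [this]; norm_num
  · have h1 := vee_geA z h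
    have hz : (0:ℝ) < z := by exact_mod_cast h
    rw [div_le_iff₀ (vee_posA z)]
    have h2 : 1 ≤ (z:ℝ) * vee z := by
      have := mul_le_mul_of_nonneg_left h1 hz.le
      have e : (z:ℝ) * (1 / z) = 1 := by field_simp
      linarith
    have := vee_posA z
    nlinarith

lemma rough_mod (T h m : ℕ) : rough T h (m % primorial T) = rough T h m := by
  unfold rough
  congr 1
  apply Finset.filter_congr
  intro j _
  have h1 : (m % primorial T + j) % primorial T = (m + j) % primorial T := by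
    rw [Nat.add_mod, Nat.mod_mod, ← Nat.add_mod]
  have h2 : (m % primorial T + j).gcd (primorial T) = (m + j).gcd (primorial T) := by
    rw [Nat.gcd_comm, Nat.gcd_rec, Nat.gcd_comm (m+j), Nat.gcd_rec (primorial T) (m + j), h1]
  unfold Nat.Coprime
  rw [h2]

lemma rough_leA (T h m : ℕ) : rough T h m ≤ h := by
  unfold rough
  refine (Finset.card_filter_le _ _).trans ?_
  simp

/-- the sum of Granville's densities over a window inside a dyadic block -/
lemma gran_sum (θ : ℝ) (m h : ℕ) (hm : 3 ≤ m) (hlog : Nat.log 2 (m + h) = Nat.log 2 m) :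
    |(∑ n ∈ Ioc m (m + h), gran θ n) -
      (rough (level θ m) h m : ℝ) / (vee (level θ m) * Real.log m)| ≤
      (h : ℝ) ^ 2 * ((level θ m : ℝ) + 1) / m := by
  have hm3 : (3:ℝ) ≤ m := by exact_mod_cast hm
  have hm0 : (0:ℝ) < m := by linarith
  have hlm : 1 ≤ Real.log m := by
    have h1 : Real.exp 1 ≤ m := by
      have := Real.exp_one_lt_d9
      linarith
    have h2 := Real.log_le_log (Real.exp_pos 1) h1
    rwa [Real.log_exp] at h2
  set T := level θ m with hT
  have hv := vee_posA T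
  -- reindex
  have e1 : ∑ n ∈ Ioc m (m + h), gran θ n = ∑ j ∈ Icc 1 h, gran θ (m + j) := by
    rw [← Finset.sum_image (s := Icc 1 h) (g := fun j => m + j) (f := fun n => gran θ n)]
    · congr 1
      ext n
      simp only [mem_Ioc, mem_image, mem_Icc]
      constructor
      · intro h1
        exact ⟨n - m, by omega, by omega⟩
      · rintro ⟨j, h1, h2⟩
        omega
    · intro a _ b _ hab
      simpa using hab
  have hlev : ∀ j ∈ Icc 1 h, level θ (m + j) = T := by
    intro j hj
    rw [mem_Icc] at hj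
    have h1 : Nat.log 2 m ≤ Nat.log 2 (m + j) := Nat.log_mono_right (by omega)
    have h2 : Nat.log 2 (m + j) ≤ Nat.log 2 (m + h) := Nat.log_mono_right (by omega)
    have h3 : Nat.log 2 (m + j) = Nat.log 2 m := by omega
    rw [hT]
    unfold level
    rw [h3]
  have e2 : (rough T h m : ℝ) / (vee T * Real.log m) =
      ∑ j ∈ Icc 1 h, (if (m + j).Coprime (primorial T) then 1 / (vee T * Real.log m) else 0) := by
    unfold rough
    rw [← Finset.sum_filter, Finset.sum_const, nsmul_eq_mul]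
    ring
  rw [e1, e2, ← Finset.sum_sub_distrib]
  refine (Finset.abs_sum_le_sum_abs _ _).trans ?_
  have hterm : ∀ j ∈ Icc 1 h, |gran θ (m + j) -
      (if (m + j).Coprime (primorial T) then 1 / (vee T * Real.log m) else 0)| ≤
      (h : ℝ) * ((T : ℝ) + 1) / m := by
    intro j hj
    unfold gran
    rw [hlev j hj]
    rw [mem_Icc] at hj
    have hj1 : (1:ℝ) ≤ j := by exact_mod_cast hj.1
    have hjh : (j:ℝ) ≤ h := by exact_mod_cast hj.2
    split_ifs with hcp
    · have hlmj : Real.log m ≤ Real.log ((m + j : ℕ) : ℝ) := by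
        apply Real.log_le_log hm0
        push_cast; linarith
      have hdiff : Real.log ((m + j : ℕ) : ℝ) - Real.log m ≤ (j : ℝ) / m := by
        rw [← Real.log_div (by push_cast; positivity) hm0.ne']
        have h3 : (((m + j : ℕ) : ℝ)) / m = 1 + j / m := by
          push_cast; field_simp
        rw [h3]
        have := Real.log_le_sub_one_of_pos (x := 1 + (j:ℝ) / m) (by positivity)
        linarith
      set a := Real.log (m:ℝ) with ha
      set b := Real.log ((m + j : ℕ) : ℝ) with hb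
      have ha0 : 0 < a := by linarith
      have hb0 : 0 < b := by linarith
      have h4 : 1 / (vee T * b) - 1 / (vee T * a) = -((1 / vee T) * ((b - a) / (a * b))) := by
        field_simp
        ring
      rw [h4, abs_neg, abs_of_nonneg (by
        have : 0 ≤ b - a := by linarith
        positivity)]
      have h5 : (b - a) / (a * b) ≤ (h:ℝ) / m := by
        have h6 : 1 ≤ a * b := by nlinarith
        calc (b - a) / (a * b) ≤ (b - a) / 1 := by
              apply div_le_div_of_nonneg_left (by linarith) (by norm_num) h6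
          _ = b - a := by ring
          _ ≤ j / m := hdiff
          _ ≤ h / m := by gcongr
      calc (1 / vee T) * ((b - a) / (a * b)) ≤ ((T:ℝ) + 1) * ((h:ℝ) / m) := by
            apply mul_le_mul (inv_vee_le T) h5
            · have : 0 ≤ b - a := by linarith
              positivity
            · positivity
        _ = (h : ℝ) * ((T : ℝ) + 1) / m := by ring
    · simp only [sub_self, abs_zero]
      positivity
  calc ∑ j ∈ Icc 1 h, |gran θ (m + j) -
      (if (m + j).Coprime (primorial T) then 1 / (vee T * Real.log m) else 0)|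
      ≤ ∑ j ∈ Icc 1 h, (h : ℝ) * ((T : ℝ) + 1) / m := Finset.sum_le_sum hterm
    _ = (h : ℝ) ^ 2 * ((T : ℝ) + 1) / m := by
        rw [Finset.sum_const, nsmul_eq_mul, Nat.card_Icc, Nat.add_sub_cancel]
        ring

lemma ev_rpow (a b K : ℝ) (hab : a < b) : ∀ᶠ y : ℝ in atTop, K * y ^ a ≤ y ^ b := by
  filter_upwards [(tendsto_rpow_atTop (sub_pos.mpr hab)).eventually_ge_atTop K,
    eventually_gt_atTop 0] with y h1 h2
  have h3 : y ^ b = y ^ (b - a) * y ^ a := by rw [← Real.rpow_add h2]; congr 1; ring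
  rw [h3]
  exact mul_le_mul_of_nonneg_right h1 (by positivity)

/-- the error terms -/
lemma err_ev (lam c t t1 : ℝ) (hlam : 1 < lam) (hc : 0 < c) (htt : t < t1)
    (h1 : (lam - 1) * t < lam) :
    ∀ᶠ x : ℝ in atTop, (c * x ^ lam) ^ 2 * (2 * x + 1) / Real.exp x +
      (2 * x) ^ (lam - (lam - 1) * t1) / x + 1 / x ≤ (c * x ^ (lam - 1)) ^ (1 - t) := by
  set κ : ℝ := (lam - 1) * (1 - t) with hκ
  set e : ℝ := lam - (lam - 1) * t1 with he
  have hκ1 : -1 < κ := by rw [hκ]; nlinarith
  have heκ : e - 1 < κ := by rw [he, hκ]; nlinarith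
  set δ : ℝ := c ^ (1 - t) with hδ
  have hδ0 : 0 < δ := by positivity
  have hA : ∀ᶠ x : ℝ in atTop, (3 * (2:ℝ) ^ e / δ) * x ^ (e - 1) ≤ x ^ κ := ev_rpow _ _ _ heκ
  have hB : ∀ᶠ x : ℝ in atTop, (3 / δ) * x ^ (-1 : ℝ) ≤ x ^ κ := ev_rpow _ _ _ hκ1
  have hC : ∀ᶠ x : ℝ in atTop, (9 * c ^ 2 / δ) * x ^ (2 * lam + 1 - κ) * Real.exp (-1 * x) < 1 := by
    have h2 := tendsto_rpow_mul_exp_neg_mul_atTop_nhds_zero (2 * lam + 1 - κ) 1 (by norm_num)
    have h3 := h2.const_mul (9 * c ^ 2 / δ)
    rw [mul_zero] at h3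
    have h4 := h3.eventually_lt_const (show (0:ℝ) < 1 by norm_num)
    filter_upwards [h4] with x hx
    linarith
  filter_upwards [hA, hB, hC, eventually_ge_atTop 1] with x hA hB hC hx1
  have hx0 : 0 < x := by linarith
  have e1 : (c * x ^ (lam - 1)) ^ (1 - t) = δ * x ^ κ := by
    rw [Real.mul_rpow hc.le (by positivity), ← Real.rpow_mul hx0.le]
  have e2 : (2 * x) ^ e / x = 2 ^ e * x ^ (e - 1) := by
    rw [Real.mul_rpow (by norm_num) hx0.le, Real.rpow_sub_one hx0.ne']
    ring
  have e3 : (1:ℝ) / x = x ^ (-1 : ℝ) := by rw [Real.rpow_neg_one]; ring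
  have hxk : 0 < x ^ κ := by positivity
  have hA' : 2 ^ e * x ^ (e - 1) ≤ δ * x ^ κ / 3 := by
    have := mul_le_mul_of_nonneg_left hA (show 0 ≤ δ / 3 by positivity)
    have e4 : δ / 3 * (3 * (2:ℝ) ^ e / δ * x ^ (e - 1)) = 2 ^ e * x ^ (e - 1) := by
      field_simp
    rw [e4] at this
    linarith
  have hB' : x ^ (-1 : ℝ) ≤ δ * x ^ κ / 3 := by
    have := mul_le_mul_of_nonneg_left hB (show 0 ≤ δ / 3 by positivity)
    have e4 : δ / 3 * (3 / δ * x ^ (-1 : ℝ)) = x ^ (-1 : ℝ) := by
      field_simp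
    rw [e4] at this
    linarith
  have hC' : (c * x ^ lam) ^ 2 * (2 * x + 1) / Real.exp x ≤ δ * x ^ κ / 3 := by
    have h5 : (c * x ^ lam) ^ 2 * (2 * x + 1) / Real.exp x ≤
        3 * c ^ 2 * x ^ (2 * lam + 1) * Real.exp (-1 * x) := by
      have e5 : (c * x ^ lam) ^ 2 = c ^ 2 * x ^ (2 * lam) := by
        rw [mul_pow, ← Real.rpow_natCast, ← Real.rpow_natCast, ← Real.rpow_mul hx0.le]
        norm_num
        left; ring_nf
      rw [e5, Real.rpow_add hx0, Real.rpow_one, div_eq_mul_inv, ← Real.exp_neg]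
      have e6 : Real.exp (-x) = Real.exp (-1 * x) := by ring_nf
      rw [e6]
      have h6 : c ^ 2 * x ^ (2 * lam) * (2 * x + 1) ≤ 3 * c ^ 2 * (x ^ (2 * lam) * x) := by
        have : 0 ≤ c ^ 2 * x ^ (2 * lam) := by positivity
        nlinarith
      exact mul_le_mul_of_nonneg_right h6 (Real.exp_pos _).le
    refine h5.trans ?_
    have e7 : x ^ (2 * lam + 1) = x ^ (2 * lam + 1 - κ) * x ^ κ := by
      rw [← Real.rpow_add hx0]; congr 1; ring
    rw [e7]
    have h8 := mul_le_mul_of_nonneg_left hC.le (show 0 ≤ δ * x ^ κ / 3 by positivity)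
    have e8 : δ * x ^ κ / 3 * (9 * c ^ 2 / δ * x ^ (2 * lam + 1 - κ) * Real.exp (-1 * x)) =
        3 * c ^ 2 * (x ^ (2 * lam + 1 - κ) * x ^ κ) * Real.exp (-1 * x) := by
      field_simp
      ring
    rw [e8] at h8
    linarith
  rw [e1, e2, e3]
  linarith

/-- a window inside a dyadic block on which the sieve count is near its mean -/
lemma window_ok (lam c t t1 θ : ℝ) (hlam : 1 < lam) (hc : 0 < c) (htt : t < t1)
    (hθ1 : θ < 1) (h1 : (lam - 1) * t < lam) (h2 : 0 ≤ lam - (lam - 1) * t1) :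
    ∀ᶠ m : ℕ in atTop, Nat.log 2 (m + LibH.hl lam c m) = Nat.log 2 m →
      |(rough (level θ m) (LibH.hl lam c m) m : ℝ) - vee (level θ m) * (LibH.hl lam c m : ℕ)| <
        vee (level θ m) * (Nat.log 2 m : ℝ) ^ (lam - (lam - 1) * t1) →
      |(∑ n ∈ Ioc m (m + LibH.hl lam c m), gran θ n) - LibH.mean lam c m| ≤
        (LibH.mean lam c m) ^ (1 - t) := by
  have hLN : Tendsto (fun N : ℕ => Real.log (N : ℝ)) atTop atTop :=
    Real.tendsto_log_atTop.comp tendsto_natCast_atTop_atTop
  filter_upwards [hLN.eventually (err_ev lam c t t1 hlam hc htt h1), eventually_ge_atTop 3]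
    with m herr hm3 hlog hr
  have hm3' : (3:ℝ) ≤ m := by exact_mod_cast hm3
  have hm0 : (0:ℝ) < m := by linarith
  set x := Real.log (m:ℝ) with hx
  have hx1 : 1 ≤ x := by
    have h1 : Real.exp 1 ≤ m := by
      have := Real.exp_one_lt_d9
      linarith
    have h2 := Real.log_le_log (Real.exp_pos 1) h1
    rwa [Real.log_exp] at h2
  have hx0 : 0 < x := by linarith
  have hexp : Real.exp x = m := by rw [hx, Real.exp_log hm0]
  set h := LibH.hl lam c m with hh
  set T := level θ m with hT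
  set i := Nat.log 2 m with hi
  have hi2x : (i:ℝ) ≤ 2 * x := by
    have h3 : (2:ℕ) ^ i ≤ m := Nat.pow_log_le_self 2 (by omega)
    have h4 : ((2:ℝ)) ^ i ≤ m := by exact_mod_cast h3
    have h5 := Real.log_le_log (by positivity) h4
    rw [Real.log_pow] at h5
    have h6 := Real.log_two_gt_d9
    have : (0:ℝ) ≤ i := by positivity
    nlinarith
  have hi1 : (1:ℝ) ≤ i := by
    have h3 : 1 ≤ Nat.log 2 m := Nat.log_pos (by norm_num) (by omega)
    exact_mod_cast h3
  have hT2 : (T:ℝ) ≤ 2 * x := by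
    have h3 : (T:ℝ) ≤ (i:ℝ) ^ θ := by
      rw [hT]; unfold level
      exact Nat.floor_le (by positivity)
    have h4 : (i:ℝ) ^ θ ≤ (i:ℝ) ^ (1:ℝ) := Real.rpow_le_rpow_of_exponent_le hi1 hθ1.le
    rw [Real.rpow_one] at h4
    linarith
  have hhle : (h:ℝ) ≤ c * x ^ lam := by
    rw [hh]; unfold LibH.hl
    exact Nat.floor_le (by positivity)
  have hhge : c * x ^ lam < h + 1 := by
    rw [hh]; unfold LibH.hl
    exact Nat.lt_floor_add_one _
  have hs := gran_sum θ m h hm3 hlog
  rw [← hT, ← hx] at hs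
  have hv := vee_posA T
  set R : ℝ := (rough T h m : ℝ) with hR
  have hmean : LibH.mean lam c m = c * x ^ (lam - 1) := rfl
  rw [hmean]
  have hmx : c * x ^ (lam - 1) = c * x ^ lam / x := by
    rw [Real.rpow_sub_one hx0.ne']; ring
  have b1 : (h : ℝ) ^ 2 * ((T : ℝ) + 1) / m ≤ (c * x ^ lam) ^ 2 * (2 * x + 1) / Real.exp x := by
    rw [hexp]
    gcongr
  have b2 : |R / (vee T * x) - h / x| ≤ (2 * x) ^ (lam - (lam - 1) * t1) / x := by
    have e1 : R / (vee T * x) - h / x = (R - vee T * h) / (vee T * x) := by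
      field_simp
    rw [e1, abs_div, abs_of_pos (show 0 < vee T * x by positivity), div_le_div_iff₀ (by positivity) hx0]
    have h3 : (i:ℝ) ^ (lam - (lam - 1) * t1) ≤ (2 * x) ^ (lam - (lam - 1) * t1) :=
      Real.rpow_le_rpow (by positivity) hi2x h2
    calc |R - vee T * h| * x ≤ (vee T * (i:ℝ) ^ (lam - (lam - 1) * t1)) * x := by
          gcongr
      _ ≤ (vee T * (2 * x) ^ (lam - (lam - 1) * t1)) * x := by gcongr
      _ = _ := by ring
  have b3 : |(h:ℝ) / x - c * x ^ (lam - 1)| ≤ 1 / x := by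
    rw [hmx, ← sub_div, abs_div, abs_of_pos hx0]
    gcongr
    rw [abs_le]
    constructor <;> linarith
  calc |(∑ n ∈ Ioc m (m + h), gran θ n) - c * x ^ (lam - 1)|
      = |((∑ n ∈ Ioc m (m + h), gran θ n) - R / (vee T * x)) + (R / (vee T * x) - h / x) +
          ((h:ℝ) / x - c * x ^ (lam - 1))| := by congr 1; ring
    _ ≤ |(∑ n ∈ Ioc m (m + h), gran θ n) - R / (vee T * x)| + |R / (vee T * x) - h / x| +
          |(h:ℝ) / x - c * x ^ (lam - 1)| := by
        refine (abs_add_le _ _).trans ?_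
        gcongr
        exact abs_add_le _ _
    _ ≤ (c * x ^ lam) ^ 2 * (2 * x + 1) / Real.exp x +
      (2 * x) ^ (lam - (lam - 1) * t1) / x + 1 / x := by
        gcongr
        exact hs.trans b1
    _ ≤ _ := herr

end Pool.Agent.LibDev91
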