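import Pool.Agent.LibDev91.CountA

/-!
The final inequality and the count of the integers in given residue classes.
-/

namespace Pool.Agent.LibDev91

open Finset Filter Topology

/-- the integers of a short interval in a set of residue classes -/
lemma card_mod_le (a n P : ℕ) (hP : 0 < P) (B : Finset ℕ) :
    #{m ∈ Ico a (a + n) | m % P ∈ B} ≤ (n / P + 2) * #B := by
  classical
  have h1 : {m ∈ Ico a (a + n) | m % P ∈ B} ⊆
      (B ×ˢ (Icc (a / P) (a / P + (n / P + 1)))).image (fun x => P * x.2 + x.1) := by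
    intro m hm
    rw [mem_filter, mem_Ico] at hm
    rw [mem_image]
    refine ⟨(m % P, m / P), ?_, ?_⟩
    · rw [mem_product, mem_Icc]
      refine ⟨hm.2, Nat.div_le_div_right hm.1.1, ?_⟩
      have h2 : m / P ≤ (a + n) / P := Nat.div_le_div_right (by omega)
      have h3 : (a + n) / P ≤ a / P + n / P + 1 := by
        rw [Nat.add_div hP]
        split_ifs <;> omega
      show m / P ≤ _
      omega
    · simp only
      exact Nat.div_add_mod m P
  refine (card_le_card h1).trans (card_image_le.trans ?_)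
  rw [card_product, Nat.card_Icc]
  have h4 : a / P + (n / P + 1) + 1 - a / P = n / P + 2 := by
    generalize a / P = u
    generalize n / P = v
    omega
  rw [h4, mul_comm]

/-- the final inequality -/
lemma final_ev (lam C E E1 : ℝ) (hlam : 1 < lam) (hC : 0 < C) (hE : E < E1) (hE1 : 1 < E1) :
    ∀ᶠ x : ℝ in atTop, Real.exp (x / 2) + (2 * x + 1) * (C * (2 * x) ^ lam + 1) +
      6 * (C * (2 * x) ^ lam + 1) * Real.exp x * Real.exp (-(Real.log (x / 4)) ^ E1) ≤
      Real.exp x * Real.exp (-(Real.log x) ^ E) := by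
  set F : ℝ := max 1 E with hF
  have hF1 : 1 ≤ F := le_max_left _ _
  have hEF : E ≤ F := le_max_right _ _
  have hFE1 : F < E1 := max_lt hE1 hE
  -- facts in `y = log x`
  have hy : ∀ᶠ y : ℝ in atTop, (2 ^ E1 * (lam + 3)) * y ^ F ≤ y ^ E1 := ev_rpow _ _ _ hFE1
  have hLL : Tendsto Real.log atTop atTop := Real.tendsto_log_atTop
  have hx1 : ∀ᶠ x : ℝ in atTop, Real.log x ^ F ≤ x / 8 := by
    have h1 := isLittleO_log_rpow_rpow_atTop F (show (0:ℝ) < 1 by norm_num)
    have h2 := h1.bound (show (0:ℝ) < 1 / 8 by norm_num)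
    filter_upwards [h2, eventually_ge_atTop 1] with x hx h1
    rw [Real.rpow_one, Real.norm_eq_abs, Real.norm_eq_abs, abs_of_nonneg (by
      have := Real.log_nonneg h1
      positivity), abs_of_nonneg (by linarith)] at hx
    linarith
  have hx2 : ∀ᶠ x : ℝ in atTop, (2 * x + 1) * (C * (2 * x) ^ lam + 1) ≤ Real.exp (x / 2) := by
    have h2 := tendsto_rpow_mul_exp_neg_mul_atTop_nhds_zero (lam + 1) (1/2) (by norm_num)
    have h3 := h2.const_mul (3 * (C * 2 ^ lam + 1))
    rw [mul_zero] at h3
    filter_upwards [h3.eventually_lt_const (show (0:ℝ) < 1 by norm_num), eventually_ge_atTop 1]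
      with x hx h1
    have h0 : 0 < x := by linarith
    have h4 : (2 * x) ^ lam = 2 ^ lam * x ^ lam := Real.mul_rpow (by norm_num) h0.le
    have h5 : (1:ℝ) ≤ x ^ lam := Real.one_le_rpow h1 (by linarith)
    have h6 : (2 * x + 1) * (C * (2 * x) ^ lam + 1) ≤ 3 * (C * 2 ^ lam + 1) * x ^ (lam + 1) := by
      rw [h4, Real.rpow_add_one h0.ne']
      have h7 : C * (2 ^ lam * x ^ lam) + 1 ≤ (C * 2 ^ lam + 1) * x ^ lam := by nlinarith
      calc (2 * x + 1) * (C * (2 ^ lam * x ^ lam) + 1) ≤ (3 * x) * ((C * 2 ^ lam + 1) * x ^ lam) := by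
            apply mul_le_mul (by linarith) h7 (by positivity) (by positivity)
        _ = _ := by ring
    have h8 : Real.exp (-(1/2) * x) = (Real.exp (x / 2))⁻¹ := by
      rw [← Real.exp_neg]; congr 1; ring
    rw [h8] at hx
    have h9 : 0 < Real.exp (x / 2) := Real.exp_pos _
    have h10 : 3 * (C * 2 ^ lam + 1) * x ^ (lam + 1) < Real.exp (x / 2) := by
      have : 3 * (C * 2 ^ lam + 1) * (x ^ (lam + 1) * (Real.exp (x / 2))⁻¹) =
          (3 * (C * 2 ^ lam + 1) * x ^ (lam + 1)) / Real.exp (x / 2) := by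
        rw [div_eq_mul_inv]; ring
      rw [this, div_lt_one h9] at hx
      exact hx
    linarith
  filter_upwards [hx1, hx2, hLL.eventually hy, hLL.eventually (eventually_ge_atTop (2 * Real.log 4)),
    hLL.eventually (eventually_ge_atTop 1), eventually_ge_atTop (18 * (C * 2 ^ lam + 1)),
    eventually_ge_atTop 16]
    with x h1 h2 h3 h4 h5 h6 h7
  have h0 : 0 < x := by linarith
  set y := Real.log x with hyd
  have hy0 : 0 < y := by linarith
  have hyE : y ^ E ≤ y ^ F := Real.rpow_le_rpow_of_exponent_le h5 hEF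
  have hyF : y ≤ y ^ F := by
    calc y = y ^ (1:ℝ) := (Real.rpow_one y).symm
      _ ≤ y ^ F := Real.rpow_le_rpow_of_exponent_le h5 hF1
  -- the third term
  have hT : Real.log (x / 4) ^ E1 ≥ (lam + 3) * y ^ F := by
    have h8 : Real.log (x / 4) = y - Real.log 4 := Real.log_div h0.ne' (by norm_num)
    have h9 : y / 2 ≤ Real.log (x / 4) := by rw [h8]; linarith
    have h10 : (y / 2) ^ E1 ≤ Real.log (x / 4) ^ E1 :=
      Real.rpow_le_rpow (by positivity) h9 (by linarith)
    rw [Real.div_rpow hy0.le (by norm_num)] at h10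
    have h11 : (lam + 3) * y ^ F ≤ y ^ E1 / 2 ^ E1 := by
      rw [le_div_iff₀ (by positivity)]
      linarith
    linarith
  have hP : 18 * (C * (2 * x) ^ lam + 1) ≤ Real.exp ((lam + 1) * y) := by
    have h8 : (2 * x) ^ lam = 2 ^ lam * x ^ lam := Real.mul_rpow (by norm_num) h0.le
    have h9 : (1:ℝ) ≤ x ^ lam := Real.one_le_rpow (by linarith) (by linarith)
    have h10 : Real.exp ((lam + 1) * y) = x ^ lam * x := by
      rw [← Real.rpow_add_one h0.ne', Real.rpow_def_of_pos h0, ← hyd, mul_comm]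
    rw [h10, h8]
    have h11 : C * (2 ^ lam * x ^ lam) + 1 ≤ (C * 2 ^ lam + 1) * x ^ lam := by nlinarith
    nlinarith
  have t3 : 6 * (C * (2 * x) ^ lam + 1) * Real.exp x * Real.exp (-(Real.log (x / 4)) ^ E1) ≤
      (1 / 3) * (Real.exp x * Real.exp (-y ^ E)) := by
    have h8 : Real.exp (-(Real.log (x / 4)) ^ E1) ≤ Real.exp (-((lam + 3) * y ^ F)) :=
      Real.exp_le_exp.mpr (by linarith)
    calc 6 * (C * (2 * x) ^ lam + 1) * Real.exp x * Real.exp (-(Real.log (x / 4)) ^ E1)
        ≤ (1 / 3) * Real.exp ((lam + 1) * y) * Real.exp x * Real.exp (-((lam + 3) * y ^ F)) := by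
          have h9 : 6 * (C * (2 * x) ^ lam + 1) ≤ (1 / 3) * Real.exp ((lam + 1) * y) := by
            linarith
          gcongr
      _ = (1 / 3) * (Real.exp x * Real.exp ((lam + 1) * y - (lam + 3) * y ^ F)) := by
          rw [sub_eq_add_neg, Real.exp_add]; ring
      _ ≤ (1 / 3) * (Real.exp x * Real.exp (-y ^ E)) := by
          have h9 : (lam + 1) * y - (lam + 3) * y ^ F ≤ -y ^ E := by
            have : (lam + 1) * y ≤ (lam + 1) * y ^ F :=
              mul_le_mul_of_nonneg_left hyF (by linarith)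
            have : 0 ≤ y ^ F := by positivity
            nlinarith
          have := Real.exp_le_exp.mpr h9
          gcongr
  have t1 : Real.exp (x / 2) ≤ (1 / 3) * (Real.exp x * Real.exp (-y ^ E)) := by
    have h8 : Real.exp (x / 2) * 3 ≤ Real.exp x * Real.exp (-y ^ E) := by
      have h9 : (3:ℝ) ≤ Real.exp (x / 8) := by
        have h10 := Real.add_one_le_exp (x / 8)
        linarith
      calc Real.exp (x / 2) * 3 ≤ Real.exp (x / 2) * Real.exp (x / 8) := by gcongr
        _ = Real.exp (x / 2 + x / 8) := by rw [Real.exp_add]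
        _ ≤ Real.exp (x + -y ^ E) := by
            apply Real.exp_le_exp.mpr
            linarith
        _ = _ := by rw [Real.exp_add]
    linarith
  linarith [t1, t3, h2.trans t1]

end Pool.Agent.LibDev91
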