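import Pool.Agent.LibDev91.CountB

/-!
Row S4: the exceptional windows of Granville's model. `rough_dev` (DEPS) is proved elsewhere
(helper91). The target is `exc_count`.

PROOF. Apply `rough_dev` with `t1 > t` close to `t`, an exponent `E1 ∈ (E, lam / ((lam - 1) t1))` and
`C` a large constant. Let `m ∈ [2^i, 2^(i+1))`, `√X ≤ 2^i ≤ X`, `L = i`
(so `log m ≤ i`, `i ≤ 2 log m`), `T = level θ m = ⌊i^θ⌋`, window `(m, m + h]`, `h = hl lam c m`.
If the window stays inside the dyadic block (all but `O(i^lam)` of the `m` of the block) then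
`∑_{n ∈ window} gran θ n = (1 / vee T) ∑_{n rough} 1 / log n`, and `|1/log n - 1/log m| ≤ h / m`.
If `|rough T h m - vee T * h| ≤ vee T * L^(lam - (lam-1) t1)` then the sum differs from
`mean lam c m` by at most `mean ^ (1 - t)` (as `t1 > t`). For fixed `h` (at most `C L^lam` values) the bad `m` of the block
lie in at most `P exp(-(log L)^E')` residue classes mod `P = primorial T ≤ 4^T ≤ 2^i`, so their
number is `≤ (2^i / P + 1) P exp(..) ≤ 2^(i+1) exp(-(log L)^E')`.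
-/

namespace Pool.Agent.LibDev91

open Finset Filter Topology

/-- The conclusion of `rough_dev`. -/
def RoughDev (lam t θ E C : ℝ) : Prop :=
    ∀ᶠ L : ℝ in atTop, ∀ h T : ℕ, (h : ℝ) ≤ C * L ^ lam → (T : ℝ) ≤ L ^ θ →
      ((#{n ∈ range (primorial T) | vee T * L ^ (lam - (lam - 1) * t) ≤
        |(rough T h n : ℝ) - vee T * h|} : ℕ) : ℝ) ≤
        primorial T * Real.exp (-(Real.log L) ^ E)

/-- the windows with a wrong sum of densities -/
noncomputable def bad (lam c t θ : ℝ) (m : ℕ) : Prop :=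
  (LibH.mean lam c m) ^ (1 - t) <
        |(∑ n ∈ Ioc m (m + LibH.hl lam c m), gran θ n) - LibH.mean lam c m|

open scoped Classical in
lemma block (lam c t t1 θ E1 : ℝ) (hlam : 1 < lam) (hc : 0 < c) (htt : t < t1)
    (hθ1 : θ < 1) (h1 : (lam - 1) * t < lam) (h2 : 0 ≤ lam - (lam - 1) * t1)
    (hR : RoughDev lam t1 θ E1 (c * 2 ^ lam)) :
    ∀ᶠ i : ℕ in atTop,
      ((#{m ∈ Ico (2 ^ i) (2 ^ (i + 1)) | bad lam c t θ m} : ℕ) : ℝ) ≤
        (c * 2 ^ lam * (i : ℝ) ^ lam + 1) +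
        (c * 2 ^ lam * (i : ℝ) ^ lam + 1) * (3 * 2 ^ i * Real.exp (-(Real.log i) ^ E1)) := by
  have hW := window_ok lam c t t1 θ hlam hc htt hθ1 h1 h2
  obtain ⟨M0, hM0⟩ := eventually_atTop.mp hW
  have hR' := tendsto_natCast_atTop_atTop.eventually hR
  have hP : ∀ᶠ i : ℕ in atTop, 2 * (i : ℝ) ^ θ ≤ (i : ℝ) := by
    have := tendsto_natCast_atTop_atTop.eventually (ev_rpow θ 1 2 hθ1)
    filter_upwards [this] with i hi
    rwa [Real.rpow_one] at hi
  filter_upwards [hR', hP, eventually_ge_atTop M0, eventually_ge_atTop 1] with i hRi hPi hiM hi1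
  have hi1' : (1:ℝ) ≤ i := by exact_mod_cast hi1
  set C : ℝ := c * 2 ^ lam with hC
  set J : ℕ := ⌊C * (i : ℝ) ^ lam⌋₊ with hJ
  have hJle : (J:ℝ) ≤ C * (i : ℝ) ^ lam := Nat.floor_le (by positivity)
  set T : ℕ := ⌊(i : ℝ) ^ θ⌋₊ with hT
  have hTle : (T:ℝ) ≤ (i : ℝ) ^ θ := Nat.floor_le (by positivity)
  set P : ℕ := primorial T with hPd
  have hP0 : 0 < P := primorial_pos T
  have h2T : 2 * T ≤ i := by
    have : 2 * (T:ℝ) ≤ i := by linarith
    exact_mod_cast this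
  have hP2 : P ≤ 2 ^ i := by
    calc P ≤ 4 ^ T := primorial_le_four_pow T
      _ = 2 ^ (2 * T) := by rw [pow_mul]; norm_num
      _ ≤ 2 ^ i := Nat.pow_le_pow_right (by norm_num) h2T
  set B : ℕ → Finset ℕ := fun h => {n ∈ range P | vee T * (i : ℝ) ^ (lam - (lam - 1) * t1) ≤
        |(rough T h n : ℝ) - vee T * h|} with hB
  have hhl : ∀ m ∈ Ico (2 ^ i) (2 ^ (i + 1)), LibH.hl lam c m ≤ J := by
    intro m hm
    rw [mem_Ico] at hm
    unfold LibH.hl
    rw [hJ]
    apply Nat.floor_le_floor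
    have hm1 : (1:ℝ) ≤ m := by
      have : 1 ≤ m := le_trans Nat.one_le_two_pow hm.1
      exact_mod_cast this
    have h3 : Real.log m ≤ 2 * i := by
      have h4 : (m:ℝ) ≤ 2 ^ (i + 1) := by exact_mod_cast hm.2.le
      have h5 := Real.log_le_log (by linarith) h4
      rw [Real.log_pow] at h5
      have h6 := Real.log_two_lt_d9
      push_cast at h5
      nlinarith
    have h4 : Real.log m ^ lam ≤ (2 * i : ℝ) ^ lam :=
      Real.rpow_le_rpow (Real.log_nonneg hm1) h3 (by linarith)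
    rw [Real.mul_rpow (by norm_num) (by positivity)] at h4
    calc c * Real.log m ^ lam ≤ c * (2 ^ lam * (i:ℝ) ^ lam) := by gcongr
      _ = _ := by rw [hC]; ring
  have hsub : {m ∈ Ico (2 ^ i) (2 ^ (i + 1)) | bad lam c t θ m} ⊆
      Ico (2 ^ (i + 1) - J) (2 ^ (i + 1)) ∪ (range (J + 1)).biUnion
        (fun h => {m ∈ Ico (2 ^ i) (2 ^ i + 2 ^ i) | m % P ∈ B h}) := by
    intro m hm
    rw [mem_filter] at hm
    obtain ⟨hm1, hm2⟩ := hm
    have hhlm := hhl m hm1
    rw [mem_Ico] at hm1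
    rw [mem_union]
    by_cases hcr : 2 ^ (i + 1) ≤ m + LibH.hl lam c m
    · left
      rw [mem_Ico]
      omega
    · right
      rw [mem_biUnion]
      refine ⟨LibH.hl lam c m, mem_range.mpr (by omega), ?_⟩
      rw [mem_filter, mem_Ico]
      have hlm : Nat.log 2 m = i := by
        apply Nat.log_eq_of_pow_le_of_lt_pow hm1.1 hm1.2
      have hlmh : Nat.log 2 (m + LibH.hl lam c m) = Nat.log 2 m := by
        rw [hlm]
        apply Nat.log_eq_of_pow_le_of_lt_pow (by omega) (by omega)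
      have hmM : M0 ≤ m := by
        have : i < 2 ^ i := Nat.lt_two_pow_self
        omega
      have h3 := hM0 m hmM hlmh
      have hlev : level θ m = T := by unfold level; rw [hlm]
      rw [hlev, hlm] at h3
      refine ⟨⟨hm1.1, by have := hm1.2; rw [pow_succ] at this; omega⟩, ?_⟩
      simp only [hB, mem_filter, mem_range]
      refine ⟨Nat.mod_lt _ hP0, ?_⟩
      rw [rough_mod]
      by_contra h4
      push Not at h4
      have h5 := h3 h4
      unfold bad at hm2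
      linarith
  have hcard := card_le_card hsub
  have hcard2 : (#{m ∈ Ico (2 ^ i) (2 ^ (i + 1)) | bad lam c t θ m}) ≤
      J + ∑ h ∈ range (J + 1), (2 ^ i / P + 2) * #(B h) := by
    refine hcard.trans ((card_union_le _ _).trans ?_)
    apply add_le_add
    · rw [Nat.card_Ico]; omega
    · refine card_biUnion_le.trans (Finset.sum_le_sum fun h _ => ?_)
      exact card_mod_le (2 ^ i) (2 ^ i) P hP0 (B h)
  have hcard3 : ((#{m ∈ Ico (2 ^ i) (2 ^ (i + 1)) | bad lam c t θ m} : ℕ) : ℝ) ≤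
      J + ∑ h ∈ range (J + 1), ((2 ^ i / P : ℕ) + 2 : ℝ) * #(B h) := by
    exact_mod_cast hcard2
  set ex : ℝ := Real.exp (-(Real.log i) ^ E1) with hex
  have hex0 : 0 < ex := Real.exp_pos _
  have hterm : ∀ h ∈ range (J + 1), ((2 ^ i / P : ℕ) + 2 : ℝ) * #(B h) ≤ 3 * 2 ^ i * ex := by
    intro h hh
    rw [mem_range] at hh
    have hhJ : (h:ℝ) ≤ C * (i:ℝ) ^ lam := by
      have : (h:ℝ) ≤ J := by exact_mod_cast (by omega : h ≤ J)
      linarith
    have h3 : ((#(B h) : ℕ) : ℝ) ≤ P * ex := hRi h T hhJ hTle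
    have h4 : ((2 ^ i / P : ℕ) : ℝ) ≤ (2:ℝ) ^ i / P := by
      have := @Nat.cast_div_le ℝ _ _ _ (2 ^ i) P
      push_cast at this
      exact_mod_cast this
    have hPR : (0:ℝ) < P := by exact_mod_cast hP0
    have hP2R : (P:ℝ) ≤ 2 ^ i := by exact_mod_cast hP2
    calc ((2 ^ i / P : ℕ) + 2 : ℝ) * #(B h) ≤ ((2:ℝ) ^ i / P + 2) * (P * ex) := by
          gcongr
      _ = (2 ^ i + 2 * P) * ex := by field_simp
      _ ≤ (2 ^ i + 2 * 2 ^ i) * ex := by gcongr
      _ = _ := by ring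
  calc ((#{m ∈ Ico (2 ^ i) (2 ^ (i + 1)) | bad lam c t θ m} : ℕ) : ℝ)
      ≤ J + ∑ h ∈ range (J + 1), ((2 ^ i / P : ℕ) + 2 : ℝ) * #(B h) := hcard3
    _ ≤ J + ∑ h ∈ range (J + 1), 3 * 2 ^ i * ex := by
        have := Finset.sum_le_sum hterm
        linarith
    _ = J + (J + 1) * (3 * 2 ^ i * ex) := by
        rw [Finset.sum_const, card_range, nsmul_eq_mul]
        push_cast
        ring
    _ ≤ (C * (i : ℝ) ^ lam + 1) + (C * (i : ℝ) ^ lam + 1) * (3 * 2 ^ i * ex) := by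
        gcongr
        linarith

/-- All but very few windows `(m, m + c (log m)^lam]` have the right mean in Granville's model. -/
theorem exc_count_of (hRD : ∀ lam t θ E C : ℝ, 1 < lam → 0 < t → 0 ≤ θ →
      θ < lam - 2 * (lam - 1) * t → E < lam / ((lam - 1) * t) → 0 < C → RoughDev lam t θ E C)
    (lam c t θ E : ℝ) (hlam : 1 < lam) (hc : 0 < c) (ht : 0 < t) (hθ : 0 ≤ θ)
    (hθ1 : θ < 1) (hθ2 : θ < lam - 2 * (lam - 1) * t) (hE : E < lam / ((lam - 1) * t)) :
    ∀ᶠ X : ℕ in atTop,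
      ((#{m ∈ Icc 3 X | (LibH.mean lam c m) ^ (1 - t) <
        |(∑ n ∈ Ioc m (m + LibH.hl lam c m), gran θ n) - LibH.mean lam c m|} : ℕ) : ℝ) ≤
        X * Real.exp (-(Real.log (Real.log X)) ^ E) := by
  classical
  have hl1 : 0 < lam - 1 := by linarith
  -- `t1`
  obtain ⟨t1, htt, hθt1, hEt1⟩ : ∃ t1, t < t1 ∧ θ < lam - 2 * (lam - 1) * t1 ∧
      E < lam / ((lam - 1) * t1) := by
    have c1 : ContinuousAt (fun s : ℝ => lam - 2 * (lam - 1) * s) t := by fun_prop
    have c2 : ContinuousAt (fun s : ℝ => lam / ((lam - 1) * s)) t := by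
      apply ContinuousAt.div (by fun_prop) (by fun_prop)
      positivity
    have e1 := c1.eventually_const_lt hθ2
    have e2 := c2.eventually_const_lt hE
    have e3 := (e1.and e2).filter_mono (nhdsWithin_le_nhds (s := Set.Ioi t))
    obtain ⟨s, hs, hst⟩ := (e3.and self_mem_nhdsWithin).exists
    exact ⟨s, hst, hs.1, hs.2⟩
  have ht1 : 0 < t1 := by linarith
  have hlt1 : 0 < (lam - 1) * t1 := by positivity
  have h2E : 1 < lam / ((lam - 1) * t1) := by
    rw [lt_div_iff₀ hlt1]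
    linarith
  obtain ⟨E1, hE1a, hE1b⟩ : ∃ E1, max E 1 < E1 ∧ E1 < lam / ((lam - 1) * t1) :=
    exists_between (max_lt hEt1 h2E)
  have hEE1 : E < E1 := lt_of_le_of_lt (le_max_left _ _) hE1a
  have h1E1 : 1 < E1 := lt_of_le_of_lt (le_max_right _ _) hE1a
  set C : ℝ := c * 2 ^ lam with hC
  have hC0 : 0 < C := by positivity
  have hR : RoughDev lam t1 θ E1 C := hRD lam t1 θ E1 C hlam ht1 hθ hθt1 hE1b hC0
  have hblock := block lam c t t1 θ E1 hlam hc htt hθ1 (by nlinarith) (by nlinarith) hR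
  obtain ⟨i1, hi1⟩ := eventually_atTop.mp hblock
  have hLN : Tendsto (fun N : ℕ => Real.log (N : ℝ)) atTop atTop :=
    Real.tendsto_log_atTop.comp tendsto_natCast_atTop_atTop
  filter_upwards [hLN.eventually (final_ev lam C E E1 hlam hC0 hEE1 h1E1),
    hLN.eventually (eventually_ge_atTop (4 * i1 + 16 : ℝ)), eventually_ge_atTop 3] with X hfin hXi hX3
  have hX0 : (0:ℝ) < X := by
    have : 0 < X := by omega
    exact_mod_cast this
  set x := Real.log (X:ℝ) with hx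
  have hexp : Real.exp x = X := by rw [hx, Real.exp_log hX0]
  set I := Nat.log 2 X with hI
  set i0 := I / 2 with hi0
  have hIX : 2 ^ I ≤ X := Nat.pow_log_le_self 2 (by omega)
  have hXI : X < 2 ^ (I + 1) := Nat.lt_pow_succ_log_self (by norm_num) X
  have hIX' : (2:ℝ) ^ I ≤ X := by exact_mod_cast hIX
  have hx16 : 16 ≤ x := by
    have : (0:ℝ) ≤ i1 := by positivity
    linarith
  have hI2x : (I:ℝ) ≤ 2 * x := by
    have h5 := Real.log_le_log (by positivity) hIX'
    rw [Real.log_pow] at h5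
    have h6 := Real.log_two_gt_d9
    have : (0:ℝ) ≤ I := by positivity
    nlinarith
  have hxI : x ≤ I + 1 := by
    have h4 : (X:ℝ) ≤ 2 ^ (I + 1) := by exact_mod_cast hXI.le
    have h5 := Real.log_le_log hX0 h4
    rw [Real.log_pow] at h5
    have h6 := Real.log_two_lt_d9
    push_cast at h5
    have : (0:ℝ) ≤ (I:ℝ) + 1 := by positivity
    nlinarith
  have hi0I : (I:ℝ) ≤ 2 * i0 + 1 := by
    have : I ≤ 2 * i0 + 1 := by omega
    exact_mod_cast this
  have hi0x : x / 4 ≤ i0 := by linarith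
  have hi0i1 : i1 ≤ i0 := by
    have : (i1:ℝ) ≤ i0 := by linarith
    exact_mod_cast this
  have hsub : {m ∈ Icc 3 X | bad lam c t θ m} ⊆ range (2 ^ i0) ∪
      (Icc i0 I).biUnion (fun i => {m ∈ Ico (2 ^ i) (2 ^ (i + 1)) | bad lam c t θ m}) := by
    intro m hm
    rw [mem_filter, mem_Icc] at hm
    rw [mem_union]
    by_cases h3 : m < 2 ^ i0
    · left; exact mem_range.mpr h3
    · right
      push Not at h3
      rw [mem_biUnion]
      refine ⟨Nat.log 2 m, ?_, ?_⟩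
      · rw [mem_Icc]
        exact ⟨Nat.le_log_of_pow_le (by norm_num) h3, Nat.log_mono_right hm.1.2⟩
      · rw [mem_filter, mem_Ico]
        exact ⟨⟨Nat.pow_log_le_self 2 (by omega), Nat.lt_pow_succ_log_self (by norm_num) m⟩, hm.2⟩
  set ex : ℝ := Real.exp (-(Real.log (x / 4)) ^ E1) with hex
  have hex0 : 0 < ex := Real.exp_pos _
  have hlx4 : 0 ≤ Real.log (x / 4) := Real.log_nonneg (by linarith)
  set D : ℝ := C * (2 * x) ^ lam + 1 with hD
  have hD0 : 0 < D := by positivity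
  have hterm : ∀ i ∈ Icc i0 I, ((#{m ∈ Ico (2 ^ i) (2 ^ (i + 1)) | bad lam c t θ m} : ℕ) : ℝ) ≤
      D + D * (3 * 2 ^ i * ex) := by
    intro i hi
    rw [mem_Icc] at hi
    have h3 := hi1 i (by omega)
    have hi2x : (i:ℝ) ≤ 2 * x := by
      have : (i:ℝ) ≤ I := by exact_mod_cast hi.2
      linarith
    have hxi : x / 4 ≤ i := by
      have : (i0:ℝ) ≤ i := by exact_mod_cast hi.1
      linarith
    have h4 : C * (i:ℝ) ^ lam + 1 ≤ D := by
      rw [hD]
      have := Real.rpow_le_rpow (by positivity) hi2x (show 0 ≤ lam by linarith)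
      gcongr
    have h5 : Real.exp (-(Real.log i) ^ E1) ≤ ex := by
      rw [hex]
      apply Real.exp_le_exp.mpr
      have h6 : Real.log (x / 4) ≤ Real.log i := Real.log_le_log (by linarith) hxi
      have := Real.rpow_le_rpow hlx4 h6 (show 0 ≤ E1 by linarith)
      linarith
    refine h3.trans ?_
    gcongr
  have hcard : ((#{m ∈ Icc 3 X | bad lam c t θ m} : ℕ) : ℝ) ≤
      2 ^ i0 + ∑ i ∈ Icc i0 I, (D + D * (3 * 2 ^ i * ex)) := by
    have h3 : (#{m ∈ Icc 3 X | bad lam c t θ m}) ≤ 2 ^ i0 +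
        ∑ i ∈ Icc i0 I, #{m ∈ Ico (2 ^ i) (2 ^ (i + 1)) | bad lam c t θ m} := by
      refine (card_le_card hsub).trans ((card_union_le _ _).trans ?_)
      rw [card_range]
      exact Nat.add_le_add_left card_biUnion_le _
    have h4 : ((#{m ∈ Icc 3 X | bad lam c t θ m} : ℕ) : ℝ) ≤ 2 ^ i0 +
        ∑ i ∈ Icc i0 I, ((#{m ∈ Ico (2 ^ i) (2 ^ (i + 1)) | bad lam c t θ m} : ℕ) : ℝ) := by
      exact_mod_cast h3
    refine h4.trans ?_
    gcongr with i hi
    exact hterm i hi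
  have hgeom : ∑ i ∈ Icc i0 I, (2:ℝ) ^ i ≤ 2 * Real.exp x := by
    have h3 : ∑ i ∈ Icc i0 I, (2:ℝ) ^ i ≤ ∑ i ∈ range (I + 1), (2:ℝ) ^ i := by
      apply Finset.sum_le_sum_of_subset_of_nonneg
      · intro i hi
        rw [mem_Icc] at hi
        exact mem_range.mpr (by omega)
      · intros; positivity
    have h4 : ∑ i ∈ range (I + 1), (2:ℝ) ^ i = 2 ^ (I + 1) - 1 := by
      rw [geom_sum_eq (by norm_num)]; norm_num
    rw [h4] at h3
    rw [hexp]
    have : (2:ℝ) ^ (I + 1) = 2 * 2 ^ I := by rw [pow_succ]; ring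
    linarith
  have hcardI : ((#(Icc i0 I) : ℕ) : ℝ) ≤ 2 * x + 1 := by
    rw [Nat.card_Icc]
    have : ((I + 1 - i0 : ℕ) : ℝ) ≤ I + 1 := by
      have : I + 1 - i0 ≤ I + 1 := Nat.sub_le _ _
      exact_mod_cast this
    linarith
  have hpow : (2:ℝ) ^ i0 ≤ Real.exp (x / 2) := by
    have h3 : ((2:ℝ) ^ i0) ^ 2 ≤ (Real.exp (x / 2)) ^ 2 := by
      rw [← Real.exp_nat_mul]
      have e1 : ((2:ℕ):ℝ) * (x / 2) = x := by push_cast; ring
      rw [e1, hexp, ← pow_mul]
      calc (2:ℝ) ^ (i0 * 2) ≤ 2 ^ I := by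
            apply pow_le_pow_right₀ (by norm_num)
            omega
        _ ≤ X := hIX'
    exact le_of_sq_le_sq h3 (Real.exp_pos _).le
  have hgoal : ((#{m ∈ Icc 3 X | bad lam c t θ m} : ℕ) : ℝ) ≤
      X * Real.exp (-(Real.log x) ^ E) := by
    refine hcard.trans ?_
    rw [Finset.sum_add_distrib, Finset.sum_const, nsmul_eq_mul]
    have e1 : ∑ i ∈ Icc i0 I, D * (3 * 2 ^ i * ex) = 3 * D * ex * ∑ i ∈ Icc i0 I, (2:ℝ) ^ i := by
      rw [Finset.mul_sum]
      exact Finset.sum_congr rfl fun i _ => by ring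
    rw [e1, ← hexp]
    calc (2:ℝ) ^ i0 + (((#(Icc i0 I) : ℕ) : ℝ) * D + 3 * D * ex * ∑ i ∈ Icc i0 I, (2:ℝ) ^ i)
        ≤ Real.exp (x / 2) + ((2 * x + 1) * D + 3 * D * ex * (2 * Real.exp x)) := by
          gcongr
      _ = Real.exp (x / 2) + (2 * x + 1) * D + 6 * D * Real.exp x * ex := by ring
      _ ≤ _ := hfin
  convert hgoal using 3
  ext m
  constructor
  · intro h3
    rw [mem_filter] at h3 ⊢
    exact h3
  · intro h3
    rw [mem_filter] at h3 ⊢
    exact h3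

end Pool.Agent.LibDev91
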