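import Mathlib

/-!
Definitions: the rough numbers in a window, Granville's densities.
-/

namespace Pool.Agent.LibDev91

open Finset

/-- `∏_{p ≤ z} (1 - 1/p)` -/
noncomputable def vee (z : ℕ) : ℝ := ∏ q ∈ (range (z + 1)).filter Nat.Prime, (1 - 1 / (q : ℝ))

/-- the number of the `1 ≤ j ≤ h` for which `n + j` has no prime factor `≤ z` -/
def rough (z h n : ℕ) : ℕ := #{j ∈ Icc 1 h | (n + j).Coprime (primorial z)}

/-- the sieving level at `n`: `(log n)^θ`, constant on the dyadic ranges `2^i ≤ n < 2^(i+1)` -/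
noncomputable def level (θ : ℝ) (n : ℕ) : ℕ := ⌊(Nat.log 2 n : ℝ) ^ θ⌋₊

/-- Granville's density: `0` if `n` has a prime factor `≤ level θ n`, and otherwise
`(1 / log n) ∏_{p ≤ level θ n} (1 - 1/p)⁻¹` -/
noncomputable def gran (θ : ℝ) (n : ℕ) : ℝ :=
  if n.Coprime (primorial (level θ n)) then 1 / (vee (level θ n) * Real.log n) else 0

end Pool.Agent.LibDev91
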