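import Pool.Agent.LibDev91.Count
import Pool.Agent.LibH.Model

/-!
The number of deviating windows in Granville's model.
-/

namespace Pool.Agent.LibDev91

open Filter Topology MeasureTheory ProbabilityTheory
open Pool.Agent.LibH

variable {Ω : Type*} [MeasurableSpace Ω] {μ : Measure Ω}

/-- the rate dominates the powers of `log log X` below the critical one -/
lemma rate_big {lam c t A E' : ℝ} (hlam : 1 < lam) (hc : 0 < c) (ht0 : 0 < t) (ht : t ≤ 1 / 2)
    (hA : 0 ≤ A) (hA2 : t = 1 / 2 → lam / (lam - 1) ≤ A) (hE' : E' < lam / ((lam - 1) * t)) :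
    ∀ᶠ X : ℕ in atTop, 2 * (Real.log (Real.log X) ^ E' + Real.log 2) ≤ rateH lam c t A X := by
  have hl1 : 0 < lam - 1 := by linarith
  have hLL : Tendsto (fun m : ℕ => Real.log (Real.log (m : ℝ))) atTop atTop :=
    Real.tendsto_log_atTop.comp tendsto_logn
  have hlog2 : Real.log 2 ≤ 1 := by
    have := Real.log_two_lt_d9
    linarith
  have hlog20 : 0 < Real.log 2 := Real.log_pos (by norm_num)
  rcases lt_or_eq_of_le ht with h | h
  · -- `t < 1/2`
    have ha : 0 < (lam - 1) * (1 - 2 * t) := mul_pos hl1 (by linarith)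
    set a := (lam - 1) * (1 - 2 * t) with hadef
    set K : ℝ := c ^ (1 - 2 * t) / 2 with hK
    have hK0 : 0 < K := by positivity
    have h1 := (isLittleO_log_rpow_rpow_atTop (max E' 0) ha).def (c := K / 4) (by positivity)
    filter_upwards [tendsto_logn.eventually h1, tendsto_logn.eventually_gt_atTop 1,
      hLL.eventually_ge_atTop 1] with m h2 h3 h4
    have hl0 : 0 < Real.log (m : ℝ) := by linarith
    have hl : 0 < Real.log (Real.log (m : ℝ)) := by linarith
    rw [Real.norm_of_nonneg (by positivity), Real.norm_of_nonneg (by positivity)] at h2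
    have h5 : rateH lam c t A m = K * Real.log (m : ℝ) ^ a * Real.log (Real.log (m : ℝ)) ^ (2 * A) := by
      unfold rateH
      rw [Real.mul_rpow hc.le (by positivity), ← Real.rpow_mul hl0.le]
      rw [hK]; ring
    have h6 : (1 : ℝ) ≤ Real.log (Real.log (m : ℝ)) ^ (2 * A) :=
      Real.one_le_rpow h4 (by linarith)
    have h7 : Real.log (Real.log (m : ℝ)) ^ E' ≤ Real.log (Real.log (m : ℝ)) ^ (max E' 0) :=
      Real.rpow_le_rpow_of_exponent_le h4 (le_max_left _ _)
    have h8 : (1 : ℝ) ≤ Real.log (Real.log (m : ℝ)) ^ (max E' 0) :=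
      Real.one_le_rpow h4 (le_max_right _ _)
    rw [h5]
    have h9 : 0 < K * Real.log (m : ℝ) ^ a := by positivity
    calc 2 * (Real.log (Real.log (m : ℝ)) ^ E' + Real.log 2)
        ≤ 4 * Real.log (Real.log (m : ℝ)) ^ (max E' 0) := by linarith
      _ ≤ K * Real.log (m : ℝ) ^ a := by linarith
      _ ≤ K * Real.log (m : ℝ) ^ a * Real.log (Real.log (m : ℝ)) ^ (2 * A) :=
          le_mul_of_one_le_right h9.le h6
  · -- `t = 1/2`
    have h1 : E' < 2 * A := by
      have h2 := hA2 h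
      have h3 : lam / ((lam - 1) * t) = 2 * (lam / (lam - 1)) := by rw [h]; field_simp
      rw [h3] at hE'
      linarith
    have h0 : 0 < 2 * A := by
      have h2 := hA2 h
      have : 0 < lam / (lam - 1) := by positivity
      linarith
    have h2 := hLL.eventually (ev_rpow (max E' 0) (2 * A) 8 (max_lt h1 h0))
    filter_upwards [h2, tendsto_logn.eventually_gt_atTop 1, hLL.eventually_ge_atTop 1] with m h3 h4 h5
    have h7 : Real.log (Real.log (m : ℝ)) ^ E' ≤ Real.log (Real.log (m : ℝ)) ^ (max E' 0) :=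
      Real.rpow_le_rpow_of_exponent_le h5 (le_max_left _ _)
    have h8 : (1 : ℝ) ≤ Real.log (Real.log (m : ℝ)) ^ (max E' 0) :=
      Real.one_le_rpow h5 (le_max_right _ _)
    have h9 : rateH lam c t A m = Real.log (Real.log (m : ℝ)) ^ (2 * A) / 2 := by
      unfold rateH
      have e : 1 - 2 * t = 0 := by rw [h]; norm_num
      rw [e, Real.rpow_zero, one_mul]
    rw [h9]
    linarith

/-- both sources of deviations -/
lemma granville_gen [IsProbabilityMeasure μ] {E : ℕ → Set Ω} (hE : ∀ n, MeasurableSet (E n))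
    (hind : iIndepSet E μ) {θ : ℝ} (hθ : 0 ≤ θ) (hθ1 : θ < 1)
    (hp : ∀ᶠ n : ℕ in atTop, μ.real (E n) = gran θ n)
    {lam c t A : ℝ} (hlam : 1 < lam) (hc : 0 < c) (ht0 : 0 < t) (ht : t ≤ 1 / 2)
    (hA : 0 ≤ A) (hA3 : t = 1 / 2 → 1 / 2 < A) (hlt : (lam - 1) * (1 - 2 * t) < 1)
    (E2 : ℝ) (hE2 : E2 < lam / ((lam - 1) * t)) :
    ∀ᵐ ω ∂μ, ∀ e : ℝ, 0 < e → ∀ᶠ X : ℕ in atTop, ∀ s : ℝ, (s = 1 ∨ s = -1) →
      (devCount {n | ω ∈ E n} lam c t A s X : ℝ) ≤
        X * (Real.exp (-(Real.log (Real.log X) ^ E2)) +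
          Real.exp (-(1 - e) * rateH lam c t A X)) := by
  classical
  have hl1 : 0 < lam - 1 := by linarith
  have hLL : Tendsto (fun m : ℕ => Real.log (Real.log (m : ℝ))) atTop atTop :=
    Real.tendsto_log_atTop.comp tendsto_logn
  -- `t1`
  obtain ⟨t1, htt, hθt1, hEt1⟩ : ∃ t1, t < t1 ∧ θ < lam - 2 * (lam - 1) * t1 ∧
      E2 < lam / ((lam - 1) * t1) := by
    have c1 : ContinuousAt (fun s : ℝ => lam - 2 * (lam - 1) * s) t := by fun_prop
    have c2 : ContinuousAt (fun s : ℝ => lam / ((lam - 1) * s)) t := by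
      apply ContinuousAt.div (by fun_prop) (by fun_prop)
      positivity
    have hθ2 : θ < lam - 2 * (lam - 1) * t := by nlinarith
    have e1 := c1.eventually_const_lt hθ2
    have e2 := c2.eventually_const_lt hE2
    have e3 := (e1.and e2).filter_mono (nhdsWithin_le_nhds (s := Set.Ioi t))
    obtain ⟨s, hs, hst⟩ := (e3.and self_mem_nhdsWithin).exists
    exact ⟨s, hst, hs.1, hs.2⟩
  have ht1 : 0 < t1 := by linarith
  have hexc := exc_count lam c t1 θ E2 hlam hc ht1 hθ hθ1 hθt1 hEt1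
  set Gd : Set ℕ := {m | |(∑ n ∈ Finset.Ioc m (m + hl lam c m), gran θ n) - mean lam c m| ≤
    mean lam c m ^ (1 - t1)} with hGd
  have hsum : ∀ ε : ℝ, 0 < ε → ∀ᶠ m : ℕ in atTop, m ∈ Gd →
      |∑ j ∈ Finset.Ioc m (m + hl lam c m), μ.real (E j) - mean lam c m| ≤
        ε * dev lam c t A m := by
    intro ε hε
    obtain ⟨n0, hn0⟩ := eventually_atTop.mp hp
    have hm1 : Tendsto (fun m : ℕ => mean lam c m) atTop atTop := by
      unfold mean
      exact ((tendsto_rpow_atTop (by linarith)).comp tendsto_logn).const_mul_atTop hc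
    have hm2 : Tendsto (fun m : ℕ => mean lam c m ^ (t1 - t)) atTop atTop :=
      (tendsto_rpow_atTop (by linarith)).comp hm1
    filter_upwards [hm2.eventually_ge_atTop (1 / ε), hm1.eventually_ge_atTop 1,
      hLL.eventually_ge_atTop 1, eventually_ge_atTop n0] with m h1 h2 h3 h4 h5
    have h6 : ∑ j ∈ Finset.Ioc m (m + hl lam c m), μ.real (E j) =
        ∑ j ∈ Finset.Ioc m (m + hl lam c m), gran θ j := by
      apply Finset.sum_congr rfl
      intro j hj
      rw [Finset.mem_Ioc] at hj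
      exact hn0 j (by omega)
    rw [h6]
    have h5' : |(∑ n ∈ Finset.Ioc m (m + hl lam c m), gran θ n) - mean lam c m| ≤
      mean lam c m ^ (1 - t1) := h5
    refine h5'.trans ?_
    unfold dev
    have hM : 0 < mean lam c m := by linarith
    have h7 : mean lam c m ^ (1 - t) = mean lam c m ^ (1 - t1) * mean lam c m ^ (t1 - t) := by
      rw [← Real.rpow_add hM]; congr 1; ring
    rw [h7]
    have h8 : (1 : ℝ) ≤ Real.log (Real.log (m : ℝ)) ^ A := Real.one_le_rpow h3 hA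
    have h9 : 1 ≤ ε * mean lam c m ^ (t1 - t) := by
      rw [div_le_iff₀ hε] at h1
      linarith
    have h10 : 0 < mean lam c m ^ (1 - t1) := by positivity
    calc mean lam c m ^ (1 - t1) ≤ mean lam c m ^ (1 - t1) * (ε * mean lam c m ^ (t1 - t)) :=
          le_mul_of_one_le_right h10.le h9
      _ ≤ mean lam c m ^ (1 - t1) * (ε * mean lam c m ^ (t1 - t)) *
            Real.log (Real.log (m : ℝ)) ^ A := by
          apply le_mul_of_one_le_right _ h8
          positivity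
      _ = _ := by ring
  have hEx : ∀ᶠ X : ℕ in atTop, (((Finset.Icc 3 X).filter (fun m => m ∉ Gd)).card : ℝ) ≤
      X * Real.exp (-(Real.log (Real.log X) ^ E2)) := by
    filter_upwards [hexc] with X hX
    refine le_trans ?_ hX
    have h1 : (Finset.Icc 3 X).filter (fun m => m ∉ Gd) ⊆
        (Finset.Icc 3 X).filter (fun m => (mean lam c m) ^ (1 - t1) <
        |(∑ n ∈ Finset.Ioc m (m + hl lam c m), gran θ n) - mean lam c m|) := by
      intro m hm
      rw [Finset.mem_filter] at hm ⊢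
      refine ⟨hm.1, ?_⟩
      by_contra h2
      exact hm.2 (not_lt.mp h2)
    exact_mod_cast Finset.card_le_card h1
  exact ae_upper_of_good hE hind hlam hc ht0 ht hA hA3 hlt Gd hsum hEx

/-- one exponent -/
lemma granville_one [IsProbabilityMeasure μ] {E : ℕ → Set Ω} (hE : ∀ n, MeasurableSet (E n))
    (hind : iIndepSet E μ) {θ : ℝ} (hθ : 0 ≤ θ) (hθ1 : θ < 1)
    (hp : ∀ᶠ n : ℕ in atTop, μ.real (E n) = gran θ n)
    {lam c t A : ℝ} (hlam : 1 < lam) (hc : 0 < c) (ht0 : 0 < t) (ht : t ≤ 1 / 2)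
    (hA : 0 ≤ A) (hA2 : t = 1 / 2 → lam / (lam - 1) ≤ A) (hlt : (lam - 1) * (1 - 2 * t) < 1)
    (E' : ℝ) (hE' : E' < lam / ((lam - 1) * t)) :
    ∀ᵐ ω ∂μ, ∀ᶠ X : ℕ in atTop, ∀ s : ℝ, (s = 1 ∨ s = -1) →
      (devCount {n | ω ∈ E n} lam c t A s X : ℝ) ≤
        X * Real.exp (-(Real.log (Real.log X)) ^ E') := by
  have hl1 : 0 < lam - 1 := by linarith
  have hLL : Tendsto (fun m : ℕ => Real.log (Real.log (m : ℝ))) atTop atTop :=
    Real.tendsto_log_atTop.comp tendsto_logn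
  have hlam1 : 1 < lam / (lam - 1) := by rw [lt_div_iff₀ hl1]; linarith
  have hA3 : t = 1 / 2 → 1 / 2 < A := fun h => by have := hA2 h; linarith
  obtain ⟨E2, hE2a, hE2b⟩ : ∃ E2, max E' 0 < E2 ∧ E2 < lam / ((lam - 1) * t) :=
    exists_between (max_lt hE' (by positivity))
  have hae := granville_gen hE hind hθ hθ1 hp hlam hc ht0 ht hA hA3 hlt E2 hE2b
  filter_upwards [hae] with ω hω
  have hpow := hLL.eventually (ev_rpow (max E' 0) E2 2 hE2a)
  filter_upwards [hω (1 / 2) (by norm_num), hpow, hLL.eventually_ge_atTop 1,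
    rate_big hlam hc ht0 ht hA hA2 hE'] with X h1 h2 h3 h4 s hs
  refine (h1 s hs).trans ?_
  have hlog2 : Real.log 2 ≤ 1 := by
    have := Real.log_two_lt_d9
    linarith
  have h7 : Real.log (Real.log (X : ℝ)) ^ E' ≤ Real.log (Real.log (X : ℝ)) ^ (max E' 0) :=
    Real.rpow_le_rpow_of_exponent_le h3 (le_max_left _ _)
  have h8 : (1 : ℝ) ≤ Real.log (Real.log (X : ℝ)) ^ (max E' 0) :=
    Real.one_le_rpow h3 (le_max_right _ _)
  have e1 : Real.exp (-(Real.log (Real.log X) ^ E2)) ≤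
      Real.exp (-(Real.log (Real.log X)) ^ E' - Real.log 2) := by
    apply Real.exp_le_exp.mpr
    linarith
  have e2 : Real.exp (-(1 - 1 / 2) * rateH lam c t A X) ≤
      Real.exp (-(Real.log (Real.log X)) ^ E' - Real.log 2) := by
    apply Real.exp_le_exp.mpr
    linarith
  have e3 : Real.exp (-(Real.log (Real.log X)) ^ E' - Real.log 2) =
      Real.exp (-(Real.log (Real.log X)) ^ E') / 2 := by
    rw [Real.exp_sub, Real.exp_log (by norm_num)]
  rw [e3] at e1 e2
  have hX : (0:ℝ) ≤ X := by positivity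
  apply mul_le_mul_of_nonneg_left _ hX
  linarith

/-- `t = 1/2` below the threshold: the bound of Cramér's model -/
theorem granville_small [IsProbabilityMeasure μ] {E : ℕ → Set Ω} (hE : ∀ n, MeasurableSet (E n))
    (hind : iIndepSet E μ) {θ : ℝ} (hθ : 0 ≤ θ) (hθ1 : θ < 1)
    (hp : ∀ᶠ n : ℕ in atTop, μ.real (E n) = gran θ n)
    {lam c A : ℝ} (hlam : 1 < lam) (hc : 0 < c) (hA : 1 / 2 < A) (hA2 : A < lam / (lam - 1)) :
    ∀ᵐ ω ∂μ, ∀ e : ℝ, 0 < e → ∀ᶠ X : ℕ in atTop, ∀ s : ℝ, (s = 1 ∨ s = -1) →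
      (devCount {n | ω ∈ E n} lam c (1 / 2) A s X : ℝ) ≤
        X * Real.exp (-(1 - e) * (Real.log (Real.log X) ^ (2 * A) / 2)) := by
  have hl1 : 0 < lam - 1 := by linarith
  have hLL : Tendsto (fun m : ℕ => Real.log (Real.log (m : ℝ))) atTop atTop :=
    Real.tendsto_log_atTop.comp tendsto_logn
  obtain ⟨E2, hE2a, hE2b⟩ : ∃ E2, 2 * A < E2 ∧ E2 < lam / ((lam - 1) * (1 / 2)) := by
    apply exists_between
    have e : lam / ((lam - 1) * (1 / 2)) = 2 * (lam / (lam - 1)) := by field_simp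
    rw [e]
    linarith
  have hae := granville_gen (A := A) hE hind hθ hθ1 hp hlam hc (by norm_num) (le_refl _)
    (by linarith) (fun _ => hA) (by norm_num) E2 hE2b
  filter_upwards [hae] with ω hω e he
  have hpow := hLL.eventually (ev_rpow (2 * A) E2 1 hE2a)
  have hpow2 := hLL.eventually (ev_rpow 0 (2 * A) (4 * Real.log 2 / e) (by linarith))
  filter_upwards [hω (e / 2) (by positivity), hpow, hpow2, hLL.eventually_ge_atTop 1,
    hLL.eventually_ge_atTop 1]
    with X h1 h2 h3 h4 h5 s hs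
  refine (h1 s hs).trans ?_
  set y := Real.log (Real.log (X : ℝ)) with hy
  have hR : rateH lam c (1 / 2) A X = y ^ (2 * A) / 2 := by
    unfold rateH
    have e : (1 : ℝ) - 2 * (1 / 2) = 0 := by norm_num
    rw [e, Real.rpow_zero, one_mul]
  rw [hR]
  rw [Real.rpow_zero, mul_one] at h3
  have hlog2 : 0 < Real.log 2 := Real.log_pos (by norm_num)
  have hy2 : 0 < y ^ (2 * A) := by positivity
  have h6 : Real.log 2 ≤ e / 2 * (y ^ (2 * A) / 2) := by
    rw [div_le_iff₀ he] at h3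
    linarith
  have e3 : Real.exp (-(1 - e) * (y ^ (2 * A) / 2) - Real.log 2) =
      Real.exp (-(1 - e) * (y ^ (2 * A) / 2)) / 2 := by
    rw [Real.exp_sub, Real.exp_log (by norm_num)]
  have e1 : Real.exp (-(y ^ E2)) ≤ Real.exp (-(1 - e) * (y ^ (2 * A) / 2) - Real.log 2) := by
    apply Real.exp_le_exp.mpr
    nlinarith
  have e2 : Real.exp (-(1 - e / 2) * (y ^ (2 * A) / 2)) ≤
      Real.exp (-(1 - e) * (y ^ (2 * A) / 2) - Real.log 2) := by
    apply Real.exp_le_exp.mpr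
    nlinarith
  rw [e3] at e1 e2
  have hX : (0:ℝ) ≤ X := by positivity
  apply mul_le_mul_of_nonneg_left _ hX
  linarith

/-- **Granville's model**: almost surely there are at most
`X exp(-(log log X)^{λ/((λ-1)t) - e})` deviating windows. -/
theorem granville_dev [IsProbabilityMeasure μ] {E : ℕ → Set Ω} (hE : ∀ n, MeasurableSet (E n))
    (hind : iIndepSet E μ) {θ : ℝ} (hθ : 0 ≤ θ) (hθ1 : θ < 1)
    (hp : ∀ᶠ n : ℕ in atTop, μ.real (E n) = gran θ n)
    {lam c t A : ℝ} (hlam : 1 < lam) (hc : 0 < c) (ht0 : 0 < t) (ht : t ≤ 1 / 2)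
    (hA : 0 ≤ A) (hA2 : t = 1 / 2 → lam / (lam - 1) ≤ A) (hlt : (lam - 1) * (1 - 2 * t) < 1) :
    ∀ᵐ ω ∂μ, ∀ e : ℝ, 0 < e → ∀ᶠ X : ℕ in atTop, ∀ s : ℝ, (s = 1 ∨ s = -1) →
      (devCount {n | ω ∈ E n} lam c t A s X : ℝ) ≤
        X * Real.exp (-(Real.log (Real.log X)) ^ (lam / ((lam - 1) * t) - e)) := by
  have hLL : Tendsto (fun m : ℕ => Real.log (Real.log (m : ℝ))) atTop atTop :=
    Real.tendsto_log_atTop.comp tendsto_logn
  have h1 : ∀ᵐ ω ∂μ, ∀ k : ℕ, ∀ᶠ X : ℕ in atTop, ∀ s : ℝ, (s = 1 ∨ s = -1) →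
      (devCount {n | ω ∈ E n} lam c t A s X : ℝ) ≤
        X * Real.exp (-(Real.log (Real.log X)) ^ (lam / ((lam - 1) * t) - 1 / ((k : ℝ) + 1))) := by
    rw [ae_all_iff]
    intro k
    apply granville_one hE hind hθ hθ1 hp hlam hc ht0 ht hA hA2 hlt
    have : (0:ℝ) < 1 / ((k : ℝ) + 1) := by positivity
    linarith
  filter_upwards [h1] with ω hω e he
  obtain ⟨k, hk⟩ := exists_nat_one_div_lt he
  filter_upwards [hω k, hLL.eventually_ge_atTop 1] with X h2 h3 s hs
  refine (h2 s hs).trans ?_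
  have h4 := Real.rpow_le_rpow_of_exponent_le h3
    (show lam / ((lam - 1) * t) - e ≤ lam / ((lam - 1) * t) - 1 / ((k : ℝ) + 1) by linarith)
  have h5 := Real.exp_le_exp.mpr (neg_le_neg h4)
  have hX : (0:ℝ) ≤ X := by positivity
  exact mul_le_mul_of_nonneg_left h5 hX

end Pool.Agent.LibDev91
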