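import Pool.Agent.LibDev91.Moment

/-!
The effect of one more sieving prime on the moments.
-/

namespace Pool.Agent.LibDev91

open Finset

/-- The weighted count of the elements `j` of the window `[1, h]` for which `n + j` has no prime
factor in `Q`, normalised. -/
noncomputable def sv (Q : Finset ℕ) (n : ℕ) (f : ℕ → ℝ) (h : ℕ) : ℝ :=
  ∑ j ∈ Icc 1 h, f j * ∏ q ∈ Q, (if q ∣ n + j then 0 else (1 - 1 / (q : ℝ))⁻¹)

/-- The `2k`-th moment of `sv - v` over `n` modulo `∏ Q` is at most `x ^ k`. -/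
def MB (Q : Finset ℕ) (k h : ℕ) (f : ℕ → ℝ) (v x : ℝ) : Prop :=
  ∑ n ∈ range (∏ q ∈ Q, q), (sv Q n f h - v) ^ (2 * k) ≤ (∏ q ∈ Q, (q : ℝ)) * x ^ k

/-- Chinese remainders for sums. -/
lemma sum_crt (P q : ℕ) (hP : 0 < P) (hq : 0 < q) (hc : P.Coprime q) (F : ℕ → ℕ → ℝ) :
    ∑ n ∈ range (P * q), F (n % P) (n % q) = ∑ r ∈ range P, ∑ a ∈ range q, F r a := by
  rw [← Finset.sum_product']
  apply Finset.sum_nbij (fun n => (n % P, n % q))
  · intro n _
    simp only [mem_product, mem_range]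
    exact ⟨Nat.mod_lt _ hP, Nat.mod_lt _ hq⟩
  · intro n hn n' hn' h
    simp only [coe_range, Set.mem_Iio] at hn hn'
    simp only [Prod.mk.injEq] at h
    have h1 : n ≡ n' [MOD P * q] := (Nat.modEq_and_modEq_iff_modEq_mul hc).mp h
    have := Nat.ModEq.eq_of_lt_of_lt h1 hn hn'
    exact this
  · intro x hx
    simp only [coe_product, coe_range, Set.mem_prod, Set.mem_Iio] at hx
    refine ⟨(Nat.chineseRemainder hc x.1 x.2 : ℕ), ?_, ?_⟩
    · simp only [coe_range, Set.mem_Iio]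
      exact Nat.chineseRemainder_lt_mul hc x.1 x.2 hP.ne' hq.ne'
    · have h1 := (Nat.chineseRemainder hc x.1 x.2).2
      have h2 : (Nat.chineseRemainder hc x.1 x.2 : ℕ) % P = x.1 := by
        rw [h1.1]; exact Nat.mod_eq_of_lt hx.1
      have h3 : (Nat.chineseRemainder hc x.1 x.2 : ℕ) % q = x.2 := by
        rw [h1.2]; exact Nat.mod_eq_of_lt hx.2
      simp only [h2, h3]
  · intro n _; rfl

lemma sv_mod (Q : Finset ℕ) (n : ℕ) (f : ℕ → ℝ) (h : ℕ) :
    sv Q n f h = sv Q (n % (∏ q ∈ Q, q)) f h := by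
  unfold sv
  apply Finset.sum_congr rfl
  intro j _
  congr 1
  apply Finset.prod_congr rfl
  intro q hq
  have h1 : q ∣ ∏ q ∈ Q, q := Finset.dvd_prod_of_mem _ hq
  have h2 : q ∣ n + j ↔ q ∣ n % (∏ q ∈ Q, q) + j := by
    have : n ≡ n % (∏ q ∈ Q, q) [MOD q] := by
      unfold Nat.ModEq
      rw [Nat.mod_mod_of_dvd n h1]
    exact (this.add_right j).dvd_iff (dvd_refl q)
  simp only [h2]

/-- The weight `f` restricted to the `j` with `q ∣ a + j`. -/
noncomputable def res (q a : ℕ) (f : ℕ → ℝ) : ℕ → ℝ := fun j => if q ∣ a + j then f j else 0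

lemma sv_insert (Q : Finset ℕ) (q : ℕ) (hqQ : q ∉ Q) (n : ℕ) (f : ℕ → ℝ)
    (h : ℕ) :
    sv (insert q Q) n f h = (1 - 1 / (q : ℝ))⁻¹ * (sv Q n f h - sv Q n (res q (n % q) f) h) := by
  unfold sv res
  rw [← Finset.sum_sub_distrib, Finset.mul_sum]
  apply Finset.sum_congr rfl
  intro j _
  rw [Finset.prod_insert hqQ]
  have h2 : q ∣ n + j ↔ q ∣ n % q + j := by
    have : n ≡ n % q [MOD q] := (Nat.mod_mod n q).symm
    exact (this.add_right j).dvd_iff (dvd_refl q)
  by_cases h3 : q ∣ n + j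
  · rw [if_pos h3, if_pos (h2.mp h3)]; ring
  · rw [if_neg h3, if_neg (fun h4 => h3 (h2.mpr h4))]; ring

/-- The sum over all the classes of the restricted counts. -/
lemma sum_res (Q : Finset ℕ) (q : ℕ) (hq : 0 < q) (n : ℕ) (f : ℕ → ℝ) (h : ℕ) :
    ∑ a ∈ range q, sv Q n (res q a f) h = sv Q n f h := by
  unfold sv res
  rw [Finset.sum_comm]
  apply Finset.sum_congr rfl
  intro j _
  rw [← Finset.sum_mul]
  congr 1
  have h1 : ∀ a ∈ range q, (q ∣ a + j ↔ a = (q - j % q) % q) := by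
    intro a ha
    rw [mem_range] at ha
    have hj : j % q < q := Nat.mod_lt _ hq
    have h2 : q ∣ a + j ↔ q ∣ a + j % q := by
      have : a + j ≡ a + j % q [MOD q] := (Nat.mod_modEq j q).symm.add_left a
      exact this.dvd_iff (dvd_refl q)
    rw [h2]
    generalize j % q = t at hj
    constructor
    · intro h3
      rcases Nat.eq_zero_or_pos (a + t) with h4 | h4
      · have h5 : t = 0 := by omega
        have h6 : a = 0 := by omega
        rw [h5, h6]; simp
      · have h5 : q ≤ a + t := Nat.le_of_dvd h4 h3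
        have h6 : q ∣ a + t - q := Nat.dvd_sub h3 (dvd_refl q)
        have h7 : a + t - q < q := by omega
        have h8 := Nat.eq_zero_of_dvd_of_lt h6 h7
        have h9 : a = q - t := by omega
        have h10 : q - t < q := by omega
        rw [h9, Nat.mod_eq_of_lt h10]
    · intro h3
      rcases Nat.eq_zero_or_pos t with h4 | h4
      · rw [h4] at h3 ⊢
        simp at h3
        subst h3; simp
      · rw [Nat.mod_eq_of_lt (by omega)] at h3
        have : a + t = q := by omega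
        rw [this]
  rw [Finset.sum_congr rfl (fun a ha => by rw [if_congr (h1 a ha) rfl rfl])]
  rw [Finset.sum_ite_eq' (range q) ((q - j % q) % q) (fun _ => f j)]
  rw [if_pos (mem_range.mpr (Nat.mod_lt _ hq))]

/-- One more prime. -/
theorem step (Q : Finset ℕ) (hQ : ∀ p ∈ Q, p.Prime) (q : ℕ) (hq : q.Prime) (hqQ : q ∉ Q)
    (k : ℕ) (hk : 1 ≤ k) (h : ℕ) (f : ℕ → ℝ) (v x y : ℝ) (hx : 0 ≤ x) (hy : 0 ≤ y)
    (h1 : MB Q k h f v x) (h2 : ∀ a < q, MB Q k h (res q a f) (v / q) y) :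
    MB (insert q Q) k h f v ((1 + 40 * k / q ^ 2) * x + 40 * k * y) := by
  have hq2 : (2 : ℝ) ≤ q := by exact_mod_cast hq.two_le
  have hq0 : (0 : ℝ) < q := by linarith
  have hk1 : (1 : ℝ) ≤ k := by exact_mod_cast hk
  set P : ℕ := ∏ p ∈ Q, p with hPdef
  have hP0 : 0 < P := Finset.prod_pos (fun p hp => (hQ p hp).pos)
  have hc : P.Coprime q := by
    rw [hPdef]
    apply Nat.Coprime.prod_left
    intro p hp
    exact (Nat.coprime_primes (hQ p hp) hq).mpr (fun h => hqQ (h ▸ hp))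
  have hPR : (P : ℝ) = ∏ p ∈ Q, (p : ℝ) := by rw [hPdef]; push_cast; rfl
  unfold MB
  rw [Finset.prod_insert hqQ, Finset.prod_insert hqQ]
  rw [← hPdef, ← hPR, mul_comm q P]
  -- the increments
  set U : ℕ → ℝ := fun r => sv Q r f h - v with hU
  set A : ℕ → ℕ → ℝ := fun r a => sv Q r (res q a f) h - v / q with hA
  set lam : ℝ := (1 - 1 / (q : ℝ))⁻¹ with hlam
  have hlam1 : 0 < 1 - 1 / (q : ℝ) := by
    have : 1 / (q : ℝ) ≤ 1 / 2 := by
      apply one_div_le_one_div_of_le <;> linarith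
    linarith
  have hlam2 : lam ≤ 2 := by
    rw [hlam]
    have : 1 / (q : ℝ) ≤ 1 / 2 := by
      apply one_div_le_one_div_of_le <;> linarith
    rw [inv_le_comm₀ hlam1 (by norm_num)]
    linarith
  have hlam0 : 0 < lam := inv_pos.mpr hlam1
  set d : ℕ → ℕ → ℝ := fun r a => lam * (U r / q - A r a) with hd
  have e1 : ∑ n ∈ range (P * q), (sv (insert q Q) n f h - v) ^ (2 * k) =
      ∑ r ∈ range P, ∑ a ∈ range q, (U r + d r a) ^ (2 * k) := by
    rw [← sum_crt P q hP0 hq.pos hc (fun r a => (U r + d r a) ^ (2 * k))]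
    apply Finset.sum_congr rfl
    intro n _
    congr 1
    rw [sv_insert Q q hqQ n f h, sv_mod Q n f h, sv_mod Q n (res q (n % q) f) h, ← hPdef]
    simp only [hU, hA, hd]
    have : lam * (1 - 1 / (q : ℝ)) = 1 := by
      rw [hlam]; exact inv_mul_cancel₀ hlam1.ne'
    rw [← hlam]
    linear_combination (sv Q (n % P) f h) * this
  have e2 : ∀ r, ∑ a ∈ range q, d r a = 0 := by
    intro r
    simp only [hd, hU, hA]
    rw [← Finset.mul_sum, Finset.sum_sub_distrib, Finset.sum_sub_distrib,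
      sum_res Q q hq.pos r f h]
    simp only [Finset.sum_const, card_range, nsmul_eq_mul]
    field_simp
    ring
  have e3 : ∀ r a, (U r + d r a) ^ (2 * k) ≤ 2 * k * (U r) ^ (2 * k - 1) * d r a +
      ((1 + 40 * k / q ^ 2) * (U r) ^ 2 + 40 * k * (A r a) ^ 2) ^ k := by
    intro r a
    have h3 := scalar k hk (U r) (d r a)
    have h4 : (U r) ^ 2 + 5 * k * (d r a) ^ 2 ≤
        (1 + 40 * k / q ^ 2) * (U r) ^ 2 + 40 * k * (A r a) ^ 2 := by
      have h5 : (d r a) ^ 2 ≤ 8 * ((U r) ^ 2 / q ^ 2 + (A r a) ^ 2) := by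
        simp only [hd]
        rw [mul_pow]
        have h6 : lam ^ 2 ≤ 4 := by nlinarith
        have h7 : (U r / q - A r a) ^ 2 ≤ 2 * ((U r) ^ 2 / q ^ 2 + (A r a) ^ 2) := by
          have : (U r) ^ 2 / q ^ 2 = (U r / q) ^ 2 := by rw [div_pow]
          rw [this]
          nlinarith [sq_nonneg (U r / q + A r a)]
        nlinarith [sq_nonneg (U r / q - A r a)]
      have h8 : (1 + 40 * k / q ^ 2) * (U r) ^ 2 + 40 * k * (A r a) ^ 2 =
          (U r) ^ 2 + 5 * k * (8 * ((U r) ^ 2 / q ^ 2 + (A r a) ^ 2)) := by ring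
      rw [h8]
      have : (0:ℝ) ≤ 5 * k := by linarith
      nlinarith
    have h9 : ((U r) ^ 2 + 5 * k * (d r a) ^ 2) ^ k ≤
        ((1 + 40 * k / q ^ 2) * (U r) ^ 2 + 40 * k * (A r a) ^ 2) ^ k :=
      pow_le_pow_left₀ (by positivity) h4 k
    linarith
  rw [e1]
  have e4 : ∑ r ∈ range P, ∑ a ∈ range q, (U r + d r a) ^ (2 * k) ≤
      ∑ r ∈ range P, ∑ a ∈ range q,
        ((1 + 40 * k / q ^ 2) * (U r) ^ 2 + 40 * k * (A r a) ^ 2) ^ k := by
    apply Finset.sum_le_sum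
    intro r _
    calc ∑ a ∈ range q, (U r + d r a) ^ (2 * k)
        ≤ ∑ a ∈ range q, (2 * k * (U r) ^ (2 * k - 1) * d r a +
          ((1 + 40 * k / q ^ 2) * (U r) ^ 2 + 40 * k * (A r a) ^ 2) ^ k) :=
          Finset.sum_le_sum (fun a _ => e3 r a)
      _ = _ := by
          rw [Finset.sum_add_distrib, ← Finset.mul_sum, e2 r, mul_zero, zero_add]
  refine le_trans e4 ?_
  rw [← Finset.sum_product' (range P) (range q)
    (fun r a => ((1 + 40 * k / (q:ℝ) ^ 2) * (U r) ^ 2 + 40 * k * (A r a) ^ 2) ^ k)]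
  have h3 := mink (range P ×ˢ range q) k hk
    (fun i => (1 + 40 * k / (q:ℝ) ^ 2) * (U i.1) ^ 2) (fun i => 40 * k * (A i.1 i.2) ^ 2)
    (fun i _ => by positivity) (fun i _ => by positivity)
    (q * P : ℝ) ((1 + 40 * k / (q:ℝ) ^ 2) * x) (40 * k * y) (by positivity) (by positivity)
    ?_ ?_
  · exact h3
  · rw [Finset.sum_product]
    simp only [Finset.sum_const, card_range, nsmul_eq_mul, mul_pow]
    rw [← Finset.mul_sum, ← Finset.mul_sum]
    unfold MB at h1
    rw [← hPdef, ← hPR] at h1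
    have h4 : ∑ r ∈ range P, (U r ^ 2) ^ k ≤ P * x ^ k := by
      simp only [← pow_mul]
      exact h1
    have h5 : (0 : ℝ) ≤ (1 + 40 * k / (q:ℝ) ^ 2) ^ k := by positivity
    calc (q : ℝ) * ((1 + 40 * k / (q:ℝ) ^ 2) ^ k * ∑ r ∈ range P, (U r ^ 2) ^ k)
        ≤ (q : ℝ) * ((1 + 40 * k / (q:ℝ) ^ 2) ^ k * (P * x ^ k)) := by gcongr
      _ = _ := by ring
  · rw [Finset.sum_product_right]
    simp only [mul_pow]
    have h4 : ∀ a ∈ range q, ∑ r ∈ range P, (40:ℝ) ^ k * (k:ℝ) ^ k * (A r a ^ 2) ^ k ≤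
        (40:ℝ) ^ k * (k:ℝ) ^ k * (P * y ^ k) := by
      intro a ha
      have h5 := h2 a (mem_range.mp ha)
      unfold MB at h5
      rw [← hPdef, ← hPR] at h5
      rw [← Finset.mul_sum]
      simp only [← pow_mul]
      gcongr
    calc ∑ a ∈ range q, ∑ r ∈ range P, (40:ℝ) ^ k * (k:ℝ) ^ k * (A r a ^ 2) ^ k
        ≤ ∑ a ∈ range q, (40:ℝ) ^ k * (k:ℝ) ^ k * (P * y ^ k) := Finset.sum_le_sum h4
      _ = _ := by
          simp only [Finset.sum_const, card_range, nsmul_eq_mul]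
          ring

end Pool.Agent.LibDev91
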