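import Pool.Agent.LibDev91.CountB
import Pool.Agent.LibDev91.Step
import Pool.Agent.LibH.Omega

/-!
The residue classes modulo `primorial T` in which the sieve count of a window deviates, from one
residue class modulo the product of a smaller set of primes.
-/

namespace Pool.Agent.LibDev91

open Finset Filter Topology
open Pool.Agent.LibG2.PS (pr Pz V R er erz V_pos D1_pf)

/-- the product of the primes `≤ T` outside the set -/
def Pc (s : Pool.Agent.LibG2.PS.PSet) (T : ℕ) : ℕ := ∏ p ∈ (range (T + 1)).filter (fun p => p.Prime ∧ p ∉ pr s), p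

lemma Pc_pos (s : Pool.Agent.LibG2.PS.PSet) (T : ℕ) : 0 < Pc s T :=
  Finset.prod_pos fun _ hp => (mem_filter.mp hp).2.1.pos

lemma Pz_mul_Pc (s : Pool.Agent.LibG2.PS.PSet) (T : ℕ) (hs : ∀ p ∈ pr s, p ≤ T) : Pz s * Pc s T = primorial T := by
  classical
  unfold Pz Pc primorial
  rw [← Finset.prod_union]
  · apply Finset.prod_congr _ (fun _ _ => rfl)
    ext p
    simp only [mem_union, mem_filter, mem_range]
    constructor
    · rintro (h | ⟨h1, h2, _⟩)
      · exact ⟨by have := hs p h; omega, s.prime p h⟩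
      · exact ⟨h1, h2⟩
    · rintro ⟨h1, h2⟩
      by_cases h : p ∈ pr s
      · exact Or.inl h
      · exact Or.inr ⟨h1, h2, h⟩
  · rw [Finset.disjoint_left]
    intro p h1 h2
    exact (mem_filter.mp h2).2.2 h1

lemma Pz_coprime_Pc (s : Pool.Agent.LibG2.PS.PSet) (T : ℕ) : (Pz s).Coprime (Pc s T) := by
  unfold Pz Pc
  apply Nat.Coprime.prod_left
  intro p hp
  apply Nat.Coprime.prod_right
  intro q hq
  rw [mem_filter] at hq
  refine (Nat.coprime_primes (s.prime p hp) hq.2.1).mpr ?_
  rintro rfl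
  exact hq.2.2 hp

lemma Pz_pos (s : Pool.Agent.LibG2.PS.PSet) : 0 < Pz s := Finset.prod_pos fun p hp => (s.prime p hp).pos

lemma totient_Pz (s : Pool.Agent.LibG2.PS.PSet) : ((Pz s).totient : ℝ) = Pz s * V s := by
  have h1 := Nat.totient_eq_mul_prod_factors (Pz s)
  have h2 : (((Pz s).totient : ℚ) : ℝ) =
      (((Pz s : ℚ) * ∏ p ∈ (Pz s).primeFactors, (1 - (p : ℚ)⁻¹) : ℚ) : ℝ) := by rw [h1]
  push_cast at h2
  rw [h2, D1_pf]
  unfold V
  simp only [one_div]

lemma totient_primorial (T : ℕ) : ((primorial T).totient : ℝ) = primorial T * vee T := by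
  have h1 := Nat.totient_eq_mul_prod_factors (primorial T)
  have h2 : (((primorial T).totient : ℚ) : ℝ) =
      (((primorial T : ℚ) * ∏ p ∈ (primorial T).primeFactors, (1 - (p : ℚ)⁻¹) : ℚ) : ℝ) := by
    rw [h1]
  push_cast at h2
  rw [h2]
  unfold vee
  simp only [one_div]
  congr 1
  apply Finset.prod_congr _ (fun _ _ => rfl)
  unfold primorial
  exact Nat.primeFactors_prod fun _ hp => (mem_filter.mp hp).2

/-- the proportion of the residues modulo `Pc` prime to it -/
lemma totient_Pc (s : Pool.Agent.LibG2.PS.PSet) (T : ℕ) (hs : ∀ p ∈ pr s, p ≤ T) :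
    ((Pc s T).totient : ℝ) * V s = Pc s T * vee T := by
  have h1 := totient_primorial T
  rw [← Pz_mul_Pc s T hs, Nat.totient_mul (Pz_coprime_Pc s T)] at h1
  push_cast at h1
  rw [totient_Pz] at h1
  have h2 : (0:ℝ) < Pz s := by exact_mod_cast Pz_pos s
  have h3 : (Pz s : ℝ) * (((Pc s T).totient : ℝ) * V s) = (Pz s : ℝ) * (Pc s T * vee T) := by
    linarith
  exact mul_left_cancel₀ h2.ne' h3

lemma cop_mod (a b n : ℕ) : (a % n + b).Coprime n ↔ (a + b).Coprime n := by
  have h1 : (a % n + b) % n = (a + b) % n := by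
    rw [Nat.add_mod, Nat.mod_mod, ← Nat.add_mod]
  have h2 : (a % n + b).gcd n = (a + b).gcd n := by
    rw [Nat.gcd_comm, Nat.gcd_rec, Nat.gcd_comm (a+b), Nat.gcd_rec n (a + b), h1]
  unfold Nat.Coprime
  rw [h2]

/-- `R` in terms of the positions `1, …, h` -/
lemma R_eq (s : Pool.Agent.LibG2.PS.PSet) (m h : ℕ) : R s m h = #{j ∈ Icc 1 h | (m + j).Coprime (Pz s)} := by
  unfold R
  symm
  apply Finset.card_bij (fun j _ => m + j)
  · intro j hj
    simp only [mem_filter, mem_Icc, mem_Ioc] at hj ⊢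
    exact ⟨by omega, hj.2⟩
  · intro a _ b _ h
    simpa using h
  · intro n hn
    simp only [mem_filter, mem_Ioc] at hn
    refine ⟨n - m, ?_, by omega⟩
    simp only [mem_filter, mem_Icc]
    have : m + (n - m) = n := by omega
    rw [this]
    exact ⟨by omega, hn.2⟩

/-- the average over a residue class -/
lemma class_sum (s : Pool.Agent.LibG2.PS.PSet) (T : ℕ) (hs : ∀ p ∈ pr s, p ≤ T) (m0 h : ℕ) :
    ∑ n ∈ (range (primorial T)).filter (fun n => n % Pz s = m0 % Pz s), (rough T h n : ℝ) =
      R s m0 h * (Pc s T).totient := by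
  classical
  rw [Finset.sum_filter, ← Pz_mul_Pc s T hs]
  set q := Pz s with hq
  set P' := Pc s T with hP'
  have hq0 : 0 < q := Pz_pos s
  have hP0 : 0 < P' := Pc_pos s T
  have hcop : q.Coprime P' := Pz_coprime_Pc s T
  have e1 : ∀ n : ℕ, (if n % q = m0 % q then (rough T h n : ℝ) else 0) =
      (fun r a : ℕ => if r = m0 % q then ∑ j ∈ Icc 1 h,
        (if (r + j).Coprime q then (if (a + j).Coprime P' then (1:ℝ) else 0) else 0) else 0)
        (n % q) (n % P') := by
    intro n
    simp only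
    congr 1
    unfold rough
    rw [Finset.card_filter]
    push_cast
    apply Finset.sum_congr rfl
    intro j _
    simp only [cop_mod]
    rw [← Pz_mul_Pc s T hs, ← hq, ← hP']
    by_cases h1 : (n + j).Coprime q
    · by_cases h2 : (n + j).Coprime P'
      · rw [if_pos (Nat.Coprime.mul_right h1 h2), if_pos h1, if_pos h2]
      · rw [if_neg (fun h3 => h2 (Nat.Coprime.coprime_mul_left_right h3)), if_pos h1, if_neg h2]
    · rw [if_neg (fun h3 => h1 (Nat.Coprime.coprime_mul_right_right h3)), if_neg h1]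
  rw [Finset.sum_congr rfl (fun n _ => e1 n)]
  refine (sum_crt q P' hq0 hP0 hcop (fun r a : ℕ => if r = m0 % q then ∑ j ∈ Icc 1 h,
        (if (r + j).Coprime q then (if (a + j).Coprime P' then (1:ℝ) else 0) else 0) else 0)).trans ?_
  rw [Finset.sum_congr rfl (g := fun r => if r = m0 % q then ∑ a ∈ range P', ∑ j ∈ Icc 1 h,
        (if (r + j).Coprime q then (if (a + j).Coprime P' then (1:ℝ) else 0) else 0) else 0)]
  · rw [Finset.sum_ite_eq' (range q) (m0 % q), if_pos (mem_range.mpr (Nat.mod_lt _ hq0))]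
    rw [Finset.sum_comm]
    rw [R_eq, Finset.card_filter]
    push_cast
    rw [Finset.sum_mul]
    apply Finset.sum_congr rfl
    intro j _
    simp only [cop_mod]
    rw [← hq]
    by_cases h1 : (m0 + j).Coprime q
    · simp only [if_pos h1]
      rw [one_mul, ← Finset.sum_filter, Finset.sum_const, nsmul_eq_mul, mul_one]
      congr 1
      rw [← Nat.filter_coprime_Ico_eq_totient P' j]
      apply Finset.card_bij (fun a _ => j + a)
      · intro a ha
        simp only [mem_filter, mem_range, mem_Ico] at ha ⊢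
        refine ⟨by omega, ?_⟩
        rw [Nat.coprime_comm, add_comm]
        exact ha.2
      · intro a _ b _ hab
        simpa using hab
      · intro x hx
        simp only [mem_filter, mem_Ico] at hx
        refine ⟨x - j, ?_, by omega⟩
        simp only [mem_filter, mem_range]
        refine ⟨by omega, ?_⟩
        have : x - j + j = x := by omega
        rw [this, Nat.coprime_comm]
        exact hx.2
    · simp only [if_neg h1, Finset.sum_const_zero, zero_mul]
  · intro r _
    by_cases hr : r = m0 % q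
    · simp only [if_pos hr]
    · simp only [if_neg hr, Finset.sum_const_zero]

lemma class_card (s : Pool.Agent.LibG2.PS.PSet) (T : ℕ) (hs : ∀ p ∈ pr s, p ≤ T) (m0 : ℕ) :
    (((range (primorial T)).filter (fun n => n % Pz s = m0 % Pz s)).card : ℝ) = Pc s T := by
  classical
  rw [Finset.card_filter, ← Pz_mul_Pc s T hs]
  push_cast
  set q := Pz s with hq
  set P' := Pc s T with hP'
  have hq0 : 0 < q := Pz_pos s
  have hP0 : 0 < P' := Pc_pos s T
  have hcop : q.Coprime P' := Pz_coprime_Pc s T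
  have h1 := sum_crt q P' hq0 hP0 hcop (fun r _ => if r = m0 % q then (1:ℝ) else 0)
  rw [h1]
  simp only [Finset.sum_const, card_range, nsmul_eq_mul]
  rw [← Finset.mul_sum, Finset.sum_ite_eq' (range q) (m0 % q),
    if_pos (mem_range.mpr (Nat.mod_lt _ hq0)), mul_one]

/-- the set of the residues in which the sieve count deviates -/
noncomputable def GS (T h : ℕ) (σ η : ℝ) : Finset ℕ :=
  (range (primorial T)).filter (fun n => vee T * h * η ≤ σ * ((rough T h n : ℝ) - vee T * h))

/-- **Many residue classes.** -/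
theorem many_classes (s : Pool.Agent.LibG2.PS.PSet) (T : ℕ) (hs : ∀ p ∈ pr s, p ≤ T) (m0 h : ℕ) (hh : 0 < h)
    (σ : ℝ) (hσ : σ = 1 ∨ σ = -1) (η : ℝ) (hη : 0 < η) (hm0 : 2 * η ≤ σ * er s m0 h) :
    (Pc s T : ℝ) * (vee T * η) ≤ ((GS T h σ η).card : ℝ) := by
  classical
  set K := (range (primorial T)).filter (fun n => n % Pz s = m0 % Pz s) with hK
  have hh0 : (0:ℝ) < h := by exact_mod_cast hh
  have hV := V_pos s
  have hv := vee_posA T
  have hv1 : vee T ≤ 1 := by
    unfold vee
    apply Finset.prod_le_one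
    · intro q hq
      have h2 : (2:ℝ) ≤ q := by exact_mod_cast (mem_filter.mp hq).2.two_le
      have : 1 / (q:ℝ) ≤ 1 / 2 := one_div_le_one_div_of_le (by norm_num) h2
      linarith
    · intro q _
      have : 0 ≤ 1 / (q:ℝ) := by positivity
      linarith
  have hsum : ∑ n ∈ K, σ * ((rough T h n : ℝ) - vee T * h) =
      Pc s T * (vee T * h) * (σ * er s m0 h) := by
    rw [← Finset.mul_sum, Finset.sum_sub_distrib, class_sum s T hs m0 h, Finset.sum_const,
      nsmul_eq_mul, class_card s T hs m0]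
    unfold er
    have h1 := totient_Pc s T hs
    have h2 : ((Pc s T).totient : ℝ) = Pc s T * vee T / V s := by
      rw [eq_div_iff hV.ne']; exact h1
    rw [h2]
    field_simp
  have hlow : Pc s T * (vee T * h) * (2 * η) ≤ ∑ n ∈ K, σ * ((rough T h n : ℝ) - vee T * h) := by
    rw [hsum]
    have : (0:ℝ) ≤ Pc s T := by positivity
    gcongr
  have hup : ∑ n ∈ K, σ * ((rough T h n : ℝ) - vee T * h) ≤
      Pc s T * (vee T * h * η) + h * ((GS T h σ η).card : ℝ) := by
    rw [← Finset.sum_filter_add_sum_filter_not K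
      (fun n => vee T * h * η ≤ σ * ((rough T h n : ℝ) - vee T * h))]
    rw [add_comm]
    apply add_le_add
    · calc ∑ n ∈ K.filter (fun n => ¬ vee T * h * η ≤ σ * ((rough T h n : ℝ) - vee T * h)),
            σ * ((rough T h n : ℝ) - vee T * h)
          ≤ ∑ n ∈ K.filter (fun n => ¬ vee T * h * η ≤ σ * ((rough T h n : ℝ) - vee T * h)),
            vee T * h * η := by
            apply Finset.sum_le_sum
            intro n hn
            exact (not_le.mp (mem_filter.mp hn).2).le
        _ = ((K.filter (fun n => ¬ vee T * h * η ≤ σ * ((rough T h n : ℝ) - vee T * h))).card : ℝ) *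
            (vee T * h * η) := by rw [Finset.sum_const, nsmul_eq_mul]
        _ ≤ (K.card : ℝ) * (vee T * h * η) := by
            gcongr
            exact filter_subset _ _
        _ = _ := by rw [hK, class_card s T hs m0]
    · calc ∑ n ∈ K.filter (fun n => vee T * h * η ≤ σ * ((rough T h n : ℝ) - vee T * h)),
            σ * ((rough T h n : ℝ) - vee T * h)
          ≤ ∑ n ∈ K.filter (fun n => vee T * h * η ≤ σ * ((rough T h n : ℝ) - vee T * h)),
            (h : ℝ) := by
            apply Finset.sum_le_sum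
            intro n _
            have h1 : (rough T h n : ℝ) ≤ h := by exact_mod_cast rough_leA T h n
            have h2 : (0:ℝ) ≤ rough T h n := by positivity
            have h3 : vee T * h ≤ h := mul_le_of_le_one_left hh0.le hv1
            have h4 : 0 ≤ vee T * h := by positivity
            rcases hσ with rfl | rfl <;> linarith
        _ = h * ((K.filter (fun n => vee T * h * η ≤
              σ * ((rough T h n : ℝ) - vee T * h))).card : ℝ) := by
            rw [Finset.sum_const, nsmul_eq_mul, mul_comm]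
        _ ≤ h * ((GS T h σ η).card : ℝ) := by
            gcongr
            intro n hn
            rw [mem_filter, hK, mem_filter] at hn
            unfold GS
            rw [mem_filter]
            exact ⟨hn.1.1, hn.2⟩
  have h1 : (Pc s T : ℝ) * (vee T * h) * (2 * η) ≤
      Pc s T * (vee T * h * η) + h * ((GS T h σ η).card : ℝ) := hlow.trans hup
  have h2 : h * ((Pc s T : ℝ) * (vee T * η)) ≤ h * ((GS T h σ η).card : ℝ) := by
    linarith
  exact le_of_mul_le_mul_left h2 hh0

/-- the integers of a short interval in a set of residue classes, lower bound -/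
lemma card_mod_ge (a n P : ℕ) (hP : 0 < P) (B : Finset ℕ) (hB : B ⊆ range P) :
    ((n : ℝ) / P - 1) * #B ≤ (#{m ∈ Ico a (a + n) | m % P ∈ B} : ℕ) := by
  classical
  have h1 : (#{m ∈ Ico a (a + n) | m % P ∈ B} : ℕ) = ∑ b ∈ B, #{m ∈ Ico a (a + n) | m % P = b} := by
    rw [Finset.card_eq_sum_card_fiberwise (f := fun m => m % P) (t := B)]
    · apply Finset.sum_congr rfl
      intro b hb
      congr 1
      ext m
      simp only [mem_filter]
      constructor
      · rintro ⟨⟨h1, _⟩, h3⟩; exact ⟨h1, h3⟩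
      · rintro ⟨h1, h3⟩; exact ⟨⟨h1, h3 ▸ hb⟩, h3⟩
    · intro m hm
      simp only [coe_filter, Set.mem_ofPred_eq] at hm
      exact hm.2
  rw [h1]
  push_cast
  have h2 : ∀ b ∈ B, (n : ℝ) / P - 1 ≤ (#{m ∈ Ico a (a + n) | m % P = b} : ℕ) := by
    intro b hb
    have hbP : b < P := mem_range.mp (hB hb)
    have h3 := Nat.Ico_filter_modEq_card a (a + n) hP b
    have h4 : #{m ∈ Ico a (a + n) | m % P = b} = #{m ∈ Ico a (a + n) | m ≡ b [MOD P]} := by
      congr 1
      ext m
      simp only [mem_filter, Nat.ModEq, Nat.mod_eq_of_lt hbP]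
    rw [h4]
    have h5 : ((#{m ∈ Ico a (a + n) | m ≡ b [MOD P]} : ℤ) : ℝ) =
        ((max (⌈((a + n : ℕ) - b : ℚ) / P⌉ - ⌈((a : ℕ) - b : ℚ) / P⌉) 0 : ℤ) : ℝ) := by
      rw [h3]
    push_cast at h5
    rw [h5]
    refine le_trans ?_ (le_max_left _ _)
    have h6 := Int.le_ceil (((a + n : ℕ) - b : ℚ) / P)
    have h7 := Int.ceil_lt_add_one (((a : ℕ) - b : ℚ) / P)
    have h8 : ((a + n : ℕ) - b : ℚ) / P - ((a : ℕ) - b : ℚ) / P = (n : ℚ) / P := by
      push_cast; field_simp; ring
    have h9 : ((n : ℚ) / P - 1) ≤ ((⌈((a + n : ℕ) - b : ℚ) / P⌉ : ℤ) : ℚ) -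
        ((⌈((a : ℕ) - b : ℚ) / P⌉ : ℤ) : ℚ) := by linarith
    have h10 : (((n : ℚ) / P - 1 : ℚ) : ℝ) ≤ ((((⌈((a + n : ℕ) - b : ℚ) / P⌉ : ℤ) : ℚ) -
        ((⌈((a : ℕ) - b : ℚ) / P⌉ : ℤ) : ℚ) : ℚ) : ℝ) := by exact_mod_cast h9
    push_cast at h10
    exact h10
  calc ((n : ℝ) / P - 1) * #B = ∑ _b ∈ B, ((n : ℝ) / P - 1) := by
        rw [Finset.sum_const, nsmul_eq_mul, mul_comm]
    _ ≤ _ := Finset.sum_le_sum h2

end Pool.Agent.LibDev91
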