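import Pool.Agent.LibDev91.LowA

/-!
Many windows of a dyadic block with a large deviation of the sum of Granville's densities.
-/

namespace Pool.Agent.LibDev91

open Finset Filter Topology
open Pool.Agent.LibG2.PS (pr Pz V R er erz V_pos D1_pf)
open Pool.Agent.LibH (zz)

/-- a stretch of the dyadic block on which the length of the window is constant -/
lemma const_len (lam c : ℝ) (hlam : 1 < lam) (hc : 0 < c) : ∀ᶠ i : ℕ in atTop,
    ∀ ℓ : ℕ, (ℓ : ℝ) ≤ 2 ^ i / (i : ℝ) ^ (lam + 1) → ∃ a h : ℕ, 2 ^ i ≤ a ∧ a + ℓ ≤ 2 ^ i + 2 * ℓ ∧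
      (∀ m ∈ Ico a (a + ℓ), LibH.hl lam c m = h) := by
  have hA : ∀ᶠ i : ℕ in atTop, (2 * c * lam) * ((i : ℝ)) ^ (0 : ℝ) ≤ (i : ℝ) ^ (1 : ℝ) :=
    tendsto_natCast_atTop_atTop.eventually (ev_rpow 0 1 _ (by norm_num))
  filter_upwards [hA, eventually_ge_atTop 10] with i hi hi10 ℓ hℓ
  rw [Real.rpow_zero, Real.rpow_one, mul_one] at hi
  have hiR : (10:ℝ) ≤ i := by exact_mod_cast hi10
  have hi0 : (0:ℝ) < i := by linarith
  have hp : (0:ℝ) < 2 ^ i := by positivity
  have hip : (i:ℝ) ^ (lam + 1) = (i:ℝ) ^ (lam - 1) * (i:ℝ) ^ (2:ℝ) := by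
    rw [← Real.rpow_add hi0]; congr 1; ring
  have hi2 : (i:ℝ) ^ (2:ℝ) = (i:ℝ) ^ 2 := by norm_cast
  have hone : (1:ℝ) ≤ (i:ℝ) ^ (lam - 1) := Real.one_le_rpow (by linarith) (by linarith)
  -- `hl` is monotone
  have hmono : ∀ m n : ℕ, 1 ≤ m → m ≤ n → LibH.hl lam c m ≤ LibH.hl lam c n := by
    intro m n hm hmn
    unfold LibH.hl
    apply Nat.floor_le_floor
    have h1 : (1:ℝ) ≤ m := by exact_mod_cast hm
    have h2 : (m:ℝ) ≤ n := by exact_mod_cast hmn
    have h3 := Real.log_le_log (by linarith) h2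
    have h4 := Real.rpow_le_rpow (Real.log_nonneg h1) h3 (by linarith : 0 ≤ lam)
    exact mul_le_mul_of_nonneg_left h4 hc.le
  have h2i : 1 ≤ 2 ^ i := Nat.one_le_two_pow
  -- the variation is less than one
  have hvar : LibH.hl lam c (2 ^ i + 2 * ℓ) ≤ LibH.hl lam c (2 ^ i) + 1 := by
    unfold LibH.hl
    rw [← Nat.floor_add_one (by
      have : 0 ≤ Real.log ((2 ^ i : ℕ) : ℝ) := Real.log_nonneg (by exact_mod_cast h2i)
      positivity)]
    apply Nat.floor_le_floor
    set x : ℝ := Real.log ((2 ^ i : ℕ) : ℝ) with hx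
    set y : ℝ := Real.log ((2 ^ i + 2 * ℓ : ℕ) : ℝ) with hy
    have hxi : x = i * Real.log 2 := by rw [hx]; push_cast; rw [Real.log_pow]
    have hl2 := Real.log_two_lt_d9
    have hl2' := Real.log_two_gt_d9
    have hx1 : 1 < x := by rw [hxi]; nlinarith
    have hu : y - x ≤ 2 / (i:ℝ) ^ (lam + 1) := by
      rw [hy, hx, ← Real.log_div (by positivity) (by positivity)]
      have e1 : ((2 ^ i + 2 * ℓ : ℕ) : ℝ) / ((2 ^ i : ℕ) : ℝ) = 1 + 2 * ℓ / 2 ^ i := by
        push_cast; field_simp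
      rw [e1]
      have h1 := Real.log_le_sub_one_of_pos (show (0:ℝ) < 1 + 2 * ℓ / 2 ^ i by positivity)
      have h2 : 2 * (ℓ:ℝ) / 2 ^ i ≤ 2 / (i:ℝ) ^ (lam + 1) := by
        rw [div_le_div_iff₀ hp (by positivity)]
        rw [le_div_iff₀ (by positivity)] at hℓ
        linarith
      linarith
    have hxy : x ≤ y := by
      rw [hx, hy]
      apply Real.log_le_log (by positivity)
      push_cast
      have : (0:ℝ) ≤ ℓ := by positivity
      linarith
    have hu1 : y - x ≤ 1 := by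
      have : 2 / (i:ℝ) ^ (lam + 1) ≤ 1 := by
        rw [div_le_one (by positivity), hip, hi2]
        nlinarith
      linarith
    have hyi : y ≤ i := by
      rw [hxi] at hu1
      nlinarith
    have hy0 : 0 < y := by linarith
    -- `y^lam - x^lam ≤ lam (y - x) y^(lam-1)`
    have hb : y ^ lam - x ^ lam ≤ lam * (y - x) * y ^ (lam - 1) := by
      have h1 := one_add_mul_self_le_rpow_one_add (s := -((y - x) / y)) (by
        have : (y - x) / y ≤ 1 := by rw [div_le_one hy0]; linarith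
        linarith) (p := lam) (by linarith)
      have e1 : 1 + -((y - x) / y) = x / y := by field_simp; ring
      rw [e1, Real.div_rpow (by linarith) hy0.le] at h1
      have hyl : 0 < y ^ lam := by positivity
      have h2 := mul_le_mul_of_nonneg_right h1 hyl.le
      have e2 : x ^ lam / y ^ lam * y ^ lam = x ^ lam := by field_simp
      rw [e2] at h2
      have e3 : y ^ lam = y ^ (lam - 1) * y := by
        rw [← Real.rpow_add_one hy0.ne']; congr 1; ring
      have e4 : (1 + lam * -((y - x) / y)) * y ^ lam = y ^ lam - lam * (y - x) * y ^ (lam - 1) := by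
        rw [e3]; field_simp; ring
      rw [e4] at h2
      linarith
    have hyl : y ^ (lam - 1) ≤ (i:ℝ) ^ (lam - 1) :=
      Real.rpow_le_rpow hy0.le hyi (by linarith)
    have h5 : lam * (y - x) * y ^ (lam - 1) ≤ lam * (2 / (i:ℝ) ^ 2) := by
      have h6 : (y - x) * y ^ (lam - 1) ≤ 2 / (i:ℝ) ^ 2 := by
        calc (y - x) * y ^ (lam - 1) ≤ (2 / (i:ℝ) ^ (lam + 1)) * (i:ℝ) ^ (lam - 1) := by
              gcongr
          _ = 2 / (i:ℝ) ^ 2 := by
              rw [hip, hi2]; field_simp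
      calc lam * (y - x) * y ^ (lam - 1) = lam * ((y - x) * y ^ (lam - 1)) := by ring
        _ ≤ _ := by gcongr
    have h7 : c * (lam * (2 / (i:ℝ) ^ 2)) ≤ 1 := by
      have e1 : c * (lam * (2 / (i:ℝ) ^ 2)) = (2 * c * lam) / (i:ℝ) ^ 2 := by ring
      rw [e1, div_le_one (by positivity)]
      nlinarith
    have h8 : c * (y ^ lam - x ^ lam) ≤ 1 := by
      calc c * (y ^ lam - x ^ lam) ≤ c * (lam * (2 / (i:ℝ) ^ 2)) := by
            gcongr
            exact hb.trans h5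
        _ ≤ 1 := h7
    linarith
  by_cases hcase : LibH.hl lam c (2 ^ i + ℓ) = LibH.hl lam c (2 ^ i)
  · refine ⟨2 ^ i, LibH.hl lam c (2 ^ i), le_refl _, by omega, fun m hm => ?_⟩
    rw [mem_Ico] at hm
    have h1 := hmono (2 ^ i) m h2i hm.1
    have h2 := hmono m (2 ^ i + ℓ) (by omega) hm.2.le
    omega
  · refine ⟨2 ^ i + ℓ, LibH.hl lam c (2 ^ i) + 1, by omega, by omega, fun m hm => ?_⟩
    rw [mem_Ico] at hm
    have h1 := hmono (2 ^ i) (2 ^ i + ℓ) h2i (by omega)
    have h2 := hmono (2 ^ i + ℓ) m (by omega) hm.1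
    have h3 := hmono m (2 ^ i + 2 * ℓ) (by omega) (by omega)
    omega

/-- the deviation beats the error terms -/
lemma dev_ev (lam c t A g : ℝ) (hlam : 1 < lam) (hc : 0 < c) (ht2 : t ≤ 1 / 2)
    (hg : lam * g < (lam - 1) * t) :
    ∀ᶠ x : ℝ in atTop, 4 * ((c * x ^ (lam - 1)) ^ (1 - t) * Real.log x ^ A) +
      (c * x ^ lam) ^ 2 * (2 * x + 1) / Real.exp x + 1 / x ≤
      (c ^ (1 - g) / 4) * x ^ (lam - 1 - lam * g) := by
  set κ : ℝ := (lam - 1) * (1 - t) with hκ
  set κ' : ℝ := lam - 1 - lam * g with hκ'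
  have hl1 : 0 < lam - 1 := by linarith
  have hκ0 : 0 < κ := by rw [hκ]; exact mul_pos hl1 (by linarith)
  have hκκ : κ < κ' := by rw [hκ, hκ']; nlinarith
  set δ : ℝ := c ^ (1 - g) / 4 with hδ
  have hδ0 : 0 < δ := by positivity
  set D : ℝ := 4 * c ^ (1 - t) with hD
  have hD0 : 0 < D := by positivity
  have h1 : ∀ᶠ x : ℝ in atTop, Real.log x ^ A ≤ (δ / (2 * D)) * x ^ (κ' - κ) := by
    have h2 := (isLittleO_log_rpow_rpow_atTop A (sub_pos.mpr hκκ)).def
      (c := δ / (2 * D)) (by positivity)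
    filter_upwards [h2, eventually_gt_atTop 1] with x hx hx1
    have hl : 0 < Real.log x := Real.log_pos hx1
    rw [Real.norm_of_nonneg (by positivity), Real.norm_of_nonneg (by positivity)] at hx
    exact hx
  have hB : ∀ᶠ x : ℝ in atTop, (4 / δ) * x ^ (0 : ℝ) ≤ x ^ κ' := ev_rpow _ _ _ (by linarith)
  have hC : ∀ᶠ x : ℝ in atTop, (3 * c ^ 2) * x ^ (2 * lam + 1) * Real.exp (-1 * x) < 1 := by
    have h2 := tendsto_rpow_mul_exp_neg_mul_atTop_nhds_zero (2 * lam + 1) 1 (by norm_num)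
    have h3 := h2.const_mul (3 * c ^ 2)
    rw [mul_zero] at h3
    filter_upwards [h3.eventually_lt_const (show (0:ℝ) < 1 by norm_num)] with x hx
    linarith
  filter_upwards [h1, hB, hC, eventually_ge_atTop 1] with x h1 hB hC hx1
  have hx0 : 0 < x := by linarith
  have e1 : (c * x ^ (lam - 1)) ^ (1 - t) = c ^ (1 - t) * x ^ κ := by
    rw [Real.mul_rpow hc.le (by positivity), ← Real.rpow_mul hx0.le]
  have hxk : 0 < x ^ κ := by positivity
  have hA' : 4 * ((c * x ^ (lam - 1)) ^ (1 - t) * Real.log x ^ A) ≤ δ / 2 * x ^ κ' := by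
    rw [e1]
    calc 4 * (c ^ (1 - t) * x ^ κ * Real.log x ^ A) = D * x ^ κ * Real.log x ^ A := by
          rw [hD]; ring
      _ ≤ D * x ^ κ * ((δ / (2 * D)) * x ^ (κ' - κ)) := by gcongr
      _ = δ / 2 * (x ^ κ * x ^ (κ' - κ)) := by field_simp
      _ = δ / 2 * x ^ κ' := by rw [← Real.rpow_add hx0]; congr 2; ring
  have hB' : 2 ≤ δ / 2 * x ^ κ' := by
    rw [Real.rpow_zero, mul_one, div_le_iff₀ hδ0] at hB
    linarith
  have hC' : (c * x ^ lam) ^ 2 * (2 * x + 1) / Real.exp x ≤ 1 := by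
    have e5 : (c * x ^ lam) ^ 2 = c ^ 2 * x ^ (2 * lam) := by
      rw [mul_pow, ← Real.rpow_natCast, ← Real.rpow_natCast, ← Real.rpow_mul hx0.le]
      norm_num
      left; ring_nf
    rw [e5, div_eq_mul_inv, ← Real.exp_neg]
    have e6 : Real.exp (-x) = Real.exp (-1 * x) := by ring_nf
    rw [e6]
    refine le_trans ?_ hC.le
    rw [Real.rpow_add hx0, Real.rpow_one]
    have h6 : c ^ 2 * x ^ (2 * lam) * (2 * x + 1) ≤ 3 * c ^ 2 * (x ^ (2 * lam) * x) := by
      have : 0 ≤ c ^ 2 * x ^ (2 * lam) := by positivity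
      nlinarith
    exact mul_le_mul_of_nonneg_right h6 (Real.exp_pos _).le
  have hD' : 1 / x ≤ 1 := by rw [div_le_one hx0]; exact hx1
  linarith

/-- the deviation of the sum of densities at `m` -/
lemma dev_at (lam c t A g θ : ℝ) (hlam : 1 < lam) (hc : 0 < c) (ht2 : t ≤ 1 / 2)
    (hg0 : 0 ≤ g) (hg : lam * g < (lam - 1) * t) (hθ1 : θ < 1) :
    ∀ᶠ m : ℕ in atTop, ∀ σ : ℝ, (σ = 1 ∨ σ = -1) →
      Nat.log 2 (m + LibH.hl lam c m) = Nat.log 2 m →
      vee (level θ m) * (LibH.hl lam c m : ℕ) * ((LibH.hl lam c m : ℝ) ^ (-g) / 2) ≤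
        σ * ((rough (level θ m) (LibH.hl lam c m) m : ℝ) -
          vee (level θ m) * (LibH.hl lam c m : ℕ)) →
      4 * LibH.dev lam c t A m ≤
        σ * ((∑ n ∈ Ioc m (m + LibH.hl lam c m), gran θ n) - LibH.mean lam c m) := by
  have hLN : Tendsto (fun N : ℕ => Real.log (N : ℝ)) atTop atTop :=
    Real.tendsto_log_atTop.comp tendsto_natCast_atTop_atTop
  have hbig : ∀ᶠ x : ℝ in atTop, (2 / c) * x ^ (0:ℝ) ≤ x ^ lam := ev_rpow _ _ _ (by linarith)
  filter_upwards [hLN.eventually (dev_ev lam c t A g hlam hc ht2 hg), hLN.eventually hbig,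
    eventually_ge_atTop 3] with m herr hxb hm3 σ hσ hlog hr
  have hm3' : (3:ℝ) ≤ m := by exact_mod_cast hm3
  have hm0 : (0:ℝ) < m := by linarith
  set x := Real.log (m:ℝ) with hx
  have hx1 : 1 ≤ x := by
    have h1 : Real.exp 1 ≤ m := by
      have := Real.exp_one_lt_d9
      linarith
    have h2 := Real.log_le_log (Real.exp_pos 1) h1
    rwa [Real.log_exp] at h2
  have hx0 : 0 < x := by linarith
  have hexp : Real.exp x = m := by rw [hx, Real.exp_log hm0]
  set h := LibH.hl lam c m with hh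
  set T := level θ m with hT
  set i := Nat.log 2 m with hi
  have hi2x : (i:ℝ) ≤ 2 * x := by
    have h3 : (2:ℕ) ^ i ≤ m := Nat.pow_log_le_self 2 (by omega)
    have h4 : ((2:ℝ)) ^ i ≤ m := by exact_mod_cast h3
    have h5 := Real.log_le_log (by positivity) h4
    rw [Real.log_pow] at h5
    have h6 := Real.log_two_gt_d9
    have : (0:ℝ) ≤ i := by positivity
    nlinarith
  have hi1 : (1:ℝ) ≤ i := by
    have h3 : 1 ≤ Nat.log 2 m := Nat.log_pos (by norm_num) (by omega)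
    exact_mod_cast h3
  have hT2 : (T:ℝ) ≤ 2 * x := by
    have h3 : (T:ℝ) ≤ (i:ℝ) ^ θ := by
      rw [hT]; unfold level
      exact Nat.floor_le (by positivity)
    have h4 : (i:ℝ) ^ θ ≤ (i:ℝ) ^ (1:ℝ) := Real.rpow_le_rpow_of_exponent_le hi1 hθ1.le
    rw [Real.rpow_one] at h4
    linarith
  have hhle : (h:ℝ) ≤ c * x ^ lam := by
    rw [hh]; unfold LibH.hl
    exact Nat.floor_le (by positivity)
  have hhge : c * x ^ lam < h + 1 := by
    rw [hh]; unfold LibH.hl
    exact Nat.lt_floor_add_one _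
  have hcx : 2 ≤ c * x ^ lam := by
    rw [Real.rpow_zero, mul_one, div_le_iff₀ hc] at hxb
    linarith
  have hh1 : c * x ^ lam / 2 ≤ h := by linarith
  have hh0 : (0:ℝ) < h := by linarith
  have hs := gran_sum θ m h hm3 hlog
  rw [← hT, ← hx] at hs
  have hv := vee_posA T
  set R' : ℝ := (rough T h m : ℝ) with hR
  have hmean : LibH.mean lam c m = c * x ^ (lam - 1) := rfl
  have hmx : c * x ^ (lam - 1) = c * x ^ lam / x := by
    rw [Real.rpow_sub_one hx0.ne']; ring
  have b1 : (h : ℝ) ^ 2 * ((T : ℝ) + 1) / m ≤ (c * x ^ lam) ^ 2 * (2 * x + 1) / Real.exp x := by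
    rw [hexp]
    gcongr
  have hσ1 : |σ| = 1 := by rcases hσ with rfl | rfl <;> norm_num
  -- the main term
  have b2 : (c ^ (1 - g) / 4) * x ^ (lam - 1 - lam * g) ≤ σ * (R' / (vee T * x) - h / x) := by
    have e1 : σ * (R' / (vee T * x) - h / x) = σ * (R' - vee T * h) / (vee T * x) := by
      field_simp
    rw [e1, le_div_iff₀ (by positivity)]
    refine le_trans ?_ hr
    -- `h^(-g) ≥ (c x^lam)^(-g)`
    have h4 : (c * x ^ lam) ^ (-g) ≤ (h:ℝ) ^ (-g) :=
      Real.rpow_le_rpow_of_nonpos hh0 hhle (by linarith)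
    have h5 : (c ^ (1 - g) / 4) * x ^ (lam - 1 - lam * g) * (vee T * x) =
        vee T * (c * x ^ lam / 2) * ((c * x ^ lam) ^ (-g) / 2) := by
      rw [Real.mul_rpow hc.le (by positivity), ← Real.rpow_mul hx0.le]
      have e2 : c ^ (1 - g) = c * c ^ (-g) := by
        rw [← Real.rpow_one_add' hc.le (by
          intro h0
          have : lam * g < lam * 1 := by nlinarith
          have : g < 1 := by nlinarith
          linarith)]
        congr 1
      have e3 : x ^ (lam - 1 - lam * g) * x = x ^ lam * x ^ (lam * -g) := by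
        rw [← Real.rpow_add_one hx0.ne', ← Real.rpow_add hx0]
        congr 1; ring
      rw [e2]
      calc c * c ^ (-g) / 4 * x ^ (lam - 1 - lam * g) * (vee T * x) =
            c * c ^ (-g) / 4 * vee T * (x ^ (lam - 1 - lam * g) * x) := by ring
        _ = c * c ^ (-g) / 4 * vee T * (x ^ lam * x ^ (lam * -g)) := by rw [e3]
        _ = _ := by ring
    rw [h5]
    gcongr
  have b3 : |(h:ℝ) / x - c * x ^ (lam - 1)| ≤ 1 / x := by
    rw [hmx, ← sub_div, abs_div, abs_of_pos hx0]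
    gcongr
    rw [abs_le]
    constructor <;> linarith
  rw [hmean]
  have hdev : LibH.dev lam c t A m = (c * x ^ (lam - 1)) ^ (1 - t) * Real.log x ^ A := rfl
  rw [hdev]
  have e0 : σ * ((∑ n ∈ Ioc m (m + h), gran θ n) - c * x ^ (lam - 1)) =
      σ * ((∑ n ∈ Ioc m (m + h), gran θ n) - R' / (vee T * x)) +
        σ * (R' / (vee T * x) - h / x) + σ * ((h:ℝ) / x - c * x ^ (lam - 1)) := by ring
  have a1 : -((c * x ^ lam) ^ 2 * (2 * x + 1) / Real.exp x) ≤
      σ * ((∑ n ∈ Ioc m (m + h), gran θ n) - R' / (vee T * x)) := by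
    have h6 : |σ * ((∑ n ∈ Ioc m (m + h), gran θ n) - R' / (vee T * x))| ≤
        (c * x ^ lam) ^ 2 * (2 * x + 1) / Real.exp x := by
      rw [abs_mul, hσ1, one_mul]
      exact hs.trans b1
    exact (abs_le.mp h6).1
  have a3 : -(1 / x) ≤ σ * ((h:ℝ) / x - c * x ^ (lam - 1)) := by
    have h6 : |σ * ((h:ℝ) / x - c * x ^ (lam - 1))| ≤ 1 / x := by
      rw [abs_mul, hσ1, one_mul]
      exact b3
    exact (abs_le.mp h6).1
  rw [e0]
  linarith

end Pool.Agent.LibDev91
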