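import Pool.Agent.LibDev91.LowB

/-!
Many windows of a dyadic block with a large deviation of the sum of Granville's densities.
-/

namespace Pool.Agent.LibDev91

open Finset Filter Topology
open Pool.Agent.LibG2.PS (pr Pz V R er erz V_pos D1_pf)
open Pool.Agent.LibH (zz)

lemma Pz_erz_le {z p : ℕ} (hp : p ∈ Pool.Gal99.pr z) : Pz (erz z p) ≤ 4 ^ z := by
  have h1 := Pool.Agent.LibG2.PS.Pz_erz hp
  have h2 : Pool.Gal99.Pz z = primorial z := by
    unfold Pool.Gal99.Pz Pool.Gal99.pr primorial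
    rfl
  have h3 : 0 < p := by
    unfold Pool.Gal99.pr at hp
    exact (Finset.mem_filter.mp hp).2.pos
  calc Pz (erz z p) ≤ p * Pz (erz z p) := Nat.le_mul_of_pos_left _ h3
    _ = primorial z := by rw [← h1, h2]
    _ ≤ 4 ^ z := primorial_le_four_pow z

lemma erz_le {z p q : ℕ} (hq : q ∈ pr (erz z p)) : q ≤ z := by
  unfold pr erz at hq
  simp only [Finset.mem_erase] at hq
  have h2 := hq.2
  unfold Pool.Gal99.pr at h2
  rw [Finset.mem_filter, Finset.mem_range] at h2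
  omega

/-- the conditions on `i` -/
lemma low_conds (lam c g C θ E : ℝ) (hlam : 1 < lam) (hC : 1 < C)
    (hθ : 0 < θ) (hθ1 : θ < 1) (hE : C < E) :
    ∀ᶠ i : ℕ in atTop, c * (i : ℝ) ^ lam ≤ (i : ℝ) ^ (lam + 1) ∧
      ((lam + 1) * Real.log i) ^ C ≤ (i : ℝ) ^ θ ∧ 8 * (i : ℝ) ^ θ ≤ i ∧
      (i : ℝ) ^ (lam + 1) ≤ 2 ^ i / 16 ∧ 4 * (i : ℝ) ^ (lam + 1) ≤ (2 : ℝ) ^ ((i : ℝ) / 2) ∧
      Real.log 16 + (lam + 2 + (lam + 1) * g) * Real.log i + 2 * ((lam + 1) * Real.log i) ^ C ≤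
        Real.log i ^ E ∧ 8 ≤ (i : ℝ) ^ (lam + 1) := by
  have hN : Tendsto (fun i : ℕ => (i : ℝ)) atTop atTop := tendsto_natCast_atTop_atTop
  have hL : Tendsto (fun i : ℕ => Real.log (i : ℝ)) atTop atTop := Real.tendsto_log_atTop.comp hN
  have h1 := hN.eventually (ev_rpow lam (lam + 1) c (by linarith))
  have h2 : ∀ᶠ i : ℕ in atTop, ((lam + 1) * Real.log i) ^ C ≤ (i : ℝ) ^ θ := by
    have h3 := (isLittleO_log_rpow_rpow_atTop C hθ).def
      (c := 1 / (lam + 1) ^ C) (by positivity)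
    filter_upwards [hN.eventually h3, hL.eventually_gt_atTop 0, eventually_ge_atTop 1]
      with i hi hi1 hi2
    rw [Real.norm_of_nonneg (by positivity), Real.norm_of_nonneg (by positivity)] at hi
    rw [Real.mul_rpow (by linarith) hi1.le]
    have := mul_le_mul_of_nonneg_left hi (show 0 ≤ (lam + 1) ^ C by positivity)
    have e : (lam + 1) ^ C * (1 / (lam + 1) ^ C * (i : ℝ) ^ θ) = (i : ℝ) ^ θ := by field_simp
    linarith
  have h3 := hN.eventually (ev_rpow θ 1 8 hθ1)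
  have hexp : ∀ (K b : ℝ), 0 < b → ∀ᶠ i : ℕ in atTop, K * (i : ℝ) ^ (lam + 1) ≤ Real.exp (b * i) := by
    intro K b hb
    have h4 := (tendsto_rpow_mul_exp_neg_mul_atTop_nhds_zero (lam + 1) b hb).const_mul |K|
    rw [mul_zero] at h4
    filter_upwards [hN.eventually (h4.eventually_lt_const (show (0:ℝ) < 1 by norm_num))] with i hi
    have e : |K| * ((i : ℝ) ^ (lam + 1) * Real.exp (-b * i)) =
        (|K| * (i : ℝ) ^ (lam + 1)) / Real.exp (b * i) := by
      rw [div_eq_mul_inv, ← Real.exp_neg]; ring_nf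
    rw [e, div_lt_one (Real.exp_pos _)] at hi
    have : K * (i : ℝ) ^ (lam + 1) ≤ |K| * (i : ℝ) ^ (lam + 1) := by
      gcongr
      exact le_abs_self K
    linarith
  have hl2 : 0 < Real.log 2 := Real.log_pos (by norm_num)
  have h4 := hexp 16 (Real.log 2) hl2
  have h5 := hexp 4 (Real.log 2 / 2) (by positivity)
  have h6 : ∀ᶠ y : ℝ in atTop, Real.log 16 + (lam + 2 + (lam + 1) * g) * y +
      2 * ((lam + 1) * y) ^ C ≤ y ^ E := by
    filter_upwards [ev_rpow 0 E (3 * Real.log 16) (by linarith),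
      ev_rpow 1 E (3 * (lam + 2 + (lam + 1) * g)) (by linarith),
      ev_rpow C E (3 * (2 * (lam + 1) ^ C)) hE, eventually_gt_atTop 0] with y a1 a2 a3 a4
    rw [Real.rpow_zero] at a1
    rw [Real.rpow_one] at a2
    rw [Real.mul_rpow (by linarith) a4.le]
    linarith
  have h7 := hN.eventually (ev_rpow 0 (lam + 1) 8 (by linarith))
  filter_upwards [h1, h2, h3, h4, h5, hL.eventually h6, h7] with i a1 a2 a3 a4 a5 a6 a7
  rw [Real.rpow_one] at a3
  rw [Real.rpow_zero, mul_one] at a7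
  refine ⟨a1, a2, a3, ?_, ?_, a6, a7⟩
  · have e : Real.exp (Real.log 2 * i) = 2 ^ i := by
      rw [mul_comm, Real.exp_nat_mul, Real.exp_log (by norm_num)]
    rw [e] at a4
    linarith
  · have e : Real.exp (Real.log 2 / 2 * i) = (2 : ℝ) ^ ((i : ℝ) / 2) := by
      rw [Real.rpow_def_of_pos (by norm_num)]; congr 1; ring
    rw [e] at a5
    exact a5

/-- **Many deviating windows in a dyadic block.** -/
theorem good_count (lam c t A θ e : ℝ) (hlam : 1 < lam) (hc : 0 < c) (ht : 0 < t)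
    (ht2 : t ≤ 1 / 2) (hθ : 0 < θ) (hθ1 : θ < 1) (he : 0 < e) :
    ∀ᶠ i : ℕ in atTop, ∀ σ : ℝ, (σ = 1 ∨ σ = -1) → ∃ (h : ℕ) (G : Finset ℕ),
      G ⊆ Ico (2 ^ i) (2 ^ (i + 1)) ∧ (∀ m ∈ G, LibH.hl lam c m = h) ∧
      (h : ℝ) ≤ c * (i : ℝ) ^ lam ∧
      (∀ m ∈ G, 4 * LibH.dev lam c t A m ≤
        σ * ((∑ n ∈ Ioc m (m + LibH.hl lam c m), gran θ n) - LibH.mean lam c m)) ∧
      2 ^ i * Real.exp (-(Real.log i) ^ (lam / ((lam - 1) * t) + e)) ≤ (G.card : ℝ) := by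
  classical
  have hl1 : 0 < lam - 1 := by linarith
  have hlt0 : 0 < (lam - 1) * t := by positivity
  set C₀ : ℝ := lam / ((lam - 1) * t) with hC₀
  have hC₀2 : 2 < C₀ := by
    rw [hC₀, lt_div_iff₀ hlt0]
    nlinarith
  set C : ℝ := C₀ + e / 2 with hC
  have hC2 : 2 < C := by linarith
  have hC0 : 0 < C := by linarith
  have hC₀0 : 0 < C₀ := by linarith
  set ε₀ : ℝ := e / (4 * C₀) with hε₀
  have hε₀0 : 0 < ε₀ := by positivity
  have hlamC : lam = C₀ * ((lam - 1) * t) := by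
    rw [hC₀]
    field_simp
  set g : ℝ := (1 + ε₀) / C with hg
  have hg0 : 0 < g := by positivity
  have ha : lam * g < (lam - 1) * t := by
    have h1 : lam * g = (C₀ * (1 + ε₀) / C) * ((lam - 1) * t) := by
      rw [hg]
      nth_rewrite 1 [hlamC]
      ring
    have h2 : C₀ * (1 + ε₀) / C < 1 := by
      rw [div_lt_one hC0, hε₀, hC]
      have : C₀ * (1 + e / (4 * C₀)) = C₀ + e / 4 := by field_simp
      rw [this]
      linarith
    rw [h1]
    calc C₀ * (1 + ε₀) / C * ((lam - 1) * t) < 1 * ((lam - 1) * t) :=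
          mul_lt_mul_of_pos_right h2 hlt0
      _ = _ := one_mul _
  have homega := Pool.Agent.LibH.omega_sgn hC2 ε₀ hε₀0
  obtain ⟨H0, hH0⟩ := eventually_atTop.mp homega
  obtain ⟨M0, hM0⟩ := eventually_atTop.mp (dev_at lam c t A g θ hlam hc ht2 hg0.le ha hθ1)
  have hbigh : ∀ᶠ i : ℕ in atTop, (2 ^ lam * (H0 + 1) / c) * (i : ℝ) ^ (0 : ℝ) ≤ (i : ℝ) ^ lam :=
    tendsto_natCast_atTop_atTop.eventually (ev_rpow 0 lam _ (by linarith))
  filter_upwards [const_len lam c hlam hc,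
    low_conds lam c g C θ (C₀ + e) hlam (by linarith) hθ hθ1 (by linarith), hbigh,
    eventually_ge_atTop M0, eventually_ge_atTop 10] with i hconst hcond hHi hiM hi10 σ hσ
  obtain ⟨c1, c2, c3, c4, c5, c6, c7⟩ := hcond
  have hiR : (10:ℝ) ≤ i := by exact_mod_cast hi10
  have hi0 : (0:ℝ) < i := by linarith
  have hp : (0:ℝ) < 2 ^ i := by positivity
  set ℓ : ℕ := ⌊(2:ℝ) ^ i / (i : ℝ) ^ (lam + 1)⌋₊ with hℓ
  have hℓle : (ℓ:ℝ) ≤ (2:ℝ) ^ i / (i : ℝ) ^ (lam + 1) := Nat.floor_le (by positivity)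
  have hℓge : (2:ℝ) ^ i / (i : ℝ) ^ (lam + 1) < ℓ + 1 := Nat.lt_floor_add_one _
  have hq16 : (16:ℝ) ≤ (2:ℝ) ^ i / (i : ℝ) ^ (lam + 1) := by
    rw [le_div_iff₀ (by positivity)]
    linarith
  have hℓge2 : (2:ℝ) ^ i / (2 * (i : ℝ) ^ (lam + 1)) ≤ ℓ := by
    have : (2:ℝ) ^ i / (2 * (i : ℝ) ^ (lam + 1)) = ((2:ℝ) ^ i / (i : ℝ) ^ (lam + 1)) / 2 := by
      field_simp
    rw [this]
    linarith
  obtain ⟨a, h, ha1, ha2, ha3⟩ := hconst ℓ hℓle
  -- sizes
  have hℓ8 : (ℓ:ℝ) ≤ 2 ^ i / 8 := by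
    refine hℓle.trans ?_
    rw [div_le_div_iff₀ (by positivity) (by norm_num)]
    nlinarith
  have hℓ8' : 8 * ℓ ≤ 2 ^ i := by
    have : 8 * (ℓ:ℝ) ≤ 2 ^ i := by linarith
    exact_mod_cast this
  have hℓ1 : 1 ≤ ℓ := by
    have : (1:ℝ) < ℓ + 1 := by linarith
    have : (0:ℝ) < ℓ := by linarith
    exact_mod_cast this
  have hloga : ∀ m : ℕ, 2 ^ i ≤ m → m ≤ 2 ^ (i + 1) → (i:ℝ) / 2 ≤ Real.log m ∧ Real.log m ≤ i := by
    intro m hm1 hm2
    have hm0 : 0 < m := lt_of_lt_of_le (by positivity) hm1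
    have h1 : ((2:ℝ)) ^ i ≤ m := by exact_mod_cast hm1
    have h2 : (m:ℝ) ≤ 2 ^ (i + 1) := by exact_mod_cast hm2
    have h3 := Real.log_le_log hp h1
    have h4 := Real.log_le_log (by exact_mod_cast hm0) h2
    rw [Real.log_pow] at h3 h4
    have h5 := Real.log_two_gt_d9
    have h6 := Real.log_two_lt_d9
    push_cast at h4
    constructor
    · nlinarith
    · nlinarith
  have hh_eq : LibH.hl lam c a = h := ha3 a (by rw [mem_Ico]; omega)
  have h2i1 : 2 ^ (i + 1) = 2 * 2 ^ i := by rw [pow_succ]; ring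
  have halog := hloga a ha1 (by omega)
  have hh_le : (h:ℝ) ≤ c * (i:ℝ) ^ lam := by
    rw [← hh_eq]
    unfold LibH.hl
    have h0 : 0 ≤ Real.log (a:ℝ) := by linarith [halog.1]
    refine (Nat.floor_le (by positivity)).trans ?_
    have := Real.rpow_le_rpow h0 halog.2 (by linarith : 0 ≤ lam)
    gcongr
  have hh_ge : (H0 : ℝ) ≤ h := by
    have h0 : 0 ≤ Real.log (a:ℝ) := by linarith [halog.1]
    have h1 : c * Real.log a ^ lam < h + 1 := by
      rw [← hh_eq]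
      unfold LibH.hl
      exact Nat.lt_floor_add_one _
    have h2 : ((i:ℝ) / 2) ^ lam ≤ Real.log a ^ lam :=
      Real.rpow_le_rpow (by positivity) halog.1 (by linarith)
    rw [Real.div_rpow hi0.le (by norm_num)] at h2
    rw [Real.rpow_zero, mul_one, div_le_iff₀ hc] at hHi
    have h3 : (H0 + 1 : ℝ) ≤ c * ((i:ℝ) ^ lam / 2 ^ lam) := by
      have e1 : c * ((i:ℝ) ^ lam / 2 ^ lam) = ((i:ℝ) ^ lam * c) / 2 ^ lam := by ring
      rw [e1, le_div_iff₀ (by positivity)]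
      linarith
    have h4 : c * ((i:ℝ) ^ lam / 2 ^ lam) ≤ c * Real.log a ^ lam := by gcongr
    linarith
  have hH0h : H0 ≤ h := by exact_mod_cast hh_ge
  obtain ⟨hz3, hom⟩ := hH0 h hH0h
  have h2mem : 2 ∈ Pool.Gal99.pr (zz C h) := by
    unfold Pool.Gal99.pr
    rw [Finset.mem_filter, Finset.mem_range]
    exact ⟨by omega, Nat.prime_two⟩
  obtain ⟨m0, hm0⟩ := hom 2 h2mem σ hσ
  set s := erz (zz C h) 2 with hs
  set T : ℕ := ⌊(i : ℝ) ^ θ⌋₊ with hT
  have hTle : (T:ℝ) ≤ (i : ℝ) ^ θ := Nat.floor_le (by positivity)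
  -- `log h ≤ (lam + 1) log i`
  have hhi : (h:ℝ) ≤ (i:ℝ) ^ (lam + 1) := hh_le.trans c1
  have hh1 : (1:ℝ) ≤ h := by
    have : 0 < h := by
      rcases Nat.eq_zero_or_pos h with h0 | h0
      · exfalso
        rw [h0] at hz3
        unfold zz at hz3
        simp only [Nat.cast_zero, Real.log_zero] at hz3
        rw [Real.zero_rpow hC0.ne'] at hz3
        simp at hz3
      · exact h0
    exact_mod_cast this
  have hh0 : (0:ℝ) < h := by linarith
  have hhN : 0 < h := by exact_mod_cast hh0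
  have hlogh : Real.log h ≤ (lam + 1) * Real.log i := by
    have h1 := Real.log_le_log hh0 hhi
    rwa [Real.log_rpow hi0] at h1
  have hlogh0 : 0 ≤ Real.log (h:ℝ) := Real.log_nonneg hh1
  have hlogC : Real.log (h:ℝ) ^ C ≤ ((lam + 1) * Real.log i) ^ C :=
    Real.rpow_le_rpow hlogh0 hlogh hC0.le
  have hzT : zz C h ≤ T := by
    unfold zz
    rw [hT]
    exact Nat.floor_le_floor (hlogC.trans c2)
  have hsT : ∀ p ∈ pr s, p ≤ T := fun p hp => (erz_le hp).trans hzT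
  set η : ℝ := (h : ℝ) ^ (-g) / 2 with hη
  have hη0 : 0 < η := by positivity
  have hmany := many_classes s T hsT m0 h hhN σ hσ η hη0 (by
    rw [hη, hg]
    have e1 : 2 * ((h:ℝ) ^ (-((1 + ε₀) / C)) / 2) = (h:ℝ) ^ (-((1 + ε₀) / C)) := by ring
    rw [e1]
    exact hm0)
  set P : ℕ := primorial T with hP
  have hP0 : 0 < P := primorial_pos T
  have hPR : (0:ℝ) < P := by exact_mod_cast hP0
  set G : Finset ℕ := (Ico a (a + ℓ)).filter (fun m => m % P ∈ GS T h σ η) with hG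
  have hGcard := card_mod_ge a ℓ P hP0 (GS T h σ η) (by unfold GS; exact filter_subset _ _)
  have h2T : 8 * (T:ℝ) ≤ i := by linarith
  -- `2 P ≤ ℓ`
  have hPℓ : 2 * (P:ℝ) ≤ ℓ := by
    have h1 : (P:ℝ) ≤ (4:ℝ) ^ T := by exact_mod_cast primorial_le_four_pow T
    have h2 : (4:ℝ) ^ T = (2:ℝ) ^ ((2 * T : ℕ) : ℝ) := by
      rw [Real.rpow_natCast, pow_mul]; norm_num
    have h3 : (2:ℝ) ^ ((2 * T : ℕ) : ℝ) ≤ (2:ℝ) ^ ((i : ℝ) / 2) := by
      apply Real.rpow_le_rpow_of_exponent_le (by norm_num)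
      push_cast
      linarith
    have h4 : (2:ℝ) ^ i = (2:ℝ) ^ ((i : ℝ) / 2) * (2:ℝ) ^ ((i : ℝ) / 2) := by
      rw [← Real.rpow_add (by norm_num), ← Real.rpow_natCast]; congr 1; ring
    have h5 : 2 * (2:ℝ) ^ ((i : ℝ) / 2) ≤ (2:ℝ) ^ i / (2 * (i : ℝ) ^ (lam + 1)) := by
      rw [le_div_iff₀ (by positivity), h4]
      have : 0 < (2:ℝ) ^ ((i : ℝ) / 2) := by positivity
      nlinarith
    linarith
  have hfac : (ℓ:ℝ) / (2 * P) ≤ (ℓ:ℝ) / P - 1 := by
    have e1 : (ℓ:ℝ) / (2 * P) = (ℓ:ℝ) / P / 2 := by field_simp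
    have h1 : 2 ≤ (ℓ:ℝ) / P := by rw [le_div_iff₀ hPR]; exact hPℓ
    rw [e1]
    linarith
  have hv := vee_posA T
  have hPzPos : (0:ℝ) < Pz s := by exact_mod_cast Pz_pos s
  have hPcPos : (0:ℝ) < Pc s T := by exact_mod_cast Pc_pos s T
  have hG1 : (ℓ:ℝ) * (vee T * η) / (2 * Pz s) ≤ (G.card : ℝ) := by
    refine le_trans ?_ hGcard
    have hPP : (P:ℝ) = Pz s * Pc s T := by
      rw [hP, ← Pz_mul_Pc s T hsT]; push_cast; rfl
    calc (ℓ:ℝ) * (vee T * η) / (2 * Pz s) = (ℓ:ℝ) / (2 * P) * (Pc s T * (vee T * η)) := by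
          rw [hPP]; field_simp
      _ ≤ ((ℓ:ℝ) / P - 1) * ((GS T h σ η).card : ℝ) := by
          apply mul_le_mul hfac hmany (by positivity)
          have : (0:ℝ) ≤ (ℓ:ℝ) / (2 * P) := by positivity
          linarith
  have hmG : ∀ m ∈ G, m ∈ Ico a (a + ℓ) := fun m hm => (mem_filter.mp hm).1
  have hhsmall : h < 2 ^ i / 4 + 1 := by
    have h1 : (h:ℝ) ≤ 2 ^ i / 16 := hhi.trans c4
    have h2 : 16 * h ≤ 2 ^ i := by
      have : 16 * (h:ℝ) ≤ 2 ^ i := by linarith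
      exact_mod_cast this
    omega
  refine ⟨h, G, ?_, fun m hm => ha3 m (hmG m hm), hh_le, ?_, ?_⟩
  · intro m hm
    have h1 := hmG m hm
    rw [mem_Ico] at h1 ⊢
    omega
  · intro m hm
    have hm1 := hmG m hm
    have hhm : LibH.hl lam c m = h := ha3 m hm1
    rw [mem_Ico] at hm1
    have hlm : Nat.log 2 m = i := Nat.log_eq_of_pow_le_of_lt_pow (by omega) (by omega)
    have hlmh : Nat.log 2 (m + LibH.hl lam c m) = Nat.log 2 m := by
      rw [hlm, hhm]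
      apply Nat.log_eq_of_pow_le_of_lt_pow (by omega) (by omega)
    have hmM : M0 ≤ m := by
      have : i < 2 ^ i := Nat.lt_two_pow_self
      omega
    have hlev : level θ m = T := by unfold level; rw [hlm]
    apply hM0 m hmM σ hσ hlmh
    rw [hhm, hlev]
    have h1 := (mem_filter.mp hm).2
    unfold GS at h1
    rw [mem_filter] at h1
    rw [← rough_mod T h m]
    exact h1.2
  · refine le_trans ?_ hG1
    -- the final inequality
    have hT1 : (T:ℝ) + 1 ≤ i := by linarith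
    have hvT : 1 / (i:ℝ) ≤ vee T := by
      have h1 := inv_vee_le T
      have h2 : 1 / vee T ≤ i := h1.trans hT1
      rw [div_le_iff₀ hv] at h2
      rw [div_le_iff₀ hi0]
      linarith
    have hηi : (i:ℝ) ^ (-((lam + 1) * g)) / 2 ≤ η := by
      rw [hη]
      have h1 : ((i:ℝ) ^ (lam + 1)) ^ (-g) ≤ (h:ℝ) ^ (-g) :=
        Real.rpow_le_rpow_of_nonpos hh0 hhi (by linarith)
      rw [← Real.rpow_mul hi0.le] at h1
      have e1 : (lam + 1) * -g = -((lam + 1) * g) := by ring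
      rw [e1] at h1
      linarith
    have hPz : (Pz s : ℝ) ≤ Real.exp (2 * ((lam + 1) * Real.log i) ^ C) := by
      have h1 : (Pz s : ℝ) ≤ (4:ℝ) ^ (zz C h) := by exact_mod_cast Pz_erz_le h2mem
      have h2 : (4:ℝ) ≤ Real.exp 2 := by
        have h6 : Real.exp 2 = Real.exp 1 * Real.exp 1 := by rw [← Real.exp_add]; norm_num
        have h7 := Real.add_one_le_exp (1 : ℝ)
        rw [h6]
        nlinarith
      have h3 : (4:ℝ) ^ (zz C h) ≤ Real.exp (2 * (zz C h : ℝ)) := by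
        calc (4:ℝ) ^ (zz C h) ≤ (Real.exp 2) ^ (zz C h) := pow_le_pow_left₀ (by norm_num) h2 _
          _ = Real.exp (2 * (zz C h : ℝ)) := by rw [← Real.exp_nat_mul]; congr 1; ring
      have h4 : (zz C h : ℝ) ≤ ((lam + 1) * Real.log i) ^ C := by
        refine le_trans ?_ hlogC
        unfold zz
        exact Nat.floor_le (by positivity)
      exact h1.trans (h3.trans (Real.exp_le_exp.mpr (by linarith)))
    set X := Real.exp (2 * ((lam + 1) * Real.log i) ^ C) with hX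
    have hX0 : 0 < X := Real.exp_pos _
    have hlow : ((2:ℝ) ^ i / (2 * (i : ℝ) ^ (lam + 1))) * (1 / (i:ℝ) *
        ((i:ℝ) ^ (-((lam + 1) * g)) / 2)) / (2 * X) ≤ (ℓ:ℝ) * (vee T * η) / (2 * Pz s) := by
      have h1 : ((2:ℝ) ^ i / (2 * (i : ℝ) ^ (lam + 1))) * (1 / (i:ℝ) *
        ((i:ℝ) ^ (-((lam + 1) * g)) / 2)) ≤ (ℓ:ℝ) * (vee T * η) := by gcongr
      exact div_le_div₀ (by positivity) h1 (by positivity) (by linarith)
    refine le_trans ?_ hlow
    have e2 : ((2:ℝ) ^ i / (2 * (i : ℝ) ^ (lam + 1))) * (1 / (i:ℝ) *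
        ((i:ℝ) ^ (-((lam + 1) * g)) / 2)) / (2 * X) =
        2 ^ i * Real.exp (-(Real.log 8 + (lam + 2 + (lam + 1) * g) * Real.log i +
          2 * ((lam + 1) * Real.log i) ^ C)) := by
      have e3 : Real.exp (-(Real.log 8 + (lam + 2 + (lam + 1) * g) * Real.log i +
          2 * ((lam + 1) * Real.log i) ^ C)) =
          (8:ℝ)⁻¹ * ((i : ℝ) ^ (lam + 1))⁻¹ * (i:ℝ)⁻¹ * (i:ℝ) ^ (-((lam + 1) * g)) * X⁻¹ := by
        have e8 : (8:ℝ)⁻¹ = Real.exp (-Real.log 8) := by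
          rw [Real.exp_neg, Real.exp_log (by norm_num)]
        have e9 : ((i:ℝ))⁻¹ = Real.exp (-Real.log i) := by rw [Real.exp_neg, Real.exp_log hi0]
        rw [e9, e8, hX, ← Real.exp_neg, Real.rpow_def_of_pos hi0 (-((lam + 1) * g)),
          Real.rpow_def_of_pos hi0 (lam + 1), ← Real.exp_neg, ← Real.exp_add, ← Real.exp_add,
          ← Real.exp_add, ← Real.exp_add]
        congr 1
        ring
      rw [e3]
      field_simp
      ring
    rw [e2]
    have h8 : Real.log 8 ≤ Real.log 16 := Real.log_le_log (by norm_num) (by norm_num)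
    have := Real.exp_le_exp.mpr (show -(Real.log i) ^ (C₀ + e) ≤
      -(Real.log 8 + (lam + 2 + (lam + 1) * g) * Real.log i +
          2 * ((lam + 1) * Real.log i) ^ C) by linarith)
    gcongr

end Pool.Agent.LibDev91
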