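import Pool.Agent.LibDev91.LowC
import Pool.Agent.LibH.Model
import Pool.Agent.LibCramer.SecondMoment

/-!
Granville's model: the deviating windows occur with probability at least one half; the second
moment of their number.
-/

namespace Pool.Agent.LibDev91

open Filter Topology MeasureTheory ProbabilityTheory
open Pool.Agent.LibH
open Pool.Agent.LibCramer (ind measurable_ind wind var_bound wind_memLp wind_integral)
open scoped ENNReal

variable {Ω : Type*} [MeasurableSpace Ω] {μ : Measure Ω}

lemma ind_memLp [IsProbabilityMeasure μ] {E : ℕ → Set Ω} (hE : ∀ n, MeasurableSet (E n)) (j : ℕ) :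
    MemLp (ind E j) 2 μ := (memLp_const (1 : ℝ)).indicator (hE j)

lemma ind_integral [IsProbabilityMeasure μ] {E : ℕ → Set Ω} (hE : ∀ n, MeasurableSet (E n))
    (j : ℕ) : ∫ ω, ind E j ω ∂μ = μ.real (E j) := by
  unfold ind
  rw [integral_indicator_const _ (hE j)]
  simp

lemma var_ind_le [IsProbabilityMeasure μ] {E : ℕ → Set Ω} (hE : ∀ n, MeasurableSet (E n))
    (j : ℕ) : Var[ind E j; μ] ≤ μ.real (E j) := by
  refine (variance_le_expectation_sq (measurable_ind hE j).aestronglyMeasurable).trans ?_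
  have h : (ind E j ^ 2 : Ω → ℝ) = ind E j := by
    funext ω
    unfold ind
    by_cases h : ω ∈ E j
    · simp [h]
    · simp [h]
  rw [h, ind_integral hE j]

lemma var_sum_le [IsProbabilityMeasure μ] {E : ℕ → Set Ω} (hE : ∀ n, MeasurableSet (E n))
    (hind : iIndepSet E μ) (S : Finset ℕ) :
    Var[∑ j ∈ S, ind E j; μ] ≤ ∑ j ∈ S, μ.real (E j) := by
  have hf : iIndepFun (ind E) μ := hind.iIndepFun_indicator
  rw [IndepFun.variance_sum (fun i _ => ind_memLp hE i) (fun i _ j _ hij => hf.indepFun hij)]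
  exact Finset.sum_le_sum fun j _ => var_ind_le hE j

/-- Chebyshev for the number of points of a window -/
lemma cheb [IsProbabilityMeasure μ] {E : ℕ → Set Ω} (hE : ∀ n, MeasurableSet (E n))
    (hind : iIndepSet E μ) (S : Finset ℕ) {D : ℝ} (hD : 0 < D) :
    μ.real {ω | D ≤ |(∑ j ∈ S, ind E j) ω - ∑ j ∈ S, μ.real (E j)|} ≤
      (∑ j ∈ S, μ.real (E j)) / D ^ 2 := by
  have hLp : MemLp (∑ j ∈ S, ind E j) 2 μ := memLp_finsetSum' _ fun i _ => ind_memLp hE i
  have h1 := meas_ge_le_variance_div_sq hLp hD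
  have h2 : μ[∑ j ∈ S, ind E j] = ∑ j ∈ S, μ.real (E j) := by
    simp only [Finset.sum_apply]
    rw [integral_finsetSum _ fun i _ => (ind_memLp hE i).integrable (by norm_num)]
    exact Finset.sum_congr rfl fun i _ => ind_integral hE i
  rw [h2] at h1
  have h3 : μ.real {ω | D ≤ |(∑ j ∈ S, ind E j) ω - ∑ j ∈ S, μ.real (E j)|} ≤
      Var[∑ j ∈ S, ind E j; μ] / D ^ 2 := by
    rw [Measure.real]
    refine ENNReal.toReal_le_of_le_ofReal ?_ h1
    exact div_nonneg (variance_nonneg _ _) (by positivity)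
  refine h3.trans ?_
  gcongr
  exact var_sum_le hE hind S

/-- the window deviates with probability at least one half -/
lemma prob_half [IsProbabilityMeasure μ] {E : ℕ → Set Ω} (hE : ∀ n, MeasurableSet (E n))
    (hind : iIndepSet E μ) {lam c t A σ : ℝ} {m : ℕ} (hσ : σ = 1 ∨ σ = -1)
    (hD : 2 ≤ dev lam c t A m)
    (hMD : mean lam c m ≤ dev lam c t A m ^ 2)
    (hS : 4 * dev lam c t A m ≤
      σ * ((∑ j ∈ Finset.Ioc m (m + hl lam c m), μ.real (E j)) - mean lam c m)) :
    1 / 2 ≤ μ.real (BadW E lam c t A σ m) := by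
  set S := Finset.Ioc m (m + hl lam c m) with hSdef
  set e := ∑ j ∈ S, μ.real (E j) with he
  set M := mean lam c m with hMdef
  set D := dev lam c t A m with hDdef
  have he0 : 0 ≤ e := Finset.sum_nonneg fun j _ => measureReal_nonneg
  have hmeas := measurableSet_BadW hE lam c t A σ m
  have hcompl : μ.real (BadW E lam c t A σ m)ᶜ = 1 - μ.real (BadW E lam c t A σ m) :=
    probReal_compl_eq_one_sub hmeas
  -- the complement is contained in the event of Chebyshev
  set F := σ * (e - M) - D with hF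
  have hF3 : 3 * D ≤ F := by linarith
  have hF0 : 0 < F := by linarith
  have hsub : (BadW E lam c t A σ m)ᶜ ⊆ {ω | F ≤ |(∑ j ∈ S, ind E j) ω - e|} := by
    intro ω hω
    simp only [BadW, Set.mem_compl_iff, Set.mem_ofPred_eq, not_le, cnt_eq_sum_ind] at hω ⊢
    rw [← hSdef, ← hMdef, ← hDdef] at hω
    rcases hσ with rfl | rfl
    · rw [abs_sub_comm]
      refine le_trans ?_ (le_abs_self _)
      linarith
    · refine le_trans ?_ (le_abs_self _)
      linarith
  have h1 : μ.real (BadW E lam c t A σ m)ᶜ ≤ e / F ^ 2 :=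
    (measureReal_mono hsub).trans (cheb hE hind S hF0)
  have h2 : e / F ^ 2 ≤ 1 / 2 := by
    rw [div_le_div_iff₀ (by positivity) (by norm_num)]
    rcases hσ with rfl | rfl
    · have h3 : e = M + D + F := by rw [hF]; ring
      rw [h3]
      nlinarith
    · have h3 : e ≤ M := by linarith
      nlinarith
  linarith

/-- independence of disjoint windows -/
lemma indep_BadW {E : ℕ → Set Ω} (hE : ∀ n, MeasurableSet (E n)) (hind : iIndepSet E μ)
    (lam c t A σ : ℝ) {m n : ℕ} (h : m + hl lam c m ≤ n) :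
    μ.real (BadW E lam c t A σ m ∩ BadW E lam c t A σ n) =
      μ.real (BadW E lam c t A σ m) * μ.real (BadW E lam c t A σ n) := by
  have hdisj : Disjoint (Finset.Ioc m (m + hl lam c m)) (Finset.Ioc n (n + hl lam c n)) := by
    rw [Finset.disjoint_left]
    intro j h1 h2
    rw [Finset.mem_Ioc] at h1 h2
    omega
  have hf : iIndepFun (ind E) μ := hind.iIndepFun_indicator
  have h1 := hf.indepFun_finset _ _ hdisj (measurable_ind hE)
  have hset : ∀ k : ℕ, BadW E lam c t A σ k =
      {ω | (fun p : Finset.Ioc k (k + hl lam c k) => ind E p ω) ∈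
      {f : Finset.Ioc k (k + hl lam c k) → ℝ |
        dev lam c t A k ≤ σ * ((∑ j, f j) - mean lam c k)}} := by
    intro k
    ext ω
    simp only [BadW, Set.mem_ofPred_eq, cnt_eq_sum_ind, Finset.sum_apply]
    rw [Finset.univ_eq_attach, Finset.sum_attach (Finset.Ioc k (k + hl lam c k)) (fun j => ind E j ω)]
  have hms : ∀ k : ℕ, MeasurableSet {f : Finset.Ioc k (k + hl lam c k) → ℝ |
        dev lam c t A k ≤ σ * ((∑ j, f j) - mean lam c k)} := by
    intro k
    exact measurableSet_le measurable_const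
      (((Finset.measurable_sum _ fun j _ => measurable_pi_apply j).sub measurable_const).const_mul σ)
  have h2 := h1.measure_inter_preimage_eq_mul _ _ (hms m) (hms n)
  rw [hset m, hset n]
  simp only [Measure.real]
  rw [← ENNReal.toReal_mul]
  congr 1

/-- the second moment -/
lemma few_prob [IsProbabilityMeasure μ] {E : ℕ → Set Ω} (hE : ∀ n, MeasurableSet (E n))
    (hind : iIndepSet E μ) (lam c t A σ : ℝ) (h : ℕ) (hh : 0 < h) (G : Finset ℕ)
    (hG : G.Nonempty)
    (hGh : ∀ m ∈ G, hl lam c m = h) (hGp : ∀ m ∈ G, 1 / 2 ≤ μ.real (BadW E lam c t A σ m)) :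
    μ.real {ω | ∑ m ∈ G, (BadW E lam c t A σ m).indicator (fun _ => (1:ℝ)) ω ≤
      (G.card : ℝ) / 4} ≤ 16 * h / G.card := by
  classical
  set A' : ℕ → Set Ω := fun m => if m ∈ G then BadW E lam c t A σ m else ∅ with hA'
  have hA'm : ∀ m, MeasurableSet (A' m) := by
    intro m
    simp only [hA']
    split_ifs
    · exact measurableSet_BadW hE lam c t A σ m
    · exact MeasurableSet.empty
  obtain ⟨N, hN⟩ : ∃ N : ℕ, G ⊆ Finset.range N := ⟨G.sup id + 1, fun m hm => by
    rw [Finset.mem_range]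
    have := Finset.le_sup (f := id) hm
    simp only [id] at this
    omega⟩
  have hcard : (0:ℝ) < G.card := by exact_mod_cast hG.card_pos
  have hhR : (0:ℝ) < h := by exact_mod_cast hh
  set e : ℝ := ∑ m ∈ Finset.range N, (1:ℝ) * μ.real (A' m) with he
  have heG : e = ∑ m ∈ G, μ.real (BadW E lam c t A σ m) := by
    rw [he, ← Finset.sum_subset hN]
    · apply Finset.sum_congr rfl
      intro m hm
      simp only [hA', if_pos hm, one_mul]
    · intro m _ hm
      simp only [hA', if_neg hm, measureReal_empty, mul_zero]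
  have helow : (G.card : ℝ) / 2 ≤ e := by
    rw [heG]
    calc (G.card : ℝ) / 2 = ∑ _m ∈ G, (1/2 : ℝ) := by
          rw [Finset.sum_const, nsmul_eq_mul]; ring
      _ ≤ _ := Finset.sum_le_sum hGp
  have he0 : 0 < e := by linarith
  have hv := var_bound (μ := μ) (W := fun _ => (1:ℝ)) (A := A') (ℓ := fun _ => h) (C := h) hA'm
    (fun _ => zero_le_one) (by
      intro m n _ hmn
      simp only [hA']
      split_ifs with h1 h2
      · rw [indep_BadW hE hind lam c t A σ (by rw [hGh m h1]; exact hmn)]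
      · simp
      · simp
      · simp) (fun _ _ _ _ => le_refl _) (fun _ => by simp) N
  set Z : Ω → ℝ := fun ω => ∑ m ∈ Finset.range N, wind (fun _ => (1:ℝ)) A' m ω with hZ
  have hZG : ∀ ω, Z ω = ∑ m ∈ G, (BadW E lam c t A σ m).indicator (fun _ => (1:ℝ)) ω := by
    intro ω
    simp only [hZ]
    rw [← Finset.sum_subset hN]
    · apply Finset.sum_congr rfl
      intro m hm
      simp only [wind, hA', if_pos hm]
    · intro m _ hm
      simp only [wind, hA', if_neg hm, Set.indicator_empty]
  have hZLp : MemLp Z 2 μ := memLp_finsetSum _ fun i _ => wind_memLp (fun _ => (1:ℝ)) hA'm i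
  have hZint : ∫ ω, Z ω ∂μ = e := by
    simp only [hZ, he]
    rw [integral_finsetSum _ fun i _ => (wind_memLp (fun _ => (1:ℝ)) hA'm i).integrable (by norm_num)]
    exact Finset.sum_congr rfl fun i _ => wind_integral (fun _ => (1:ℝ)) hA'm i
  have hsub : {ω | ∑ m ∈ G, (BadW E lam c t A σ m).indicator (fun _ => (1:ℝ)) ω ≤
      (G.card : ℝ) / 4} ⊆ {ω | e / 2 ≤ |Z ω - μ[Z]|} := by
    intro ω hω
    simp only [Set.mem_ofPred_eq] at hω ⊢
    rw [← hZG] at hω
    rw [hZint, abs_sub_comm]
    refine le_trans ?_ (le_abs_self _)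
    linarith
  have h1 := meas_ge_le_variance_div_sq hZLp (half_pos he0)
  have h2 : μ.real {ω | e / 2 ≤ |Z ω - μ[Z]|} ≤ Var[Z; μ] / (e / 2) ^ 2 := by
    rw [Measure.real]
    refine ENNReal.toReal_le_of_le_ofReal ?_ h1
    exact div_nonneg (variance_nonneg _ _) (by positivity)
  refine (measureReal_mono hsub).trans (h2.trans ?_)
  have h3 : Var[Z; μ] ≤ 2 * h * e := hv
  calc Var[Z; μ] / (e / 2) ^ 2 ≤ (2 * h * e) / (e / 2) ^ 2 := by gcongr
    _ = 8 * h / e := by field_simp; ring
    _ ≤ 8 * h / ((G.card : ℝ) / 2) := by gcongr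
    _ = 16 * h / G.card := by field_simp; ring

end Pool.Agent.LibDev91
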