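import Pool.Agent.LibDev91.LowD

/-!
Granville's model: the almost sure lower bound for the number of deviating windows.
-/

namespace Pool.Agent.LibDev91

open Filter Topology MeasureTheory ProbabilityTheory
open Pool.Agent.LibH
open scoped ENNReal

variable {Ω : Type*} [MeasurableSpace Ω] {μ : Measure Ω}

lemma sum_ev (lam c E : ℝ) (hc : 0 < c) : ∀ᶠ i : ℕ in atTop,
    16 * (c * (i : ℝ) ^ lam) * Real.exp ((Real.log i) ^ E) ≤ (3 / 2 : ℝ) ^ i := by
  have hN : Tendsto (fun i : ℕ => (i : ℝ)) atTop atTop := tendsto_natCast_atTop_atTop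
  have hL : Tendsto (fun i : ℕ => Real.log (i : ℝ)) atTop atTop := Real.tendsto_log_atTop.comp hN
  have hl : 0 < Real.log (3 / 2) := Real.log_pos (by norm_num)
  have h1 := (isLittleO_log_rpow_rpow_atTop E (show (0:ℝ) < 1 by norm_num)).def
    (c := Real.log (3 / 2) / 3) (by positivity)
  have h2 := (isLittleO_log_rpow_rpow_atTop 1 (show (0:ℝ) < 1 by norm_num)).def
    (c := Real.log (3 / 2) / (3 * (|lam| + 1))) (by positivity)
  have h3 : ∀ᶠ x : ℝ in atTop, Real.log (16 * c) ≤ Real.log (3 / 2) / 3 * x := by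
    have := tendsto_id.const_mul_atTop (show 0 < Real.log (3 / 2) / 3 by positivity)
    exact this.eventually_ge_atTop _
  filter_upwards [hN.eventually h1, hN.eventually h2, hN.eventually h3,
    hL.eventually_gt_atTop 0, eventually_ge_atTop 1] with i a1 a2 a3 a4 a5
  have hi0 : (0:ℝ) < i := by exact_mod_cast a5
  rw [Real.norm_of_nonneg (by positivity), Real.norm_of_nonneg (by positivity), Real.rpow_one] at a1
  rw [Real.norm_of_nonneg (by positivity), Real.norm_of_nonneg (by positivity), Real.rpow_one,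
    Real.rpow_one] at a2
  have e1 : 16 * (c * (i : ℝ) ^ lam) * Real.exp ((Real.log i) ^ E) =
      Real.exp (Real.log (16 * c) + lam * Real.log i + (Real.log i) ^ E) := by
    rw [Real.exp_add, Real.exp_add, Real.exp_log (by positivity), mul_comm lam,
      ← Real.rpow_def_of_pos hi0]
    ring
  have e2 : (3 / 2 : ℝ) ^ i = Real.exp (Real.log (3 / 2) * i) := by
    rw [mul_comm, Real.exp_nat_mul, Real.exp_log (by norm_num)]
  rw [e1, e2]
  apply Real.exp_le_exp.mpr
  have h4 : lam * Real.log i ≤ Real.log (3 / 2) / 3 * i := by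
    calc lam * Real.log i ≤ (|lam| + 1) * Real.log i := by
          have : lam ≤ |lam| + 1 := by linarith [le_abs_self lam]
          exact mul_le_mul_of_nonneg_right this a4.le
      _ ≤ (|lam| + 1) * (Real.log (3 / 2) / (3 * (|lam| + 1)) * i) := by
          have : 0 ≤ |lam| + 1 := by positivity
          gcongr
      _ = _ := by field_simp
  linarith

/-- one exponent and one sign -/
lemma lower_one [IsProbabilityMeasure μ] {E : ℕ → Set Ω} (hE : ∀ n, MeasurableSet (E n))
    (hind : iIndepSet E μ) {θ : ℝ} (hθ : 0 < θ) (hθ1 : θ < 1)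
    (hp : ∀ᶠ n : ℕ in atTop, μ.real (E n) = gran θ n)
    {lam c t A : ℝ} (hlam : 1 < lam) (hc : 0 < c) (ht0 : 0 < t) (ht : t ≤ 1 / 2)
    (hA : 0 ≤ A) {e : ℝ} (he : 0 < e) {σ : ℝ} (hσ : σ = 1 ∨ σ = -1) :
    ∀ᵐ ω ∂μ, ∀ᶠ i : ℕ in atTop, ∀ X : ℕ, 2 ^ (i + 1) ≤ X →
      2 ^ i * Real.exp (-(Real.log i) ^ (lam / ((lam - 1) * t) + e)) / 4 ≤
        (devCount {n | ω ∈ E n} lam c t A σ X : ℝ) := by
  classical
  have hl1 : 0 < lam - 1 := by linarith
  set Ex : ℝ := lam / ((lam - 1) * t) + e with hEx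
  obtain ⟨n0, hn0⟩ := eventually_atTop.mp hp
  have hLL : Tendsto (fun m : ℕ => Real.log (Real.log (m : ℝ))) atTop atTop :=
    Real.tendsto_log_atTop.comp tendsto_logn
  have hm1 : Tendsto (fun m : ℕ => mean lam c m) atTop atTop := by
    unfold mean
    exact ((tendsto_rpow_atTop (by linarith)).comp tendsto_logn).const_mul_atTop hc
  obtain ⟨m1, hm1'⟩ := eventually_atTop.mp ((hm1.eventually_ge_atTop 1).and
    ((hLL.eventually_ge_atTop 1).and
      ((tendsto_dev (A := A) hlam hc ht hA).eventually_ge_atTop 2)))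
  obtain ⟨i1, hi1⟩ := eventually_atTop.mp ((good_count lam c t A θ e hlam hc ht0 ht hθ hθ1 he).and
    ((sum_ev lam c Ex hc).and ((eventually_ge_atTop (max m1 n0)).and (eventually_ge_atTop 2))))
  have hex : ∀ i : ℕ, ∃ (h : ℕ) (G : Finset ℕ), i1 ≤ i → (G ⊆ Finset.Ico (2 ^ i) (2 ^ (i + 1)) ∧
      (∀ m ∈ G, hl lam c m = h) ∧ (h : ℝ) ≤ c * (i : ℝ) ^ lam ∧
      (∀ m ∈ G, 4 * dev lam c t A m ≤
        σ * ((∑ n ∈ Finset.Ioc m (m + hl lam c m), gran θ n) - mean lam c m)) ∧
      2 ^ i * Real.exp (-(Real.log i) ^ Ex) ≤ (G.card : ℝ)) := by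
    intro i
    by_cases hi : i1 ≤ i
    · obtain ⟨h, G, hG⟩ := (hi1 i hi).1 σ hσ
      exact ⟨h, G, fun _ => hG⟩
    · exact ⟨0, ∅, fun h => absurd h hi⟩
  choose h G hG using hex
  set F : ℕ → Set Ω := fun i => if i1 ≤ i then
    {ω | ∑ m ∈ G i, (BadW E lam c t A σ m).indicator (fun _ => (1:ℝ)) ω ≤ ((G i).card : ℝ) / 4}
    else ∅ with hF
  have hFle : ∀ i : ℕ, μ.real (F i) ≤ (3 / 4 : ℝ) ^ i := by
    intro i
    simp only [hF]
    split_ifs with hi
    · obtain ⟨g1, g2, g3, g4, g5⟩ := hG i hi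
      obtain ⟨_, s1, s2, s3⟩ := hi1 i hi
      have hcardpos : 0 < ((G i).card : ℝ) := lt_of_lt_of_le (by positivity) g5
      have hne : (G i).Nonempty := by
        rw [← Finset.card_pos]; exact_mod_cast hcardpos
      have hge : ∀ m ∈ G i, m1 ≤ m ∧ n0 ≤ m := by
        intro m hm
        have h1 := g1 hm
        rw [Finset.mem_Ico] at h1
        have h2 : i < 2 ^ i := Nat.lt_two_pow_self
        have h3 : m1 ≤ i := (le_max_left _ _).trans s2
        have h4 : n0 ≤ i := (le_max_right _ _).trans s2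
        omega
      have hhalf : ∀ m ∈ G i, 1 / 2 ≤ μ.real (BadW E lam c t A σ m) := by
        intro m hm
        obtain ⟨p1, p2⟩ := hge m hm
        obtain ⟨q1, q2, q3⟩ := hm1' m p1
        refine prob_half hE hind hσ q3 ?_ ?_
        · -- `mean ≤ dev ^ 2`
          unfold dev
          have hM0 : 0 < mean lam c m := by linarith
          rw [mul_pow, ← Real.rpow_natCast (mean lam c m ^ (1 - t)) 2, ← Real.rpow_mul hM0.le]
          have h5 : mean lam c m ^ (1:ℝ) ≤ mean lam c m ^ ((1 - t) * ((2:ℕ):ℝ)) := by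
            apply Real.rpow_le_rpow_of_exponent_le q1
            push_cast
            linarith
          rw [Real.rpow_one] at h5
          have h6 : (1:ℝ) ≤ (Real.log (Real.log (m:ℝ)) ^ A) ^ 2 :=
            one_le_pow₀ (Real.one_le_rpow q2 hA)
          have h7 : 0 < mean lam c m ^ ((1 - t) * ((2:ℕ):ℝ)) := by positivity
          nlinarith
        · have h5 : ∑ j ∈ Finset.Ioc m (m + hl lam c m), μ.real (E j) =
              ∑ j ∈ Finset.Ioc m (m + hl lam c m), gran θ j := by
            apply Finset.sum_congr rfl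
            intro j hj
            rw [Finset.mem_Ioc] at hj
            exact hn0 j (by omega)
          rw [h5]
          exact g4 m hm
      rcases Nat.eq_zero_or_pos (h i) with h0 | h0
      · -- no windows of length zero
        exfalso
        obtain ⟨m, hm⟩ := hne
        have h6 := g2 m hm
        obtain ⟨p1, p2⟩ := hge m hm
        obtain ⟨q1, q2, q3⟩ := hm1' m p1
        have hlow : c * Real.log (m:ℝ) ^ lam < 1 := by
          have := Nat.lt_floor_add_one (c * Real.log (m:ℝ) ^ lam)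
          have h8 : ⌊c * Real.log (m:ℝ) ^ lam⌋₊ = 0 := by
            have : hl lam c m = 0 := by rw [h6, h0]
            exact this
          rw [h8] at this
          simpa using this
        have hlog1 : 1 ≤ Real.log (m:ℝ) := by
          have h8 : 0 < Real.log (Real.log (m:ℝ)) := by linarith
          by_contra h9
          push Not at h9
          rcases le_or_gt 0 (Real.log (m:ℝ)) with h10 | h10
          · have := Real.log_nonpos h10 h9.le
            linarith
          · have h11 : (0:ℝ) ≤ Real.log (m:ℝ) := Real.log_natCast_nonneg m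
            linarith
        have h12 : mean lam c m ≤ c * Real.log (m:ℝ) ^ lam := by
          unfold mean
          have := Real.rpow_le_rpow_of_exponent_le hlog1 (show lam - 1 ≤ lam by linarith)
          gcongr
        linarith
      · refine (few_prob hE hind lam c t A σ (h i) h0 (G i) hne g2 hhalf).trans ?_
        rw [div_le_iff₀ hcardpos]
        have h5 : 16 * (c * (i : ℝ) ^ lam) ≤
            (3 / 2 : ℝ) ^ i * Real.exp (-(Real.log i) ^ Ex) := by
          rw [Real.exp_neg, ← div_eq_mul_inv, le_div_iff₀ (Real.exp_pos _)]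
          exact s1
        have h6 : (3 / 4 : ℝ) ^ i * 2 ^ i = (3 / 2 : ℝ) ^ i := by
          rw [← mul_pow]; norm_num
        calc 16 * (h i : ℝ) ≤ 16 * (c * (i : ℝ) ^ lam) := by linarith
          _ ≤ (3 / 2 : ℝ) ^ i * Real.exp (-(Real.log i) ^ Ex) := h5
          _ = (3 / 4 : ℝ) ^ i * (2 ^ i * Real.exp (-(Real.log i) ^ Ex)) := by rw [← h6]; ring
          _ ≤ (3 / 4 : ℝ) ^ i * ((G i).card : ℝ) := by gcongr
    · simp only [measureReal_empty]
      positivity
  have hsum : ∑' i, μ (F i) ≠ ∞ := by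
    have hs : Summable fun i : ℕ => (3 / 4 : ℝ) ^ i :=
      summable_geometric_of_lt_one (by norm_num) (by norm_num)
    refine ne_top_of_le_ne_top hs.tsum_ofReal_ne_top (ENNReal.tsum_le_tsum fun i => ?_)
    rw [← ENNReal.ofReal_toReal (measure_ne_top μ (F i))]
    exact ENNReal.ofReal_le_ofReal (hFle i)
  have hbc := ae_eventually_notMem hsum
  filter_upwards [hbc] with ω hω
  filter_upwards [hω, eventually_ge_atTop i1] with i h1 h2 X hX
  obtain ⟨g1, g2, g3, g4, g5⟩ := hG i h2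
  obtain ⟨_, s1, s2, s3⟩ := hi1 i h2
  simp only [hF, if_pos h2, Set.mem_ofPred_eq, not_le] at h1
  have h3 : ∑ m ∈ G i, (BadW E lam c t A σ m).indicator (fun _ => (1:ℝ)) ω =
      (((G i).filter (fun m => ω ∈ BadW E lam c t A σ m)).card : ℝ) := by
    rw [Finset.card_filter]
    push_cast
    apply Finset.sum_congr rfl
    intro m _
    by_cases h4 : ω ∈ BadW E lam c t A σ m
    · rw [Set.indicator_of_mem h4, if_pos h4]
    · rw [Set.indicator_of_notMem h4, if_neg h4]
  have h4 : (((G i).filter (fun m => ω ∈ BadW E lam c t A σ m)).card : ℝ) ≤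
      (devCount {n | ω ∈ E n} lam c t A σ X : ℝ) := by
    unfold devCount
    norm_cast
    apply Finset.card_le_card
    intro m hm
    rw [Finset.mem_filter] at hm
    rw [Finset.mem_filter, Finset.mem_Icc]
    have h5 := g1 hm.1
    rw [Finset.mem_Ico] at h5
    have h6 : 2 ^ 2 ≤ 2 ^ i := Nat.pow_le_pow_right (by norm_num) s3
    refine ⟨⟨by omega, by omega⟩, hm.2⟩
  calc 2 ^ i * Real.exp (-(Real.log i) ^ Ex) / 4 ≤ ((G i).card : ℝ) / 4 := by gcongr
    _ ≤ ∑ m ∈ G i, (BadW E lam c t A σ m).indicator (fun _ => (1:ℝ)) ω := h1.le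
    _ = _ := h3
    _ ≤ _ := h4

/-- **Granville's model**: the lower bound. -/
theorem granville_lower [IsProbabilityMeasure μ] {E : ℕ → Set Ω} (hE : ∀ n, MeasurableSet (E n))
    (hind : iIndepSet E μ) {θ : ℝ} (hθ : 0 < θ) (hθ1 : θ < 1)
    (hp : ∀ᶠ n : ℕ in atTop, μ.real (E n) = gran θ n)
    {lam c t A : ℝ} (hlam : 1 < lam) (hc : 0 < c) (ht0 : 0 < t) (ht : t ≤ 1 / 2)
    (hA : 0 ≤ A) :
    ∀ᵐ ω ∂μ, ∀ e : ℝ, 0 < e → ∀ᶠ X : ℕ in atTop, ∀ s : ℝ, (s = 1 ∨ s = -1) →
      X * Real.exp (-(Real.log (Real.log X)) ^ (lam / ((lam - 1) * t) + e)) ≤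
        (devCount {n | ω ∈ E n} lam c t A s X : ℝ) := by
  have hl1 : 0 < lam - 1 := by linarith
  set C₀ : ℝ := lam / ((lam - 1) * t) with hC₀
  have hC₀0 : 0 < C₀ := by positivity
  have hLL : Tendsto (fun m : ℕ => Real.log (Real.log (m : ℝ))) atTop atTop :=
    Real.tendsto_log_atTop.comp tendsto_logn
  have h1 : ∀ᵐ ω ∂μ, ∀ k : ℕ, ∀ s : ℝ, (s = 1 ∨ s = -1) → ∀ᶠ i : ℕ in atTop, ∀ X : ℕ,
      2 ^ (i + 1) ≤ X → 2 ^ i * Real.exp (-(Real.log i) ^ (C₀ + 1 / ((k : ℝ) + 1))) / 4 ≤
        (devCount {n | ω ∈ E n} lam c t A s X : ℝ) := by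
    rw [ae_all_iff]
    intro k
    have hk : (0 : ℝ) < 1 / ((k : ℝ) + 1) := by positivity
    filter_upwards [lower_one hE hind hθ hθ1 hp hlam hc ht0 ht hA hk (Or.inl rfl),
      lower_one hE hind hθ hθ1 hp hlam hc ht0 ht hA hk (Or.inr rfl)] with ω h1 h2 s hs
    rcases hs with rfl | rfl
    · exact h1
    · exact h2
  filter_upwards [h1] with ω hω e he
  obtain ⟨k, hk⟩ := exists_nat_one_div_lt he
  set Ek : ℝ := C₀ + 1 / ((k : ℝ) + 1) with hEk
  have hk0 : (0:ℝ) < 1 / ((k : ℝ) + 1) := by positivity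
  have hEk0 : 0 < Ek := by linarith
  have hEke : Ek < C₀ + e := by linarith
  have hlog : Tendsto (fun X : ℕ => Nat.log 2 X - 1) atTop atTop := by
    apply tendsto_atTop_atTop.mpr
    intro b
    refine ⟨2 ^ (b + 1), fun X hX => ?_⟩
    have := Nat.le_log_of_pow_le (by norm_num) hX
    omega
  have hev : ∀ᶠ y : ℝ in atTop, Real.log 16 + (y + Real.log 2) ^ Ek ≤ y ^ (C₀ + e) := by
    filter_upwards [ev_rpow 0 (C₀ + e) (2 * Real.log 16) (by linarith),
      ev_rpow Ek (C₀ + e) (2 * 2 ^ Ek) hEke, eventually_ge_atTop 1] with y a1 a2 a3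
    rw [Real.rpow_zero] at a1
    have hl2 := Real.log_two_lt_d9
    have hl2' := Real.log_two_gt_d9
    have h3 : (y + Real.log 2) ^ Ek ≤ (2 * y) ^ Ek :=
      Real.rpow_le_rpow (by linarith) (by linarith) hEk0.le
    rw [Real.mul_rpow (by norm_num) (by linarith)] at h3
    linarith
  filter_upwards [hlog.eventually (hω k 1 (Or.inl rfl)), hlog.eventually (hω k (-1) (Or.inr rfl)),
    hLL.eventually hev, hLL.eventually_ge_atTop 1, eventually_ge_atTop 16] with X h2 h3 h4 h5 h6 s hs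
  set i := Nat.log 2 X - 1 with hi
  have hlogX : 4 ≤ Nat.log 2 X := Nat.le_log_of_pow_le (by norm_num) (by omega)
  have hi1 : i + 1 = Nat.log 2 X := by omega
  have hX1 : 2 ^ (i + 1) ≤ X := by rw [hi1]; exact Nat.pow_log_le_self 2 (by omega)
  have hX2 : X < 2 ^ (i + 2) := by
    have := Nat.lt_pow_succ_log_self (show 1 < 2 by norm_num) X
    rw [← hi1] at this
    exact this
  have hX0 : (0:ℝ) < X := by
    have : 0 < X := by omega
    exact_mod_cast this
  have hbase : 2 ^ i * Real.exp (-(Real.log i) ^ Ek) / 4 ≤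
      (devCount {n | ω ∈ E n} lam c t A s X : ℝ) := by
    rcases hs with rfl | rfl
    · exact h2 X hX1
    · exact h3 X hX1
  refine le_trans ?_ hbase
  have hiR : (3:ℝ) ≤ i := by
    have : 3 ≤ i := by omega
    exact_mod_cast this
  have hXle : (X:ℝ) / 4 ≤ 2 ^ i := by
    have h7 : (X:ℝ) < 2 ^ (i + 2) := by exact_mod_cast hX2
    rw [pow_add] at h7
    linarith
  have hiX : (i:ℝ) ≤ 2 * Real.log X := by
    have h7 : ((2:ℝ)) ^ (i + 1) ≤ X := by exact_mod_cast hX1
    have h8 := Real.log_le_log (by positivity) h7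
    rw [Real.log_pow] at h8
    have h9 := Real.log_two_gt_d9
    push_cast at h8
    nlinarith
  have hlogXpos : 0 < Real.log (X:ℝ) := by linarith
  have hlogi : Real.log i ≤ Real.log (Real.log X) + Real.log 2 := by
    have h7 := Real.log_le_log (by linarith) hiX
    rw [Real.log_mul (by norm_num) hlogXpos.ne'] at h7
    linarith
  have hlogi0 : 0 ≤ Real.log (i:ℝ) := Real.log_nonneg (by linarith)
  have h7 : (Real.log i) ^ Ek ≤ (Real.log (Real.log X) + Real.log 2) ^ Ek :=
    Real.rpow_le_rpow hlogi0 hlogi hEk0.le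
  have h8 : Real.exp (-(Real.log (Real.log X)) ^ (C₀ + e)) ≤
      Real.exp (-(Real.log i) ^ Ek) / 16 := by
    have e1 : Real.exp (-(Real.log i) ^ Ek) / 16 =
        Real.exp (-(Real.log i) ^ Ek - Real.log 16) := by
      rw [Real.exp_sub, Real.exp_log (by norm_num)]
    rw [e1]
    apply Real.exp_le_exp.mpr
    linarith
  calc X * Real.exp (-(Real.log (Real.log X)) ^ (C₀ + e))
      ≤ X * (Real.exp (-(Real.log i) ^ Ek) / 16) := by gcongr
    _ = (X / 4) * Real.exp (-(Real.log i) ^ Ek) / 4 := by ring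
    _ ≤ 2 ^ i * Real.exp (-(Real.log i) ^ Ek) / 4 := by gcongr

end Pool.Agent.LibDev91
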