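import Pool.Agent.LibDev91.Apply

/-!
From the moments to the number of bad residues.
-/

namespace Pool.Agent.LibDev91

open Finset

lemma filter_prime_union (z T : ℕ) (hzT : z ≤ T) :
    (range (T + 1)).filter Nat.Prime = (range (z + 1)).filter Nat.Prime ∪ prs z T := by
  ext p
  simp only [mem_union, mem_filter, mem_range, mem_prs]
  constructor
  · rintro ⟨h1, h2⟩
    rcases le_or_gt p z with h3 | h3
    · exact Or.inl ⟨by omega, h2⟩
    · exact Or.inr ⟨⟨h3, by omega⟩, h2⟩
  · rintro (⟨h1, h2⟩ | ⟨⟨h1, h3⟩, h2⟩)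
    · exact ⟨by omega, h2⟩
    · exact ⟨by omega, h2⟩

lemma filter_prime_disjoint (z T : ℕ) :
    Disjoint ((range (z + 1)).filter Nat.Prime) (prs z T) := by
  rw [Finset.disjoint_left]
  intro p h1 h2
  rw [mem_filter, mem_range] at h1
  rw [mem_prs] at h2
  omega

lemma primorial_split (z T : ℕ) (hzT : z ≤ T) :
    primorial T = primorial z * ∏ q ∈ prs z T, q := by
  unfold primorial
  rw [filter_prime_union z T hzT, Finset.prod_union (filter_prime_disjoint z T)]

lemma vee_split (z T : ℕ) (hzT : z ≤ T) : vee T * gq (prs z T) = vee z := by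
  unfold vee gq
  rw [filter_prime_union z T hzT, Finset.prod_union (filter_prime_disjoint z T), mul_assoc,
    ← Finset.prod_mul_distrib]
  have : ∏ i ∈ prs z T, (1 - 1 / (i : ℝ)) * (1 - 1 / (i : ℝ))⁻¹ = 1 := by
    apply Finset.prod_eq_one
    intro q hq
    apply mul_inv_cancel₀
    have h2 : (2 : ℝ) ≤ q := by exact_mod_cast (mem_prs.mp hq).2.two_le
    have h1 : 1 / (q : ℝ) ≤ 1 / 2 := by
      apply one_div_le_one_div_of_le <;> linarith
    linarith
  rw [this, mul_one]

lemma coprime_prod_iff (N : ℕ) (Q : Finset ℕ) (hQ : ∀ p ∈ Q, p.Prime) :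
    N.Coprime (∏ q ∈ Q, q) ↔ ∀ q ∈ Q, ¬ q ∣ N := by
  rw [Nat.coprime_prod_right_iff]
  constructor
  · intro h q hq
    exact ((hQ q hq).coprime_iff_not_dvd.mp (h q hq).symm)
  · intro h q hq
    exact ((hQ q hq).coprime_iff_not_dvd.mpr (h q hq)).symm

lemma prod_ite_eq (Q : Finset ℕ) (hQ : ∀ p ∈ Q, p.Prime) (N : ℕ) :
    ∏ q ∈ Q, (if q ∣ N then 0 else (1 - 1 / (q : ℝ))⁻¹) =
      if N.Coprime (∏ q ∈ Q, q) then gq Q else 0 := by
  by_cases h : N.Coprime (∏ q ∈ Q, q)
  · rw [if_pos h]
    unfold gq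
    apply Finset.prod_congr rfl
    intro q hq
    rw [if_neg ((coprime_prod_iff N Q hQ).mp h q hq)]
  · rw [if_neg h]
    rw [coprime_prod_iff N Q hQ] at h
    push Not at h
    obtain ⟨q, hq, hqN⟩ := h
    exact Finset.prod_eq_zero hq (if_pos hqN)

lemma primorial_pos' (z : ℕ) : 0 < primorial z := by
  unfold primorial
  exact Finset.prod_pos (fun p hp => (mem_filter.mp hp).2.pos)

lemma fr_mod (z n : ℕ) : fr z (n % primorial z) = fr z n := by
  funext j
  unfold fr
  have h1 : (n % primorial z + j).Coprime (primorial z) ↔ (n + j).Coprime (primorial z) := by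
    have : n % primorial z + j ≡ n + j [MOD primorial z] := (Nat.mod_modEq n _).add_right j
    unfold Nat.Coprime
    rw [Nat.ModEq.gcd_eq this]
  simp only [h1]

lemma sv_eq_rough (z T : ℕ) (hzT : z ≤ T) (h n : ℕ) :
    sv (prs z T) (n % ∏ q ∈ prs z T, q) (fr z (n % primorial z)) h =
      rough T h n * gq (prs z T) := by
  rw [← sv_mod, fr_mod]
  unfold sv rough fr
  rw [Finset.card_filter]
  push_cast
  rw [Finset.sum_mul]
  apply Finset.sum_congr rfl
  intro j _
  rw [prod_ite_eq _ (fun p hp => (mem_prs.mp hp).2)]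
  rw [primorial_split z T hzT]
  have h1 : (n + j).Coprime (primorial z * ∏ q ∈ prs z T, q) ↔
      (n + j).Coprime (primorial z) ∧ (n + j).Coprime (∏ q ∈ prs z T, q) :=
    Nat.coprime_mul_iff_right
  by_cases h2 : (n + j).Coprime (primorial z)
  · by_cases h3 : (n + j).Coprime (∏ q ∈ prs z T, q)
    · rw [if_pos h2, if_pos h3, if_pos (h1.mpr ⟨h2, h3⟩)]
    · rw [if_pos h2, if_neg h3, if_neg (fun h4 => h3 (h1.mp h4).2)]; ring
  · rw [if_neg h2, if_neg (fun h4 => h2 (h1.mp h4).1)]; ring

/-- The number of bad residues. -/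
theorem count_bound (z T k h : ℕ) (hzT : z ≤ T) (x W : ℝ) (hW : 0 < W)
    (hMB : ∀ n0 : ℕ, MB (prs z T) k h (fr z n0) (vee z * h) x) :
    ((#{n ∈ range (primorial T) | vee T * W ≤ |(rough T h n : ℝ) - vee T * h|} : ℕ) : ℝ) ≤
      primorial T * (x / (vee z * W) ^ 2) ^ k := by
  set Pz := primorial z with hPz
  set PQ := ∏ q ∈ prs z T, q with hPQ
  have hPz0 : 0 < Pz := primorial_pos' z
  have hPQ0 : 0 < PQ := Finset.prod_pos (fun p hp => (mem_prs.mp hp).2.pos)
  have hc : Pz.Coprime PQ := by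
    rw [hPQ, hPz]
    apply Nat.Coprime.prod_right
    intro q hq
    exact (coprime_primorial_of_lt (mem_prs.mp hq).2 (mem_prs.mp hq).1.1).symm
  have hG : 1 ≤ gq (prs z T) := gq_ge_one _ (fun p hp => (mem_prs.mp hp).2)
  have hv := vee_split z T hzT
  have hvz := vee_pos z
  have hvT := vee_pos T
  -- the total moment
  have e1 : ∑ n ∈ range (primorial T), ((rough T h n : ℝ) * gq (prs z T) - vee z * h) ^ (2 * k) ≤
      (Pz * PQ : ℝ) * x ^ k := by
    rw [primorial_split z T hzT, ← hPz, ← hPQ]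
    have e2 := sum_crt Pz PQ hPz0 hPQ0 hc
      (fun r a => (sv (prs z T) a (fr z r) h - vee z * h) ^ (2 * k))
    have e3 : ∑ n ∈ range (Pz * PQ), ((rough T h n : ℝ) * gq (prs z T) - vee z * h) ^ (2 * k) =
        ∑ n ∈ range (Pz * PQ), (sv (prs z T) (n % PQ) (fr z (n % Pz)) h - vee z * h) ^ (2 * k) := by
      apply Finset.sum_congr rfl
      intro n _
      rw [sv_eq_rough z T hzT h n]
    rw [e3, e2]
    calc ∑ r ∈ range Pz, ∑ a ∈ range PQ, (sv (prs z T) a (fr z r) h - vee z * h) ^ (2 * k)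
        ≤ ∑ r ∈ range Pz, (PQ : ℝ) * x ^ k := by
          apply Finset.sum_le_sum
          intro r _
          have := hMB r
          unfold MB at this
          rw [← hPQ] at this
          refine le_trans this (le_of_eq ?_)
          rw [hPQ]; push_cast; rfl
      _ = _ := by
          rw [Finset.sum_const, card_range, nsmul_eq_mul]; ring
  -- Markov
  have hVW : 0 < vee z * W := by positivity
  have e4 : ((#{n ∈ range (primorial T) | vee T * W ≤ |(rough T h n : ℝ) - vee T * h|} : ℕ) : ℝ) *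
      ((vee z * W) ^ 2) ^ k ≤
      ∑ n ∈ range (primorial T), ((rough T h n : ℝ) * gq (prs z T) - vee z * h) ^ (2 * k) := by
    rw [← nsmul_eq_mul, ← Finset.sum_const]
    calc ∑ n ∈ (range (primorial T)).filter
            (fun n => vee T * W ≤ |(rough T h n : ℝ) - vee T * h|), ((vee z * W) ^ 2) ^ k
        ≤ ∑ n ∈ (range (primorial T)).filter
            (fun n => vee T * W ≤ |(rough T h n : ℝ) - vee T * h|),
            ((rough T h n : ℝ) * gq (prs z T) - vee z * h) ^ (2 * k) := by
          apply Finset.sum_le_sum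
          intro n hn
          rw [mem_filter] at hn
          rw [pow_mul]
          apply pow_le_pow_left₀ (sq_nonneg _)
          have e5 : (rough T h n : ℝ) * gq (prs z T) - vee z * h =
              gq (prs z T) * ((rough T h n : ℝ) - vee T * h) := by
            rw [← hv]; ring
          rw [e5, ← sq_abs (gq (prs z T) * ((rough T h n : ℝ) - vee T * h)), abs_mul,
            abs_of_nonneg (by linarith : (0:ℝ) ≤ gq (prs z T))]
          apply pow_le_pow_left₀ hVW.le
          calc vee z * W = gq (prs z T) * (vee T * W) := by rw [← hv]; ring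
            _ ≤ _ := mul_le_mul_of_nonneg_left hn.2 (by linarith)
      _ ≤ _ := by
          apply Finset.sum_le_sum_of_subset_of_nonneg (Finset.filter_subset _ _)
          intro n _ _
          rw [pow_mul]; positivity
  have hPT : (primorial T : ℝ) = Pz * PQ := by
    rw [primorial_split z T hzT, ← hPz, ← hPQ, Nat.cast_mul]
  rw [hPT, div_pow, mul_div_assoc', le_div_iff₀ (by positivity)]
  exact le_trans e4 e1

end Pool.Agent.LibDev91
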