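import Pool.Agent.LibH.Model

/-!
Cramér's model: the version in which the probabilities are prescribed for the large integers only.
-/

namespace Pool.Agent.LibDev91

open Filter Topology MeasureTheory ProbabilityTheory
open Pool.Agent.LibH

variable {Ω : Type*} [MeasurableSpace Ω] {μ : Measure Ω}

/-- **Cramér's model**: the almost sure upper bound for the number of deviating windows. -/
theorem model_upper_ev [IsProbabilityMeasure μ] {E : ℕ → Set Ω} (hE : ∀ n, MeasurableSet (E n))
    (hind : iIndepSet E μ) (hp : ∀ᶠ n : ℕ in atTop, μ.real (E n) = 1 / Real.log (n : ℝ))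
    {lam c t A : ℝ} (hlam : 1 < lam) (hc : 0 < c) (ht0 : 0 < t)
    (ht : t ≤ 1 / 2) (hA : 0 ≤ A) (hA2 : t = 1 / 2 → 1 / 2 < A)
    (hlt : (lam - 1) * (1 - 2 * t) < 1) :
    ∀ᵐ ω ∂μ, ∀ e : ℝ, 0 < e → ∀ᶠ X : ℕ in atTop, ∀ s : ℝ, (s = 1 ∨ s = -1) →
      (devCount {n | ω ∈ E n} lam c t A s X : ℝ) ≤
      X * Real.exp (-(1 - e) * rateH lam c t A X) := by
  obtain ⟨n0, hn0⟩ := eventually_atTop.mp hp
  have h := ae_good_upper hE hind hlam hc ht0 ht hA hA2 hlt Set.univ (by
    intro ε hε
    filter_upwards [window_sum hlam hc,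
      (tendsto_dev (A := A) hlam hc ht hA).eventually_ge_atTop (2 / ε),
      eventually_ge_atTop n0] with m h1 h2 h3 _
    have h4 : ∑ j ∈ Finset.Ioc m (m + hl lam c m), μ.real (E j) =
        ∑ j ∈ Finset.Ioc m (m + hl lam c m), 1 / Real.log (j : ℝ) := by
      apply Finset.sum_congr rfl
      intro j hj
      rw [Finset.mem_Ioc] at hj
      exact hn0 j (by omega)
    rw [h4]
    rw [div_le_iff₀ hε] at h2
    linarith)
  filter_upwards [h] with ω hω e he
  filter_upwards [hω e he] with X hX s hs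
  have h5 := hX s hs
  simp only [Set.mem_univ, true_and] at h5
  exact h5

end Pool.Agent.LibDev91
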