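import Mathlib

/-!
The moments of the number of elements of a window which survive the sieve by a set of primes,
in terms of the discrepancies in the residue classes (a martingale argument).
-/

namespace Pool.Agent.LibDev91

open Finset

/-- `(1 - r)^n ≤ 1 - n r + n (n-1)/2 r²` for `0 ≤ r ≤ 1`. -/
lemma one_sub_pow_le (r : ℝ) (h0 : 0 ≤ r) (h1 : r ≤ 1) (n : ℕ) :
    (1 - r) ^ n ≤ 1 - n * r + n * (n - 1) / 2 * r ^ 2 := by
  induction n with
  | zero => simp
  | succ n ih =>
    have h2 : (1 - r) ^ (n + 1) ≤ (1 - n * r + n * (n - 1) / 2 * r ^ 2) * (1 - r) := by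
      rw [pow_succ]
      exact mul_le_mul_of_nonneg_right ih (by linarith)
    have h3 : (0 : ℝ) ≤ n * (n - 1) / 2 * r ^ 3 := by
      rcases Nat.eq_zero_or_pos n with h | h
      · subst h; simp
      · have : (1 : ℝ) ≤ n := by exact_mod_cast h
        have : (0 : ℝ) ≤ n * (n - 1) := by nlinarith
        positivity
    push_cast
    nlinarith

lemma scalar_aux (k : ℕ) (hk : 1 ≤ k) (s : ℝ) :
    (1 + s) ^ (2 * k) ≤ 2 * k * s + (1 + 5 * k * s ^ 2) ^ k := by
  have hk1 : (1 : ℝ) ≤ k := by exact_mod_cast hk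
  have hbern : ∀ z : ℝ, 0 ≤ z → 1 + k * z ≤ (1 + z) ^ k := fun z hz =>
    one_add_mul_le_pow (by linarith) k
  have hb := hbern (5 * k * s ^ 2) (by positivity)
  rcases le_or_gt (-1) s with h1 | h1
  · rcases le_or_gt s 0 with h2 | h2
    · -- `-1 ≤ s ≤ 0`
      have h3 := one_sub_pow_le (-s) (by linarith) (by linarith) (2 * k)
      have h4 : (1 - -s) = 1 + s := by ring
      rw [h4] at h3
      push_cast at h3
      nlinarith [sq_nonneg s, mul_nonneg (mul_nonneg (by linarith : (0:ℝ) ≤ k) (by linarith : (0:ℝ) ≤ k)) (sq_nonneg s), mul_nonneg (by linarith : (0:ℝ) ≤ k) (sq_nonneg s)]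
    · rcases le_or_gt (2 * k * s) 1 with h3 | h3
      · -- `0 < 2 k s ≤ 1`
        have h4 : (1 + s) ^ (2 * k) ≤ Real.exp (2 * k * s) := by
          have : 1 + s ≤ Real.exp s := by linarith [Real.add_one_le_exp s]
          calc (1 + s) ^ (2 * k) ≤ (Real.exp s) ^ (2 * k) :=
                pow_le_pow_left₀ (by linarith) this _
            _ = Real.exp (2 * k * s) := by
                rw [← Real.exp_nat_mul]; push_cast; ring_nf
        have h5 := Real.abs_exp_sub_one_sub_id_le (x := 2 * k * s)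
          (by rw [abs_of_nonneg (by positivity)]; exact h3)
        have h6 := (abs_le.mp h5).2
        nlinarith [mul_nonneg (mul_nonneg (by linarith : (0:ℝ) ≤ k) (by linarith : (0:ℝ) ≤ k)) (sq_nonneg s)]
      · -- `1 < 2 k s`
        have h4 : (1 + s) ^ 2 ≤ 1 + 5 * k * s ^ 2 := by
          have h5 : 2 ≤ (5 * k - 1) * s := by nlinarith
          nlinarith
        have h5 : (1 + s) ^ (2 * k) ≤ (1 + 5 * k * s ^ 2) ^ k := by
          rw [pow_mul]
          exact pow_le_pow_left₀ (by positivity) h4 _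
        have : (0:ℝ) ≤ 2 * k * s := by positivity
        linarith
  · -- `s < -1`
    have hs : (1 : ℝ) ≤ -s := by linarith
    set r : ℝ := -s with hr
    have hsr : s = -r := by rw [hr]; ring
    rw [hsr]
    rw [hsr] at hb
    have hu : (1 + -r) ^ (2 * k) ≤ (r ^ 2) ^ k := by
      rw [pow_mul]
      apply pow_le_pow_left₀ (by positivity)
      nlinarith
    have hw : (r ^ 2) ^ k + (1 + (5 * k - 1) * r ^ 2) ^ k ≤ (1 + 5 * k * (-r) ^ 2) ^ k := by
      have h5 : 0 ≤ 1 + (5 * k - 1) * r ^ 2 := by nlinarith [sq_nonneg r]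
      have := pow_add_pow_le (sq_nonneg r) h5 (n := k) (by omega)
      have e : r ^ 2 + (1 + (5 * k - 1) * r ^ 2) = 1 + 5 * k * (-r) ^ 2 := by ring
      rw [e] at this
      exact this
    have hb2 := hbern ((5 * k - 1) * r ^ 2) (by nlinarith [sq_nonneg r])
    have : 2 * k * r ≤ k * ((5 * k - 1) * r ^ 2) := by
      have h6 : 2 * r ≤ (5 * k - 1) * r ^ 2 := by nlinarith [sq_nonneg r]
      nlinarith
    nlinarith

/-- The basic inequality: `(x + y)^(2k) ≤ x^(2k) + 2 k x^(2k-1) y + ...`. -/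
lemma scalar (k : ℕ) (hk : 1 ≤ k) (x y : ℝ) :
    (x + y) ^ (2 * k) ≤ 2 * k * x ^ (2 * k - 1) * y + (x ^ 2 + 5 * k * y ^ 2) ^ k := by
  have hk1 : (1 : ℝ) ≤ k := by exact_mod_cast hk
  rcases eq_or_ne x 0 with h | h
  · subst h
    have h1 : (0 : ℝ) ^ (2 * k - 1) = 0 := zero_pow (by omega)
    rw [h1]
    have : (y ^ 2) ^ k ≤ (0 ^ 2 + 5 * k * y ^ 2) ^ k := by
      apply pow_le_pow_left₀ (by positivity)
      nlinarith [sq_nonneg y]
    rw [← pow_mul] at this
    simpa using this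
  · have h1 := scalar_aux k hk (y / x)
    have h2 : 0 < x ^ (2 * k) := by
      rw [pow_mul]; positivity
    have h3 := mul_le_mul_of_nonneg_left h1 h2.le
    have e1 : x ^ (2 * k) * (1 + y / x) ^ (2 * k) = (x + y) ^ (2 * k) := by
      rw [← mul_pow]; congr 1; field_simp
    have e2 : x ^ (2 * k) * (1 + 5 * k * (y / x) ^ 2) ^ k = (x ^ 2 + 5 * k * y ^ 2) ^ k := by
      rw [pow_mul, ← mul_pow]; congr 1; field_simp
    have e3 : x ^ (2 * k) * (2 * k * (y / x)) = 2 * k * x ^ (2 * k - 1) * y := by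
      have : x ^ (2 * k) = x ^ (2 * k - 1) * x := by
        rw [← pow_succ]; congr 1; omega
      rw [this]; field_simp
    rw [mul_add, e1, e2, e3] at h3
    exact h3

/-- Minkowski for averages of powers, with weights. -/
lemma mink {ι : Type*} (S : Finset ι) (k : ℕ) (hk : 1 ≤ k) (g g' : ι → ℝ) (hg : ∀ i ∈ S, 0 ≤ g i)
    (hg' : ∀ i ∈ S, 0 ≤ g' i) (N x y : ℝ) (hx : 0 ≤ x) (hy : 0 ≤ y)
    (h1 : ∑ i ∈ S, g i ^ k ≤ N * x ^ k) (h2 : ∑ i ∈ S, g' i ^ k ≤ N * y ^ k) :
    ∑ i ∈ S, (g i + g' i) ^ k ≤ N * (x + y) ^ k := by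
  have hk0 : k ≠ 0 := by omega
  rcases eq_or_lt_of_le hx with h0 | h0
  · -- `x = 0`
    subst h0
    rw [zero_pow hk0, mul_zero] at h1
    have h3 : ∀ i ∈ S, g i = 0 := by
      intro i hi
      have := (Finset.sum_nonneg (fun i hi => pow_nonneg (hg i hi) k) : 0 ≤ ∑ i ∈ S, g i ^ k)
      have h4 := (Finset.sum_eq_zero_iff_of_nonneg (fun i hi => pow_nonneg (hg i hi) k)).mp
        (le_antisymm h1 this) i hi
      exact pow_eq_zero_iff hk0 |>.mp h4
    rw [zero_add]
    calc ∑ i ∈ S, (g i + g' i) ^ k = ∑ i ∈ S, g' i ^ k :=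
          Finset.sum_congr rfl (fun i hi => by rw [h3 i hi, zero_add])
      _ ≤ _ := h2
  rcases eq_or_lt_of_le hy with h0' | h0'
  · subst h0'
    rw [zero_pow hk0, mul_zero] at h2
    have h3 : ∀ i ∈ S, g' i = 0 := by
      intro i hi
      have := (Finset.sum_nonneg (fun i hi => pow_nonneg (hg' i hi) k) : 0 ≤ ∑ i ∈ S, g' i ^ k)
      have h4 := (Finset.sum_eq_zero_iff_of_nonneg (fun i hi => pow_nonneg (hg' i hi) k)).mp
        (le_antisymm h2 this) i hi
      exact pow_eq_zero_iff hk0 |>.mp h4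
    rw [add_zero]
    calc ∑ i ∈ S, (g i + g' i) ^ k = ∑ i ∈ S, g i ^ k :=
          Finset.sum_congr rfl (fun i hi => by rw [h3 i hi, add_zero])
      _ ≤ _ := h1
  have hz : 0 < x + y := by linarith
  have key : ∀ i ∈ S, (g i + g' i) ^ k ≤
      (x + y) ^ k * (x / (x + y) * (g i ^ k / x ^ k) + y / (x + y) * (g' i ^ k / y ^ k)) := by
    intro i hi
    have ha : 0 ≤ x / (x + y) := by positivity
    have hb : 0 ≤ y / (x + y) := by positivity
    have hab : x / (x + y) + y / (x + y) = 1 := by field_simp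
    have hc := (convexOn_pow k).2 (Set.mem_Ici.mpr (div_nonneg (hg i hi) h0.le))
      (Set.mem_Ici.mpr (div_nonneg (hg' i hi) h0'.le)) ha hb hab
    simp only [smul_eq_mul] at hc
    have e1 : x / (x + y) * (g i / x) + y / (x + y) * (g' i / y) = (g i + g' i) / (x + y) := by
      field_simp
    rw [e1, div_pow, div_pow, div_pow] at hc
    have h5 := mul_le_mul_of_nonneg_left hc (pow_nonneg hz.le k)
    have e2 : (x + y) ^ k * ((g i + g' i) ^ k / (x + y) ^ k) = (g i + g' i) ^ k := by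
      field_simp
    rw [e2] at h5
    exact h5
  calc ∑ i ∈ S, (g i + g' i) ^ k
      ≤ ∑ i ∈ S, (x + y) ^ k * (x / (x + y) * (g i ^ k / x ^ k) + y / (x + y) * (g' i ^ k / y ^ k)) :=
        Finset.sum_le_sum key
    _ = (x + y) ^ k * (x / (x + y) * ((∑ i ∈ S, g i ^ k) / x ^ k) +
          y / (x + y) * ((∑ i ∈ S, g' i ^ k) / y ^ k)) := by
        rw [← Finset.mul_sum, Finset.sum_add_distrib, ← Finset.mul_sum, ← Finset.mul_sum,
          Finset.sum_div, Finset.sum_div]
    _ ≤ (x + y) ^ k * (x / (x + y) * N + y / (x + y) * N) := by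
        have h5 : (∑ i ∈ S, g i ^ k) / x ^ k ≤ N := by
          rw [div_le_iff₀ (by positivity)]; exact h1
        have h6 : (∑ i ∈ S, g' i ^ k) / y ^ k ≤ N := by
          rw [div_le_iff₀ (by positivity)]; exact h2
        gcongr
    _ = N * (x + y) ^ k := by field_simp

end Pool.Agent.LibDev91
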