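import Pool.Agent.LibDev91.Markov
import Pool.Agent.LibMaier.Mertens

/-!
Bounds for the products over primes.
-/

namespace Pool.Agent.LibDev91

open Finset Filter Topology

lemma sum_rpow_le (σ : ℝ) (h0 : 0 < σ) (h1 : σ < 1) (z : ℕ) :
    ∑ n ∈ Icc 1 z, (n : ℝ) ^ (-σ) ≤ (z : ℝ) ^ (1 - σ) / (1 - σ) := by
  have hr : 0 < 1 - σ := by linarith
  induction z with
  | zero => simp [Real.zero_rpow hr.ne']
  | succ n ih =>
    rw [Finset.sum_Icc_succ_top (by omega)]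
    have hn1 : (0:ℝ) < (n:ℝ) + 1 := by positivity
    have key : (n:ℝ) ^ (1 - σ) ≤ ((n:ℝ) + 1) ^ (1 - σ) * (1 - (1 - σ) / ((n:ℝ) + 1)) := by
      have h2 : (n:ℝ) = ((n:ℝ) + 1) * (1 + -(1 / ((n:ℝ) + 1))) := by field_simp; ring
      have h3 : (-1:ℝ) ≤ -(1 / ((n:ℝ) + 1)) := by
        rw [neg_le_neg_iff, div_le_one hn1]
        have : (0:ℝ) ≤ n := Nat.cast_nonneg n
        linarith
      have h4 := rpow_one_add_le_one_add_mul_self h3 hr.le (by linarith : 1 - σ ≤ 1)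
      calc (n:ℝ) ^ (1 - σ) = (((n:ℝ) + 1) * (1 + -(1 / ((n:ℝ) + 1)))) ^ (1 - σ) := by rw [← h2]
        _ = ((n:ℝ) + 1) ^ (1 - σ) * (1 + -(1 / ((n:ℝ) + 1))) ^ (1 - σ) :=
            Real.mul_rpow hn1.le (by linarith)
        _ ≤ ((n:ℝ) + 1) ^ (1 - σ) * (1 + (1 - σ) * -(1 / ((n:ℝ) + 1))) := by gcongr
        _ = _ := by ring
    have h5 : ((n:ℝ) + 1) ^ (-σ) = ((n:ℝ) + 1) ^ (1 - σ) / ((n:ℝ) + 1) := by
      rw [show -σ = (1 - σ) - 1 by ring, Real.rpow_sub_one hn1.ne']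
    push_cast
    rw [h5]
    have h6 : (n:ℝ) ^ (1 - σ) / (1 - σ) ≤
        (((n:ℝ) + 1) ^ (1 - σ) - (1 - σ) * (((n:ℝ) + 1) ^ (1 - σ) / ((n:ℝ) + 1))) / (1 - σ) := by
      apply div_le_div_of_nonneg_right _ hr.le
      calc (n:ℝ) ^ (1 - σ) ≤ ((n:ℝ) + 1) ^ (1 - σ) * (1 - (1 - σ) / ((n:ℝ) + 1)) := key
        _ = _ := by ring
    have h7 : (((n:ℝ) + 1) ^ (1 - σ) - (1 - σ) * (((n:ℝ) + 1) ^ (1 - σ) / ((n:ℝ) + 1))) / (1 - σ)
        = ((n:ℝ) + 1) ^ (1 - σ) / (1 - σ) - ((n:ℝ) + 1) ^ (1 - σ) / ((n:ℝ) + 1) := by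
      field_simp
    linarith

lemma rp_le (z : ℕ) (σ : ℝ) (h0 : 0 < σ) (h1 : σ < 1) :
    rp z σ ≤ Real.exp ((z : ℝ) ^ (1 - σ) / (1 - σ)) := by
  unfold rp
  calc ∏ p ∈ (range (z + 1)).filter Nat.Prime, (1 + (p : ℝ) ^ (-σ))
      ≤ ∏ p ∈ (range (z + 1)).filter Nat.Prime, Real.exp ((p : ℝ) ^ (-σ)) := by
        apply Finset.prod_le_prod (fun p _ => by positivity)
        intro p _
        linarith [Real.add_one_le_exp ((p : ℝ) ^ (-σ))]
    _ = Real.exp (∑ p ∈ (range (z + 1)).filter Nat.Prime, (p : ℝ) ^ (-σ)) := by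
        rw [Real.exp_sum]
    _ ≤ _ := by
        apply Real.exp_le_exp.mpr
        refine le_trans ?_ (sum_rpow_le σ h0 h1 z)
        apply Finset.sum_le_sum_of_subset_of_nonneg
        · intro p hp
          rw [mem_filter, mem_range] at hp
          rw [mem_Icc]
          exact ⟨hp.2.one_le, by omega⟩
        · intro p _ _; positivity

lemma sum_rpow_tail (s : ℝ) (hs : 1 < s) (z T : ℕ) (hz : 1 ≤ z) (hzT : z ≤ T) :
    ∑ n ∈ Ioc z T, (n : ℝ) ^ (-s) ≤ ((z : ℝ) ^ (1 - s) - (T : ℝ) ^ (1 - s)) / (s - 1) := by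
  have hr : 0 < s - 1 := by linarith
  induction T, hzT using Nat.le_induction with
  | base => simp
  | succ n hn ih =>
    rw [← Finset.insert_Ioc_right_eq_Ioc_add_one (by omega), Finset.sum_insert (by simp)]
    have hn1 : (0:ℝ) < (n:ℝ) + 1 := by positivity
    have hn0 : (0:ℝ) < (n:ℝ) := by exact_mod_cast (by omega : 0 < n)
    have key : ((n:ℝ) + 1) ^ (1 - s) * (1 + (s - 1) / ((n:ℝ) + 1)) ≤ (n:ℝ) ^ (1 - s) := by
      have h2 : (n:ℝ) = ((n:ℝ) + 1) * (1 - (1 / ((n:ℝ) + 1))) := by field_simp; ring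
      have h3 : 0 < 1 - (1 / ((n:ℝ) + 1)) := by
        have : 1 / ((n:ℝ) + 1) < 1 := by
          rw [div_lt_one hn1]; linarith
        linarith
      have h4 : 1 + (s - 1) / ((n:ℝ) + 1) ≤ (1 - (1 / ((n:ℝ) + 1))) ^ (1 - s) := by
        have h5 : 1 - (1 / ((n:ℝ) + 1)) ≤ Real.exp (-(1 / ((n:ℝ) + 1))) := by
          linarith [Real.add_one_le_exp (-(1 / ((n:ℝ) + 1)))]
        have h6 : (Real.exp (-(1 / ((n:ℝ) + 1)))) ^ (1 - s) ≤
            (1 - (1 / ((n:ℝ) + 1))) ^ (1 - s) :=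
          Real.rpow_le_rpow_of_nonpos h3 h5 (by linarith)
        rw [← Real.exp_mul] at h6
        have h7 : -(1 / ((n:ℝ) + 1)) * (1 - s) = (s - 1) / ((n:ℝ) + 1) := by ring
        rw [h7] at h6
        linarith [Real.add_one_le_exp ((s - 1) / ((n:ℝ) + 1))]
      calc ((n:ℝ) + 1) ^ (1 - s) * (1 + (s - 1) / ((n:ℝ) + 1))
          ≤ ((n:ℝ) + 1) ^ (1 - s) * (1 - (1 / ((n:ℝ) + 1))) ^ (1 - s) := by gcongr
        _ = (((n:ℝ) + 1) * (1 - (1 / ((n:ℝ) + 1)))) ^ (1 - s) :=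
            (Real.mul_rpow hn1.le h3.le).symm
        _ = (n:ℝ) ^ (1 - s) := by rw [← h2]
    have h5 : ((n:ℝ) + 1) ^ (-s) = ((n:ℝ) + 1) ^ (1 - s) / ((n:ℝ) + 1) := by
      rw [show -s = (1 - s) - 1 by ring, Real.rpow_sub_one hn1.ne']
    push_cast
    rw [h5]
    have h6 : ((n:ℝ) + 1) ^ (1 - s) / ((n:ℝ) + 1) ≤
        ((n:ℝ) ^ (1 - s) - ((n:ℝ) + 1) ^ (1 - s)) / (s - 1) := by
      rw [le_div_iff₀ hr]
      have : ((n:ℝ) + 1) ^ (1 - s) * (1 + (s - 1) / ((n:ℝ) + 1)) = ((n:ℝ) + 1) ^ (1 - s) +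
          ((n:ℝ) + 1) ^ (1 - s) / ((n:ℝ) + 1) * (s - 1) := by ring
      linarith
    have h7 : ((z : ℝ) ^ (1 - s) - ((n:ℝ) + 1) ^ (1 - s)) / (s - 1) =
        ((z : ℝ) ^ (1 - s) - (n : ℝ) ^ (1 - s)) / (s - 1) +
        ((n:ℝ) ^ (1 - s) - ((n:ℝ) + 1) ^ (1 - s)) / (s - 1) := by ring
    linarith

lemma prod_cf_le (k z T : ℕ) (hz : 1 ≤ z) (s : ℝ) (hs : 1 < s) (hs2 : s ≤ 2) :
    ∏ q ∈ prs z T, cf k s q ≤ Real.exp (80 * k * ((z : ℝ) ^ (1 - s) / (s - 1))) := by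
  have hr : 0 < s - 1 := by linarith
  calc ∏ q ∈ prs z T, cf k s q
      ≤ ∏ q ∈ prs z T, Real.exp (80 * k * (q : ℝ) ^ (-s)) := by
        apply Finset.prod_le_prod
        · intro q _; exact le_trans zero_le_one (one_le_cf k s q)
        · intro q hq
          have hq1 : (1:ℝ) ≤ q := by exact_mod_cast (mem_prs.mp hq).2.one_le
          have h1 : 40 * k / (q:ℝ) ^ 2 ≤ 40 * k * (q:ℝ) ^ (-s) := by
            rw [div_eq_mul_inv]
            apply mul_le_mul_of_nonneg_left _ (by positivity)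
            rw [← Real.rpow_natCast, ← Real.rpow_neg (by linarith)]
            apply Real.rpow_le_rpow_of_exponent_le hq1
            push_cast; linarith
          have h2 := Real.add_one_le_exp (80 * k * (q:ℝ) ^ (-s))
          unfold cf
          linarith
    _ = Real.exp (∑ q ∈ prs z T, 80 * k * (q : ℝ) ^ (-s)) := by rw [Real.exp_sum]
    _ ≤ _ := by
        apply Real.exp_le_exp.mpr
        rw [← Finset.mul_sum]
        apply mul_le_mul_of_nonneg_left _ (by positivity)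
        rcases le_or_gt z T with hzT | hzT
        · refine le_trans ?_ (le_trans (sum_rpow_tail s hs z T hz hzT) ?_)
          · apply Finset.sum_le_sum_of_subset_of_nonneg
            · unfold prs; exact Finset.filter_subset _ _
            · intro p _ _; positivity
          · apply div_le_div_of_nonneg_right _ hr.le
            have : (0:ℝ) ≤ (T : ℝ) ^ (1 - s) := by positivity
            linarith
        · have : prs z T = ∅ := by
            unfold prs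
            rw [Finset.Ioc_eq_empty (by omega)]; rfl
          rw [this, Finset.sum_empty]
          positivity

lemma vee_succ' (t : ℕ) : vee (t + 1) = if (t + 1).Prime then vee t * (1 - 1 / ((t:ℝ) + 1))
    else vee t := by
  unfold vee
  rw [Finset.range_add_one (n := t + 1), Finset.filter_insert]
  split_ifs with h
  · rw [Finset.prod_insert (by simp)]
    push_cast
    ring
  · rfl

lemma vee_zero : vee 0 = 1 := by
  unfold vee
  have : (range (0 + 1)).filter Nat.Prime = ∅ := by decide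
  rw [this, Finset.prod_empty]

lemma vee_ge_succ (t : ℕ) : 1 / ((t : ℝ) + 1) ≤ vee (t + 1) := by
  induction t with
  | zero =>
    rw [vee_succ', if_neg (by norm_num), vee_zero]; norm_num
  | succ n ih =>
    rw [vee_succ']
    have hn1 : (0:ℝ) < (n:ℝ) + 1 := by positivity
    push_cast
    have hn2 : (0:ℝ) < (n:ℝ) + 1 + 1 := by positivity
    have h3 : 0 ≤ 1 - 1 / ((n:ℝ) + 1 + 1) := by
      have : 1 / ((n:ℝ) + 1 + 1) ≤ 1 := by rw [div_le_one hn2]; linarith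
      linarith
    have h4 : 1 / ((n:ℝ) + 1 + 1) = 1 / ((n:ℝ) + 1) * (1 - 1 / ((n:ℝ) + 1 + 1)) := by
      field_simp
      ring
    split_ifs with h
    · exact h4.le.trans (mul_le_mul_of_nonneg_right ih h3)
    · refine le_trans ?_ ih
      apply one_div_le_one_div_of_le hn1; linarith

lemma vee_ge (t : ℕ) : 1 / ((t : ℝ) + 1) ≤ vee t := by
  rcases Nat.eq_zero_or_pos t with h | h
  · subst h; rw [vee_zero]; norm_num
  · obtain ⟨n, rfl⟩ : ∃ n, t = n + 1 := ⟨t - 1, by omega⟩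
    refine le_trans ?_ (vee_ge_succ n)
    apply one_div_le_one_div_of_le (by positivity)
    push_cast; linarith

/-- Mertens: `1 / vee T ≤ C (1 + log (T + 1))`. -/
lemma vee_inv_le : ∃ C : ℝ, 1 ≤ C ∧ ∀ T : ℕ, (vee T)⁻¹ ≤ C * (1 + Real.log (T + 1)) := by
  have h1 := LibMaier.mertens_third
  have hpos : 0 < Real.exp (-Real.eulerMascheroniConstant) := Real.exp_pos _
  have h2 := h1.eventually (lt_mem_nhds (half_lt_self hpos))
  obtain ⟨N, hN⟩ := (h2.and (eventually_ge_atTop 2)).exists_forall_of_atTop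
  set c := Real.exp (-Real.eulerMascheroniConstant) / 2 with hc
  have hc0 : 0 < c := by positivity
  refine ⟨1 + c⁻¹ + ∑ n ∈ range N, (vee n)⁻¹, ?_, ?_⟩
  · have h3 : 0 ≤ ∑ n ∈ range N, (vee n)⁻¹ :=
      Finset.sum_nonneg (fun n _ => (inv_pos.mpr (vee_pos n)).le)
    have : 0 < c⁻¹ := inv_pos.mpr hc0
    linarith
  · intro T
    have h3 : 0 ≤ ∑ n ∈ range N, (vee n)⁻¹ :=
      Finset.sum_nonneg (fun n _ => (inv_pos.mpr (vee_pos n)).le)
    have hci : 0 < c⁻¹ := inv_pos.mpr hc0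
    have hlogT : 0 ≤ Real.log ((T:ℝ) + 1) := Real.log_nonneg (by
      have : (0:ℝ) ≤ T := Nat.cast_nonneg T
      linarith)
    rcases lt_or_ge T N with h4 | h4
    · have h5 : (vee T)⁻¹ ≤ ∑ n ∈ range N, (vee n)⁻¹ :=
        Finset.single_le_sum (f := fun n => (vee n)⁻¹)
          (fun n _ => (inv_pos.mpr (vee_pos n)).le) (mem_range.mpr h4)
      have h6 : 1 ≤ 1 + Real.log ((T:ℝ) + 1) := by linarith
      have h7 : (vee T)⁻¹ ≤ 1 + c⁻¹ + ∑ n ∈ range N, (vee n)⁻¹ := by linarith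
      have h8 : 0 ≤ 1 + c⁻¹ + ∑ n ∈ range N, (vee n)⁻¹ := by linarith
      nlinarith
    · obtain ⟨h5, h6⟩ := hN T h4
      have hT2 : (2:ℝ) ≤ T := by exact_mod_cast h6
      have hlog : 0 < Real.log T := Real.log_pos (by linarith)
      have h7 : c < vee T * Real.log T := h5
      have h8 : (vee T)⁻¹ ≤ c⁻¹ * Real.log T := by
        rw [inv_le_iff_one_le_mul₀ (vee_pos T)]
        have : c⁻¹ * Real.log T * vee T = c⁻¹ * (vee T * Real.log T) := by ring
        rw [this]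
        have h9 : c⁻¹ * c = 1 := inv_mul_cancel₀ hc0.ne'
        nlinarith
      have h9 : Real.log T ≤ 1 + Real.log ((T:ℝ) + 1) := by
        have : Real.log T ≤ Real.log ((T:ℝ) + 1) := Real.log_le_log (by linarith) (by linarith)
        linarith
      have h10 : 0 ≤ 1 + Real.log ((T:ℝ) + 1) := by linarith
      calc (vee T)⁻¹ ≤ c⁻¹ * Real.log T := h8
        _ ≤ c⁻¹ * (1 + Real.log ((T:ℝ) + 1)) := by gcongr
        _ ≤ _ := by
            apply mul_le_mul_of_nonneg_right _ h10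
            linarith

end Pool.Agent.LibDev91
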