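import Pool.Agent.LibDev91.Step
import Pool.Agent.LibDev91.Defs

/-!
The recursion over the sieving primes.
-/

namespace Pool.Agent.LibDev91

open Finset

/-- The weight `f` restricted to the class `b` modulo `m`. -/
noncomputable def fm (m b : ℕ) (f : ℕ → ℝ) : ℕ → ℝ := fun j => if j ≡ b [MOD m] then f j else 0

lemma MB_mono {Q : Finset ℕ} {k h : ℕ} {f : ℕ → ℝ} {v x y : ℝ} (hx : 0 ≤ x) (hxy : x ≤ y)
    (h1 : MB Q k h f v x) : MB Q k h f v y := by
  unfold MB at *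
  refine le_trans h1 ?_
  have : (0:ℝ) ≤ ∏ q ∈ Q, (q : ℝ) := Finset.prod_nonneg (fun q _ => Nat.cast_nonneg q)
  gcongr

/-- Restricting to a class modulo `m` and to a class modulo the prime `q ∤ m`. -/
lemma res_fm (m q a b : ℕ) (hq : 0 < q) (hc : m.Coprime q) (f : ℕ → ℝ) :
    ∃ b', res q a (fm m b f) = fm (m * q) b' f := by
  -- a representative of `-a` modulo `q`
  obtain ⟨a', ha'⟩ : ∃ a' : ℕ, ∀ j : ℕ, q ∣ a + j ↔ j ≡ a' [MOD q] := by
    refine ⟨q - a % q, fun j => ?_⟩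
    have h1 : a % q < q := Nat.mod_lt _ hq
    have h2 : a + (q - a % q) ≡ 0 [MOD q] := by
      have : a + (q - a % q) = q * (a / q + 1) := by
        have := Nat.div_add_mod a q
        have h3 : q * (a / q + 1) = q * (a / q) + q := by ring
        omega
      rw [this]
      exact (Nat.modEq_zero_iff_dvd.mpr (dvd_mul_right _ _))
    constructor
    · intro h3
      have h4 : a + j ≡ a + (q - a % q) [MOD q] :=
        ((Nat.modEq_zero_iff_dvd.mpr h3).trans h2.symm)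
      exact Nat.ModEq.add_left_cancel' a h4
    · intro h3
      have h4 : a + j ≡ 0 [MOD q] := (h3.add_left a).trans h2
      exact Nat.modEq_zero_iff_dvd.mp h4
  refine ⟨(Nat.chineseRemainder hc b a' : ℕ), ?_⟩
  funext j
  unfold res fm
  have h1 := (Nat.chineseRemainder hc b a').2
  have h2 : j ≡ (Nat.chineseRemainder hc b a' : ℕ) [MOD m * q] ↔
      j ≡ b [MOD m] ∧ j ≡ a' [MOD q] := by
    rw [← Nat.modEq_and_modEq_iff_modEq_mul hc]
    constructor
    · rintro ⟨h3, h4⟩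
      exact ⟨h3.trans h1.1, h4.trans h1.2⟩
    · rintro ⟨h3, h4⟩
      exact ⟨h3.trans h1.1.symm, h4.trans h1.2.symm⟩
  by_cases h3 : q ∣ a + j
  · rw [if_pos h3]
    by_cases h4 : j ≡ b [MOD m]
    · rw [if_pos h4, if_pos (h2.mpr ⟨h4, (ha' j).mp h3⟩)]
    · rw [if_neg h4, if_neg (fun h5 => h4 (h2.mp h5).1)]
  · rw [if_neg h3, if_neg (fun h5 => h3 ((ha' j).mpr (h2.mp h5).2))]

/-- The bound `A (h/m)^s + B (h/m)^s1` for all the moduli `m < h` without prime factors in `Q` or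
`≤ z`. -/
def Inv (z : ℕ) (Q : Finset ℕ) (k h : ℕ) (f : ℕ → ℝ) (v s s1 A B : ℝ) : Prop :=
  ∀ m : ℕ, 1 ≤ m → m < h → m.Coprime (primorial z) → (∀ p ∈ Q, ¬ p ∣ m) → ∀ b : ℕ,
    MB Q k h (fm m b f) (v / m) (A * ((h : ℝ) / m) ^ s + B * ((h : ℝ) / m) ^ s1)

/-- The factor of the prime `q`. -/
noncomputable def cf (k : ℕ) (s : ℝ) (q : ℕ) : ℝ :=
  1 + 40 * k / (q : ℝ) ^ 2 + 40 * k * (q : ℝ) ^ (-s)

lemma one_le_cf (k : ℕ) (s : ℝ) (q : ℕ) : 1 ≤ cf k s q := by
  unfold cf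
  have h1 : (0:ℝ) ≤ 40 * k / (q : ℝ) ^ 2 := by positivity
  have h2 : (0:ℝ) ≤ 40 * k * (q : ℝ) ^ (-s) := by positivity
  linarith

lemma one_le_prod_cf (k : ℕ) (s : ℝ) (S : Finset ℕ) : 1 ≤ ∏ q ∈ S, cf k s q := by
  calc (1:ℝ) = ∏ q ∈ S, 1 := by simp
    _ ≤ ∏ q ∈ S, cf k s q := Finset.prod_le_prod (fun _ _ => zero_le_one)
        (fun q _ => one_le_cf k s q)

lemma coprime_primorial_of_lt {z q : ℕ} (hq : q.Prime) (hz : z < q) : q.Coprime (primorial z) := by
  rw [hq.coprime_iff_not_dvd]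
  intro h
  rw [primorial, Prime.dvd_finsetProd_iff hq.prime] at h
  obtain ⟨p, hp, hqp⟩ := h
  rw [mem_filter, mem_range] at hp
  have := Nat.le_of_dvd hp.2.pos hqp
  omega

lemma inv_insert (z : ℕ) (Q : Finset ℕ) (hQ : ∀ p ∈ Q, p.Prime) (q : ℕ) (hq : q.Prime)
    (hqQ : q ∉ Q) (hzq : z < q) (k : ℕ) (hk : 1 ≤ k) (h : ℕ) (f : ℕ → ℝ) (v s s1 A B Γ : ℝ)
    (hs1 : 0 ≤ s1) (hA : 0 ≤ A) (hB : 0 ≤ B) (hΓ0 : 0 ≤ Γ)
    (hΓ : ∀ m : ℕ, h ≤ m → ∀ b, MB Q k h (fm m b f) (v / m) Γ)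
    (hI : Inv z Q k h f v s s1 A B) :
    Inv z (insert q Q) k h f v s s1 (A * cf k s q) (B * cf k s1 q + 40 * k * Γ) := by
  intro m hm hmh hmz hmQ b
  have hq0 : (0:ℝ) < q := by exact_mod_cast hq.pos
  have hm0 : (0:ℝ) < m := by exact_mod_cast hm
  have hh0 : (0:ℝ) < h := by exact_mod_cast (by omega : 0 < h)
  have hqm : ¬ q ∣ m := hmQ q (mem_insert_self q Q)
  have hc : m.Coprime q := (hq.coprime_iff_not_dvd.mpr hqm).symm
  have h1 := hI m hm hmh hmz (fun p hp => hmQ p (mem_insert_of_mem hp)) b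
  have hHm : (1:ℝ) ≤ (h:ℝ) / m := by
    rw [le_div_iff₀ hm0, one_mul]; exact_mod_cast hmh.le
  have hx0 : 0 ≤ A * ((h : ℝ) / m) ^ s + B * ((h : ℝ) / m) ^ s1 := by positivity
  have ev : v / (m:ℝ) / q = v / ((m * q : ℕ) : ℝ) := by push_cast; rw [div_div]
  rcases lt_or_ge (m * q) h with h2 | h2
  · -- `m q < h`
    have h3 := step Q hQ q hq hqQ k hk h (fm m b f) (v / m) _
      (A * ((h : ℝ) / (m * q : ℕ)) ^ s + B * ((h : ℝ) / (m * q : ℕ)) ^ s1) hx0 (by positivity) h1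
      (by
        intro a _
        obtain ⟨b', hb'⟩ := res_fm m q a b hq.pos hc f
        rw [hb', ev]
        apply hI (m * q) (by nlinarith [hq.pos]) h2
        · exact Nat.Coprime.mul_left hmz (coprime_primorial_of_lt hq hzq)
        · intro p hp hpm
          rcases (hQ p hp).dvd_mul.mp hpm with h4 | h4
          · exact hmQ p (mem_insert_of_mem hp) h4
          · have : p = q := (Nat.prime_dvd_prime_iff_eq (hQ p hp) hq).mp h4
            exact hqQ (this ▸ hp))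
    apply MB_mono _ _ h3
    · positivity
    · have e1 : ∀ u : ℝ, ((h : ℝ) / (m * q : ℕ)) ^ u = ((h : ℝ) / m) ^ u * (q : ℝ) ^ (-u) := by
        intro u
        rw [Real.rpow_neg hq0.le, ← div_eq_mul_inv, ← Real.div_rpow (by positivity) hq0.le]
        congr 1
        push_cast
        rw [div_div]
      rw [e1, e1]
      unfold cf
      have h5 : (0:ℝ) ≤ 40 * k * Γ * ((h : ℝ) / m) ^ s1 := by positivity
      nlinarith
  · -- `m q ≥ h`
    have h3 := step Q hQ q hq hqQ k hk h (fm m b f) (v / m) _ Γ hx0 hΓ0 h1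
      (by
        intro a _
        obtain ⟨b', hb'⟩ := res_fm m q a b hq.pos hc f
        rw [hb', ev]
        exact hΓ (m * q) h2 b')
    apply MB_mono _ _ h3
    · positivity
    · unfold cf
      have h5 : (1:ℝ) ≤ ((h : ℝ) / m) ^ s1 := Real.one_le_rpow hHm hs1
      have h6 : (0:ℝ) ≤ 40 * k * (q : ℝ) ^ (-s) * (A * ((h : ℝ) / m) ^ s) := by positivity
      have h7 : (0:ℝ) ≤ 40 * k * (q : ℝ) ^ (-s1) * (B * ((h : ℝ) / m) ^ s1) := by positivity
      have h8 : (40:ℝ) * k * Γ ≤ 40 * k * Γ * ((h : ℝ) / m) ^ s1 :=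
        le_mul_of_one_le_right (by positivity) h5
      nlinarith

/-- Many primes. -/
theorem inv_union (z : ℕ) (Q : Finset ℕ) (hQ : ∀ p ∈ Q, p.Prime) (k : ℕ) (hk : 1 ≤ k) (h : ℕ)
    (f : ℕ → ℝ) (v s s1 A B Γ : ℝ) (hs1 : 0 ≤ s1) (hA : 0 ≤ A) (hB : 0 ≤ B) (hΓ0 : 0 ≤ Γ)
    (S : Finset ℕ) (hS : ∀ p ∈ S, p.Prime ∧ z < p ∧ p ∉ Q)
    (hΓ : ∀ R ⊆ Q ∪ S, ∀ m : ℕ, h ≤ m → ∀ b, MB R k h (fm m b f) (v / m) Γ)
    (hI : Inv z Q k h f v s s1 A B) :
    Inv z (Q ∪ S) k h f v s s1 (A * ∏ q ∈ S, cf k s q)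
      ((∏ q ∈ S, cf k s1 q) * (B + #S * (40 * k * Γ))) := by
  induction S using Finset.induction_on with
  | empty => simpa using hI
  | @insert q S hqS ih =>
    have hS' : ∀ p ∈ S, p.Prime ∧ z < p ∧ p ∉ Q := fun p hp => hS p (mem_insert_of_mem hp)
    have ih' := ih hS' (fun R hR => hΓ R (hR.trans (by
      apply Finset.union_subset_union_right; exact subset_insert q S)))
    have hq := hS q (mem_insert_self q S)
    have hqQS : q ∉ Q ∪ S := by
      rw [mem_union, not_or]; exact ⟨hq.2.2, hqS⟩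
    have hP : ∀ t : ℝ, 1 ≤ ∏ q ∈ S, cf k t q := fun t => one_le_prod_cf k t S
    have h0 : ∀ t : ℝ, 0 ≤ ∏ q ∈ S, cf k t q := fun t => le_trans zero_le_one (hP t)
    have key := inv_insert z (Q ∪ S) (by
      intro p hp
      rcases mem_union.mp hp with h1 | h1
      · exact hQ p h1
      · exact (hS' p h1).1) q hq.1 hqQS hq.2.1 k hk h f v s s1
      (A * ∏ q ∈ S, cf k s q) ((∏ q ∈ S, cf k s1 q) * (B + #S * (40 * k * Γ))) Γ hs1
      (mul_nonneg hA (h0 s)) (mul_nonneg (h0 s1) (by positivity)) hΓ0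
      (hΓ (Q ∪ S) (by apply Finset.union_subset_union_right; exact subset_insert q S)) ih'
    have hfin : ∀ P0 P1 n : ℝ, 1 ≤ P0 → 1 ≤ P1 → 0 ≤ n →
        Inv z (insert q (Q ∪ S)) k h f v s s1 (A * P0 * cf k s q)
          (P1 * (B + n * (40 * k * Γ)) * cf k s1 q + 40 * k * Γ) →
        Inv z (insert q (Q ∪ S)) k h f v s s1 (A * (cf k s q * P0))
          (cf k s1 q * P1 * (B + (n + 1) * (40 * k * Γ))) := by
      intro P0 P1 n hP0 hP1 hn hI' m hm hmh hmz hmQ b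
      have h1 := hI' m hm hmh hmz hmQ b
      have hc1 := one_le_cf k s1 q
      have hc0 := one_le_cf k s q
      have hm0 : (0:ℝ) < m := by exact_mod_cast hm
      have h5 : (0:ℝ) ≤ ((h:ℝ) / m) ^ s1 := by positivity
      have h50 : (0:ℝ) ≤ ((h:ℝ) / m) ^ s := by positivity
      have h4 : (0:ℝ) ≤ 40 * k * Γ := by positivity
      have h3 : (1:ℝ) ≤ cf k s1 q * P1 := by nlinarith
      have h6 := mul_nonneg h4 (sub_nonneg.mpr h3)
      have e2 : cf k s1 q * P1 * (B + (n + 1) * (40 * k * Γ)) -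
          (P1 * (B + n * (40 * k * Γ)) * cf k s1 q + 40 * k * Γ) =
          40 * k * Γ * (cf k s1 q * P1 - 1) := by ring
      have h7 := mul_le_mul_of_nonneg_right (by linarith :
        P1 * (B + n * (40 * k * Γ)) * cf k s1 q + 40 * k * Γ ≤
          cf k s1 q * P1 * (B + (n + 1) * (40 * k * Γ))) h5
      have e3 : A * P0 * cf k s q = A * (cf k s q * P0) := by ring
      rw [e3] at h1
      refine MB_mono ?_ ?_ h1
      · have : (0:ℝ) ≤ A * (cf k s q * P0) := by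
          apply mul_nonneg hA; apply mul_nonneg <;> linarith
        have : (0:ℝ) ≤ P1 * (B + n * (40 * k * Γ)) * cf k s1 q + 40 * k * Γ := by
          have : (0:ℝ) ≤ P1 * (B + n * (40 * k * Γ)) * cf k s1 q := by
            apply mul_nonneg
            · apply mul_nonneg (by linarith)
              have := mul_nonneg hn h4
              linarith
            · linarith
          linarith
        positivity
      · linarith
    rw [Finset.union_insert, Finset.prod_insert hqS, Finset.prod_insert hqS,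
      Finset.card_insert_of_notMem hqS, Nat.cast_add, Nat.cast_one]
    exact hfin _ _ _ (hP s) (hP s1) (Nat.cast_nonneg _) key

end Pool.Agent.LibDev91
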